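import Pool.Agent.QSX.Defs

/-!
# Squad QSX: matrices, lengths, the near vertical lemma, geometry

One statement per row; every docstring contains a complete proof.
-/

set_option autoImplicit false

namespace Pool.Agent.QSX

open Matrix Finset

/-- the size of a matrix: sum of the absolute values of the entries -/
noncomputable def sz {m : ℕ} (x : Matrix (Fin m) (Fin m) ℝ) : ℝ := ∑ i, ∑ j, |x i j|

/-! ### Block L: exponential and logarithm -/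

/-- **LGM** (medium-strong).  Logarithm and exponential are inverse to each other.
Proof.  (i) `mexp x - 1` is a combination of the `x ^ k`, `k ≥ 1`, which are strictly upper triangular; the same for `mlog`.
(ii) Everything lies in the commutative algebra generated by one nilpotent element, so both identities follow from two divisibilities in `ℝ[X]`: with `E = ∑_(k ≤ m) X^k / k!` and
`Λ = ∑_(1 ≤ k ≤ m) (-1)^(k+1) X^k / k`, `X^(m+1)` divides `Λ(E - 1) - X` and `E(Λ) - 1 - X` (then evaluate at `x`, resp. `g - 1`, `x^(m+1) = 0`).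
First: `p = Λ(E-1)` has `p(0) = 0` and `p' = Λ'(E-1) E'`; `(1+X) Λ' = 1 ± X^m`, `E' = E - X^m/m!`, so `p' = 1` modulo `X^m` (`E - 1` is divisible by `X`), so `p = X` modulo `X^(m+1)`.
Second: `q = E(Λ) - (1+X)`: `(1+X) (E(Λ))' = (1+X) E'(Λ) Λ' = E(Λ)` modulo `X^m`, so `u = E(Λ)` has `(1+X) u' = u` modulo `X^m`, `u(0) = 1`; comparing coefficients `u = 1 + X` modulo `X^(m+1)`. -/
def LgmStmt : Prop :=
  ∀ (R : Type) [CommRing R] [Algebra ℝ R] (m : ℕ),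
    (∀ x : Matrix (Fin m) (Fin m) R, SU x → UU (mexp x) ∧ mlog (mexp x) = x) ∧
    (∀ g : Matrix (Fin m) (Fin m) R, UU g → SU (mlog g) ∧ mexp (mlog g) = g)

/-- **MCJ** (easy).  Conjugation.
Proof.  `(p x p⁻¹)^k = p x^k p⁻¹`. -/
def McjStmt : Prop :=
  ∀ (R : Type) [CommRing R] [Algebra ℝ R] (m : ℕ) (p : (Matrix (Fin m) (Fin m) R)ˣ)
    (x : Matrix (Fin m) (Fin m) R), SU x →
    SU ((p : Matrix (Fin m) (Fin m) R) * x * ((p⁻¹ : (Matrix (Fin m) (Fin m) R)ˣ) : Matrix _ _ R)) →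
    ue ((p : Matrix (Fin m) (Fin m) R) * x * ((p⁻¹ : (Matrix (Fin m) (Fin m) R)ˣ) : Matrix _ _ R)) =
      p * ue x * p⁻¹

/-- **DEX** (medium).  The derivative of the exponential.  `A` is an algebra, `D` a derivation of `A`, `z ^ N = 0`.
Proof.  Put `w = D z`, `ad z (w) = z w - w z`.  By induction on `j`: `w z^j = ∑_k (-1)^k C(j,k) z^(j-k) (ad z)^k w` (the operators of left multiplication by `z` and `ad z`
commute, and right multiplication is their difference).  So `D (z^n) = ∑_(i<n) z^i w z^(n-1-i) = ∑_k (-1)^k (∑_(i<n) C(n-1-i,k)) z^(n-1-k) (ad z)^k w = ∑_k (-1)^k C(n,k+1) z^(n-1-k) (ad z)^k w`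
(hockey stick).  Divide by `n!` and sum over `n`: `C(n,k+1)/n! = 1/((k+1)! (n-1-k)!)`.  Terms with `n ≥ N` or `n-1-k ≥ N` vanish; `(ad z)^(2N) = 0`, so the range `2 N + 1` for `k` and `4 N + 4` for
`n` contain everything. -/
def DexStmt : Prop :=
  ∀ (A : Type) [Ring A] [Algebra ℝ A] (D : A →ₗ[ℝ] A), (∀ x y, D (x * y) = x * D y + D x * y) →
    ∀ (z : A) (N : ℕ), z ^ N = 0 →
      D (∑ n ∈ range N, ((n.factorial : ℝ)⁻¹) • z ^ n) =
        (∑ n ∈ range N, ((n.factorial : ℝ)⁻¹) • z ^ n) *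
          ∑ k ∈ range (2 * N + 1), ((-1 : ℝ) ^ k * ((k + 1).factorial : ℝ)⁻¹) •
            ((fun w => z * w - w * z)^[k] (D z))

/-- **BCH** (strong).  The exponentials of a Lie algebra of strictly upper triangular matrices form a group.
Proof.  Let `x, y ∈ n`, `z(s) = log (exp x · exp (s y))`, a matrix with coefficients in `R[s]` (`LgmStmt` over the ring `R[s]`), strictly upper triangular (over `R[s]`), so `z ^ (m+1) = 0` and `exp z = exp x exp (s y)`.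
Let `D = d/ds` (entrywise).  `D (exp z) = exp x exp (s y) y = exp z · y`, so by DEX (`exp z` is invertible) `∑_k (-1)^k / (k+1)! (ad z)^k (D z) = y`.  Write `z = ∑ z_j s^j` (`z_j` matrices over `R`,
`z_0 = log (exp x) = x`).  Strong induction: `z_0, ..., z_j ∈ n` implies `z_(j+1) ∈ n`.  The coefficient of `s^j` of the equation is `∑_k (-1)^k/(k+1)! (ad z_0)^k u + (brackets of z_0, ..., z_j, (i+1) z_(i+1), i < j) = y_j`
with `u = (j+1) z_(j+1)` and `y_j = y` or `0`, so `∑_k c_k (ad x)^k u ∈ n`, `c_0 = 1`.  `(ad x)^N u = 0` for `N = 2 m + 2`; applying `(ad x)^(N-1)`, `(ad x)^(N-2)`, ... one gets `(ad x)^i u ∈ n` for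
`i = N-1, N-2, ..., 0`.  So all coefficients are in `n` and `log (exp x exp y) = z(1) ∈ n`. -/
def BchStmt : Prop :=
  ∀ (R : Type) [CommRing R] [Algebra ℝ R] (m : ℕ)
    (n : Submodule ℝ (Matrix (Fin m) (Fin m) R)), (∀ x ∈ n, SU x) →
    (∀ x ∈ n, ∀ y ∈ n, x * y - y * x ∈ n) →
    ∀ x ∈ n, ∀ y ∈ n, ∃ z ∈ n, ue x * ue y = ue z

/-! ### Block N: norms, lengths, groups -/

/-- **NRM** (easy-medium).  Proof.  `A i j` is the inner product of `A e_j` with `e_i`; `‖A v‖ ≤ ∑_(i,j) |A i j| |v_j|`; `toEuclideanCLM` is a ring isomorphism and the operator norm is submultiplicative. -/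
def NrmStmt : Prop :=
  ∀ (m : ℕ), (∀ (A : Matrix (Fin m) (Fin m) ℝ) (i j), |A i j| ≤ nrm A) ∧
    (∀ A : Matrix (Fin m) (Fin m) ℝ, nrm A ≤ sz A) ∧
    (∀ A B : Matrix (Fin m) (Fin m) ℝ, nrm (A * B) ≤ nrm A * nrm B) ∧
    (0 < m → nrm (1 : Matrix (Fin m) (Fin m) ℝ) = 1)

/-- **LEN** (medium, uses NRM).
Proof.  If `m = 0` everything is `0`.  Otherwise `1 = ‖g g⁻¹‖ ≤ ‖g‖ ‖g⁻¹‖`, so the maximum is at least `1`; `max (‖g h‖, ‖h⁻¹ g⁻¹‖) ≤` product of the maxima.  Entries: NRM.  Upper bound: NRM. -/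
def LenStmt : Prop :=
  ∀ (m : ℕ) (g h : (Matrix (Fin m) (Fin m) ℝ)ˣ),
    0 ≤ len g ∧ len g⁻¹ = len g ∧ len (g * h) ≤ len g + len h ∧
    (∀ i j, |(g : Matrix (Fin m) (Fin m) ℝ) i j| ≤ Real.exp (len g)) ∧
    (0 < m → len g ≤ Real.log (max (sz (g : Matrix (Fin m) (Fin m) ℝ))
      (sz ((g⁻¹ : (Matrix (Fin m) (Fin m) ℝ)ˣ) : Matrix (Fin m) (Fin m) ℝ)))) ∧
    (m = 0 → len g = 0)

/-- **GRP** (medium, uses BCH MCJ).  The matrices of the points of a datum form a group.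
Proof.  For `c ∈ b`, `y ∈ n`: `diag(exp c) y diag(exp (-c))` has the entries `exp (c_i - c_l) y_il`; it is in `n`, because `ad (diag c)` is a diagonalisable operator of the space of matrices which preserves the subspace `n`,
so `exp (ad (diag c))` preserves it (a closed subspace of a finite dimensional space: the partial sums of the exponential series are in `n`).  So
`ue x · ud c · (ue y · ud d) = ue x · ue (diag(exp c) y diag(exp(-c))) · ud (c + d)` (MCJ), BCH.  Inverse: `(ue x · ud c)⁻¹ = ud (-c) ue (-x) = ue (diag(exp(-c)) (-x) diag(exp c)) ud (-c)`. -/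
def GrpStmt : Prop :=
  ∀ D : Dat, (∃ G, D.IsGrp G) ∧
    (∀ c ∈ D.b, ∀ y ∈ D.n, ∃ y' ∈ D.n, (∀ i l, y' i l = Real.exp (c i - c l) * y i l) ∧
      ud c * ue y * (ud c)⁻¹ = ue y')

/-- **MIJ** (easy-medium, uses LGM).  The coordinates of a point are determined by its matrix.
Proof.  The diagonal of `exp x · diag (exp c)` is `exp c`; `x = log`. -/
def MijStmt : Prop := ∀ D : Dat, Function.Injective D.mat

/-- **PLN** (medium, uses NRM LEN LGM).  Lengths of points.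
Proof.  (i) The diagonal entries of `exp x diag (exp c)` are `exp (c_i)`, those of the inverse `exp (-c_i)`; LEN.  (ii) `exp x = (exp x diag (exp c)) diag (exp (-c))`, so `‖exp x‖ ≤ exp (2 len)`, and `x = mlog (exp x)` is a polynomial
in `exp x`.  (iii) `len (exp x diag (exp c)) ≤ len (exp x) + len (diag (exp c))`, `exp x` and `exp (-x)` are polynomials in `x`. -/
def PlnStmt : Prop :=
  ∀ m : ℕ, ∃ K : ℝ, 0 < K ∧ ∀ (x : Matrix (Fin m) (Fin m) ℝ) (c : Fin m → ℝ), SU x →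
    ‖c‖ ≤ len (ue x * ud c) ∧ Real.log (1 + sz x) ≤ K * (len (ue x * ud c) + 1) ∧
    len (ue x * ud c) ≤ ‖c‖ + K * (Real.log (1 + sz x) + 1)

/-- **ENT** (easy-medium, uses LEN).  Entries of differences.
Proof.  `(ue x ud c)⁻¹ (ue x' ud c') = ud (-c) ((ue x)⁻¹ ue x') ud c'` has the entry `exp (-c_i) v_il exp (c'_l)`; LEN. -/
def EntStmt : Prop :=
  ∀ (D : Dat) (p p' : D.Pt) (i l : Fin D.m),
    |(((ue (p.1 : Matrix (Fin D.m) (Fin D.m) ℝ))⁻¹ * ue (p'.1 : Matrix (Fin D.m) (Fin D.m) ℝ) :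
      (Matrix (Fin D.m) (Fin D.m) ℝ)ˣ) : Matrix _ _ ℝ) i l| ≤
      Real.exp (len ((D.mat p)⁻¹ * D.mat p') + (p.2 : Fin D.m → ℝ) i - (p'.2 : Fin D.m → ℝ) l)

/-- **ENU** (medium, uses LEN NRM).  The converse estimate.
Proof.  `g = (mat p)⁻¹ mat p' = ud (-c) v ud c'`, `v = (ue x)⁻¹ ue x'` unitriangular; the entries of `g` are bounded by `exp (b + δ)` (`i < l`), resp. `exp (δ)` on the diagonal.  `v⁻¹ = ∑_k (1 - v)^k`, and
`|((1-v)^k)_il| ≤ m^k exp (k b + c_i - c_l)`, so the entries of `g⁻¹ = ud (-c') v⁻¹ ud c` are bounded by `(m+1) (m+1)^m exp ((m+1) b + δ)`. -/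
def EnuStmt : Prop :=
  ∀ (D : Dat), ∃ K : ℝ, 0 < K ∧ ∀ (p p' : D.Pt) (b δ : ℝ), 0 ≤ b → 0 ≤ δ →
    (∀ i, |(p.2 : Fin D.m → ℝ) i - (p'.2 : Fin D.m → ℝ) i| ≤ δ) →
    (∀ i l, i < l →
      |(((ue (p.1 : Matrix (Fin D.m) (Fin D.m) ℝ))⁻¹ * ue (p'.1 : Matrix (Fin D.m) (Fin D.m) ℝ) :
      (Matrix (Fin D.m) (Fin D.m) ℝ)ˣ) : Matrix _ _ ℝ) i l| ≤
      Real.exp (b + (p.2 : Fin D.m → ℝ) i - (p.2 : Fin D.m → ℝ) l)) →
    len ((D.mat p)⁻¹ * D.mat p') ≤ K * (1 + b + δ)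

/-- **LOW** (easy-medium, uses PLN).  Lower bound for the length of a root element.
Proof.  PLN (second inequality) with `c = 0` (`ud 0 = 1`): `log (1 + |t| sz e) ≤ K (len (ue (t e)) + 1)`, `sz e > 0`. -/
def LowStmt : Prop :=
  ∀ (m : ℕ) (e : Matrix (Fin m) (Fin m) ℝ), SU e → e ≠ 0 →
    ∃ k C : ℝ, 0 < k ∧ ∀ t : ℝ, t ≠ 0 → k * Real.log |t| - C ≤ len (ue (t • e))

/-- **DFN** (easy).  Differences of points are points: `mat` of a product.
(uses GRP).  Proof.  `(mat p)⁻¹ mat q ∈ G`. -/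
def DfnStmt : Prop := ∀ (D : Dat) (p q : D.Pt), ∃ r : D.Pt, (D.mat p)⁻¹ * D.mat q = D.mat r ∧
  (∀ i, (r.2 : Fin D.m → ℝ) i = (q.2 : Fin D.m → ℝ) i - (p.2 : Fin D.m → ℝ) i)

/-! ### Block V: the near vertical lemma -/

/-- **CLG** (medium).  The class condition defines a group (families of unitriangular matrices).
Proof.  `(g h)_il = g_il + h_il + ∑_(i<k<l) g_ik h_kl`, and `(P_i - P_k) + (P_k - P_l) = P_i - P_l`; the number of terms is absorbed by `ε` (`R → ∞`).  `g⁻¹ = ∑_(k ≤ m) (1 - g)^k`. -/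
def ClgStmt : Prop :=
  ∀ (S : Scale) (V : Type) (m : ℕ) (P : V → Fin m → ℝ) (B : Set V)
    (g h : ℕ → V → (Matrix (Fin m) (Fin m) ℝ)ˣ),
    (∀ s a, UU (g s a : Matrix (Fin m) (Fin m) ℝ)) → (∀ s a, UU (h s a : Matrix (Fin m) (Fin m) ℝ)) →
    S.Cls P B (fun s a => (g s a : Matrix (Fin m) (Fin m) ℝ)) →
    S.Cls P B (fun s a => (h s a : Matrix (Fin m) (Fin m) ℝ)) →
    S.Cls P B (fun s a => ((g s a * h s a : (Matrix (Fin m) (Fin m) ℝ)ˣ) : Matrix _ _ ℝ)) ∧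
    S.Cls P B (fun s a => (((g s a)⁻¹ : (Matrix (Fin m) (Fin m) ℝ)ˣ) : Matrix _ _ ℝ))

/-- **CLE** (medium).  The exponential and the class condition: `exp x` satisfies the class condition if `x` does.
Proof.  `(x^k)_il` is a sum of at most `m^k` products `x_(i j_1) x_(j_1 j_2) ...` with `i < j_1 < ... < l`; the exponents add up; the constants are absorbed by `ε`. -/
def CleStmt : Prop :=
  ∀ (S : Scale) (V : Type) (m : ℕ) (P : V → Fin m → ℝ) (B : Set V)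
    (x : ℕ → V → Matrix (Fin m) (Fin m) ℝ), (∀ s a, SU (x s a)) → S.Cls P B x →
    S.Cls P B (fun s a => mexp (x s a))

/-- **PTH** (medium).  The straight path.
Proof.  The closed unit ball `B` is compact and convex, `p` is continuous: let `a₀` be a point of `B` where `p` is minimal.  For `a ∈ B` put `T = ⌈2 R⌉`, `a_j = a + (j/T) (a₀ - a)`, `j ≤ T`: `a_j ∈ B`, `R ‖a_(j+1) - a_j‖ ≤ 1`,
`p(a_j) ≤ p(a)`.  So `|t a - t a₀| ≤ ∑_(j<T) exp (R (p(a_j) + ε)) ≤ T exp (R (p(a) + ε))`. -/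
def PthStmt : Prop :=
  ∀ (V : Type) [NormedAddCommGroup V] [NormedSpace ℝ V] [FiniteDimensional ℝ V] (p : V →ₗ[ℝ] ℝ),
    ∃ a₀ : V, ‖a₀‖ ≤ 1 ∧ ∀ (R ε : ℝ) (t : V → ℝ), 1 ≤ R →
      (∀ a a', ‖a‖ ≤ 1 → ‖a'‖ ≤ 1 → R * ‖a - a'‖ ≤ 1 → |t a - t a'| ≤ Real.exp (R * (p a + ε))) →
      ∀ a, ‖a‖ ≤ 1 → |t a - t a₀| ≤ (2 * R + 1) * Real.exp (R * (p a + ε))

/-- the elements of `n` with entries only in the diagonals `l - i ≥ k` -/
def Dat.nk (D : Dat) (k : ℕ) : Submodule ℝ (Matrix (Fin D.m) (Fin D.m) ℝ) where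
  carrier := {x | x ∈ D.n ∧ ∀ i l : Fin D.m, (l : ℕ) < i + k → x i l = 0}
  add_mem' h h' := ⟨D.n.add_mem h.1 h'.1, fun i l hl => by
    rw [Matrix.add_apply, h.2 i l hl, h'.2 i l hl, add_zero]⟩
  zero_mem' := ⟨D.n.zero_mem, fun _ _ _ => rfl⟩
  smul_mem' c _ h := ⟨D.n.smul_mem c h.1, fun i l hl => by
    rw [Matrix.smul_apply, h.2 i l hl, smul_zero]⟩

/-- **PRT** (medium).  `n` and the `n^(k)` are stable under the projections to the weights of a linear map `P : V → b`.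
Proof.  For `a ∈ V` the operator `T_a : x ↦ diag(P a) x - x diag(P a)` preserves `n^(k)` (`stab`; it multiplies the entries by `P_i - P_l`).  If `ρ` is not one of the functionals `P_i - P_l` then `part P ρ x` is `0` at all entries.
Otherwise choose `a` such that `(P_i - P_l)(a) ≠ ρ(a)` for all `(i,l)` with `P_i - P_l ≠ ρ` (a finite union of proper subspaces is not `V`); `part P ρ` is the polynomial `∏_v (T_a - v)/(ρ(a) - v)` in `T_a`, the product over the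
finitely many values `v ≠ ρ(a)` of `(P_i - P_l)(a)`. -/
def PrtStmt : Prop :=
  ∀ (D : Dat) (V : Type) [NormedAddCommGroup V] [NormedSpace ℝ V] [FiniteDimensional ℝ V]
    (P : V →ₗ[ℝ] (Fin D.m → ℝ)), (∀ a, P a ∈ D.b) → ∀ (ρ : V →ₗ[ℝ] ℝ) (k : ℕ), ∀ x ∈ D.nk k,
    part P ρ x ∈ D.nk k

/-- **SEC** (medium, uses PRT).  The bounded equivariant section.
Proof.  Let `lev x` be the matrix of the entries of `x` with `l = i + k`.  Choose a linear right inverse `σ₀` of `lev : nk k → lev (nk k)`; for `τ ∈ lev (nk k)` put `σ τ = ∑_ρ part P ρ (σ₀ (part P ρ τ))`, the sum over the finitely many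
functionals `ρ = P_i - P_l` (`i < l`); `part P ρ τ = lev (part P ρ x)` if `τ = lev x`.  `lev (σ τ) = ∑_ρ part P ρ (part P ρ τ) = τ`.  The entry `(i,l)` of `σ τ` depends only on the entries of `τ` with the same weight: `K` bounds the
entries of the matrix of `σ₀`. -/
def SecStmt : Prop :=
  ∀ (D : Dat) (V : Type) [NormedAddCommGroup V] [NormedSpace ℝ V] [FiniteDimensional ℝ V]
    (P : V →ₗ[ℝ] (Fin D.m → ℝ)), (∀ a, P a ∈ D.b) → ∀ k : ℕ, ∃ K : ℝ, 0 < K ∧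
    ∀ x ∈ D.nk k, ∃ y ∈ D.nk k, (∀ i l : Fin D.m, (l : ℕ) = i + k → y i l = x i l) ∧
      ∀ i l : Fin D.m, i < l → ∀ M : ℝ, 0 ≤ M →
        (∀ i' l' : Fin D.m, (l' : ℕ) = i' + k → (∀ a, P a i' - P a l' = P a i - P a l) →
          |x i' l'| ≤ M) → |y i l| ≤ K * M

/-- **NVS** (strong, uses BCH LGM CLG CLE PTH PRT SEC).  One step of the near vertical lemma.
Proof.  Write `t s a` for the entries with `l = i + k` of `ζ s a` (equal to those of `log ζ`, which lies in `nk k`; `LGM`).  For `‖a‖, ‖a'‖ ≤ 1`, `R s ‖a - a'‖ ≤ 1`: `ζ(a') ζ(a)⁻¹ = g(a')⁻¹ (φ(a')⁻¹ φ(a)) g(a)`, so (CLG; the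
class condition at `a` and at `a'` differ by a constant factor since `R ‖a - a'‖ ≤ 1`) its entries are bounded by `exp (R (P_i(a) - P_l(a) + ε))`; its entries with `l = i + k` are `t(a') - t(a)`.  PTH for `p = P_i - P_l`: for each weight `ρ`
there is `a_ρ` (depending only on `ρ`) with `|t_il(a) - t_il(a_ρ)| ≤ exp (R (ρ(a) + ε))` for the entries `(i,l)` of weight `ρ`.  Let `η = -∑_ρ part P ρ (log ζ(a_ρ)) ∈ nk k` (the sum over the weights), `ψ' = ψ · ue η`.  The element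
`ζ(a) ue η` is `ue` of an element of `nk k` (BCH) whose entries with `l = i + k` are `τ_il = t_il(a) - t_il(a_ρ)`, `ρ` the weight of `(i,l)`.  SEC gives `y(a) ∈ nk k` with these entries for `l = i + k` and `|y_il| ≤ K max |τ|` over the
entries of the same weight: `g''(a) = ue y(a)` satisfies the class condition (CLE).  Put `g' = g g''`, `ζ' = g''⁻¹ ζ ue η`: `ζ' = ue` of an element of `nk k` (BCH) with zero entries for `l = i + k`, so of `nk (k+1)`. -/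
def NvsStmt : Prop :=
  ∀ (D : Dat) (S : Scale) (V : Type) [NormedAddCommGroup V] [NormedSpace ℝ V]
    [FiniteDimensional ℝ V] (P : V →ₗ[ℝ] (Fin D.m → ℝ)), (∀ a, P a ∈ D.b) → (∀ s, 1 ≤ S.R s) →
    ∀ φ : ℕ → V → (Matrix (Fin D.m) (Fin D.m) ℝ)ˣ, (∀ s a, ∃ y ∈ D.n, φ s a = ue y) →
    (∀ ε > (0 : ℝ), ∀ᶠ s in (S.ω : Filter ℕ), ∀ a a', ‖a‖ ≤ 1 → ‖a'‖ ≤ 1 → S.R s * ‖a - a'‖ ≤ 1 →
      ∀ i l, i < l → |(((φ s a)⁻¹ * φ s a' : (Matrix (Fin D.m) (Fin D.m) ℝ)ˣ) : Matrix _ _ ℝ) i l| ≤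
        Real.exp (S.R s * (P a i - P a l + ε))) →
    ∀ (k : ℕ), 1 ≤ k → ∀ (ψ : ℕ → (Matrix (Fin D.m) (Fin D.m) ℝ)ˣ)
      (g ζ : ℕ → V → (Matrix (Fin D.m) (Fin D.m) ℝ)ˣ),
    (∀ s, ∃ y ∈ D.n, ψ s = ue y) → (∀ s a, ∃ y ∈ D.n, g s a = ue y) →
    (∀ s a, ∃ y ∈ D.nk k, ζ s a = ue y) → (∀ s a, (φ s a)⁻¹ * ψ s = g s a * ζ s a) →
    S.Cls P {a | ‖a‖ ≤ 1} (fun s a => (g s a : Matrix (Fin D.m) (Fin D.m) ℝ)) →
    ∃ (ψ' : ℕ → (Matrix (Fin D.m) (Fin D.m) ℝ)ˣ) (g' ζ' : ℕ → V → (Matrix (Fin D.m) (Fin D.m) ℝ)ˣ),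
    (∀ s, ∃ y ∈ D.n, ψ' s = ue y) ∧ (∀ s a, ∃ y ∈ D.n, g' s a = ue y) ∧
    (∀ s a, ∃ y ∈ D.nk (k + 1), ζ' s a = ue y) ∧ (∀ s a, (φ s a)⁻¹ * ψ' s = g' s a * ζ' s a) ∧
    S.Cls P {a | ‖a‖ ≤ 1} (fun s a => (g' s a : Matrix (Fin D.m) (Fin D.m) ℝ))

/-- **NVL** (medium, uses NVS BCH).  The near vertical lemma.
Proof.  Start with `k = 1`, `ψ = 1`, `g = 1`, `ζ = φ⁻¹` (`nk 1 = n`), iterate NVS; `nk m = 0`, so `ζ = 1` for `k = m` (or `m + 1`). -/
def NvlStmt : Prop :=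
  ∀ (D : Dat) (S : Scale) (V : Type) [NormedAddCommGroup V] [NormedSpace ℝ V]
    [FiniteDimensional ℝ V] (P : V →ₗ[ℝ] (Fin D.m → ℝ)), (∀ a, P a ∈ D.b) → (∀ s, 1 ≤ S.R s) →
    ∀ φ : ℕ → V → (Matrix (Fin D.m) (Fin D.m) ℝ)ˣ, (∀ s a, ∃ y ∈ D.n, φ s a = ue y) →
    (∀ ε > (0 : ℝ), ∀ᶠ s in (S.ω : Filter ℕ), ∀ a a', ‖a‖ ≤ 1 → ‖a'‖ ≤ 1 → S.R s * ‖a - a'‖ ≤ 1 →
      ∀ i l, i < l → |(((φ s a)⁻¹ * φ s a' : (Matrix (Fin D.m) (Fin D.m) ℝ)ˣ) : Matrix _ _ ℝ) i l| ≤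
        Real.exp (S.R s * (P a i - P a l + ε))) →
    ∃ ψ : ℕ → (Matrix (Fin D.m) (Fin D.m) ℝ)ˣ, (∀ s, ∃ y ∈ D.n, ψ s = ue y) ∧
      S.Cls P {a | ‖a‖ ≤ 1}
        (fun s a => (((φ s a)⁻¹ * ψ s : (Matrix (Fin D.m) (Fin D.m) ℝ)ˣ) : Matrix _ _ ℝ))

end Pool.Agent.QSX
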