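import Pool.Agent.QSX.Defs

/-!
# Squad QSX, statements B (helper85): from the brackets over the residue field to `AlgEmb`

Rows: `PMU`, `GRD` (graded part), `SMP`, `ZER`, `PDV`, `LMT`, `TRA`, `NFR`, `TRF` (transfer from the
residue field to the real numbers), `BRE`, `CLM` (climbing), `ALE`, `ALG` (algebraic embedding).
A row is proved as a theorem with the statements named after the word Uses as hypotheses.
-/

set_option autoImplicit false

namespace Pool.Agent.QSX

open Matrix Finset

/-- **Graded families.** `C l` is a combination of elements of `n_Y`, it has entries only at the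
places of weight `κ (comp l) * rt l`, the brackets are those of the basis `e` of `n_X`, and the
matrices of the top roots are not zero. -/
def GrC (X Y : Dat) (hX : X.Split) (F : Type) [Field F] [Algebra ℝ F]
    (P : X.b →ₗ[ℝ] (Fin Y.m → ℝ)) (κ : hX.J → ℝ)
    (C : hX.ι → Matrix (Fin Y.m) (Fin Y.m) F) : Prop :=
  (∀ l, C l ∈ Y.nF F) ∧
  (∀ l i k, C l i k ≠ 0 → ∀ a : X.b, P a i - P a k = κ (hX.comp l) * hX.rt l a) ∧
  (∀ l l', l ≠ l' → C l * C l' - C l' * C l = hX.br C l l') ∧
  (∀ l, C (hX.top (hX.comp l)) ≠ 0)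

/-- **Row PMU** (the part of a product). Uses: nothing. Easy.

Let the functions `r`, `r'` be linearly independent in the sense of the first hypothesis, let all
nonzero entries of `A` be at places of weight `s r` (`s` real, depending on the place) and those of
`B` at places of weight `t r'`.  Then the part of weight `κ r + κ' r'` of `A * B` is the product of
the part of weight `κ r` of `A` and of the part of weight `κ' r'` of `B`.

Proof. Fix `i, k`; write `w i k a = P a i - P a k`, so `w i j + w j k = w i k`.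
Case `w i k = κ r + κ' r'`: the left side is `∑ j, A i j * B j k`, the right side is
`∑ j, [w i j = κ r] A i j * [w j k = κ' r'] B j k`. The terms agree for each `j`: if
`A i j = 0` or `B j k = 0` both are `0` (split the ifs); otherwise `w i j = s r`, `w j k = t r'`,
so `s r + t r' = κ r + κ' r'`, hence `s = κ`, `t = κ'` and both conditions hold.
Case `w i k ≠ κ r + κ' r'`: the left side is `0`, and each term of the right side is `0`, since
both conditions together would give `w i k = κ r + κ' r'`. -/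
def PmuStmt : Prop :=
  ∀ (V : Type) (m : ℕ) (F : Type) [Field F] (P : V → Fin m → ℝ) (r r' : V → ℝ) (κ κ' : ℝ)
    (A B : Matrix (Fin m) (Fin m) F),
    (∀ s t s' t' : ℝ, (∀ a, s * r a + t * r' a = s' * r a + t' * r' a) → s = s' ∧ t = t') →
    (∀ i k, A i k ≠ 0 → ∃ s : ℝ, ∀ a, P a i - P a k = s * r a) →
    (∀ i k, B i k ≠ 0 → ∃ t : ℝ, ∀ a, P a i - P a k = t * r' a) →
    part P (fun a => κ * r a + κ' * r' a) (A * B) =
      part P (fun a => κ * r a) A * part P (fun a => κ' * r' a) B

/-- **Row PNF** (parts of elements of `nF`). Uses: `PRT` (StmtsG). Easy.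

Proof. `Y.nF F` is the `F`-span of the matrices `y.map (algebraMap ℝ F)`, `y ∈ Y.n`; `part P ρ` is
additive, commutes with scalars of `F` and with `map (algebraMap ℝ F)` (entrywise), and
`part P ρ y ∈ Y.n` for `y ∈ Y.n` by `PrtStmt` with `V = X.b`, `D = Y`, `k = 0`
(`y ∈ Y.nk 0` for `y ∈ Y.n`: the entries with `l < i + 0` vanish by `Y.su`). Induction on the
span. -/
def PnfStmt : Prop :=
  ∀ (X Y : Dat) (F : Type) [Field F] [Algebra ℝ F] (P : X.b →ₗ[ℝ] (Fin Y.m → ℝ)),
    (∀ a, P a ∈ Y.b) → ∀ (ρ : X.b →ₗ[ℝ] ℝ), ∀ A ∈ Y.nF F, part P ρ A ∈ Y.nF F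

/-- **Row GRD** (the graded part). Uses: `PMU`, `PNF`. Medium.

The hypotheses on `C` are those of `GoodC` (output of row `BRK` of StmtsA).

Proof. For `j : hX.J` we have `C (top j) ≠ 0`, so it has a nonzero entry, at `(i, k)` say, and there
is `κ j > 0` with `P a i - P a k = κ j * rt (top j) a` for all `a` (choice; this defines `κ`).
Put `ρ l a = κ (comp l) * rt l a` and `C' l = part P (ρ l) (C l)`.
(1) `C' l ∈ Y.nF F` by `PNF` (with the linear form `κ (comp l) • rt l`). (2) The support condition is immediate from the definition of `part`.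
(4) Let `t = top (comp l)`; `comp t = comp l` (`comp_top`), so `ρ t a = κ (comp l) * rt t a`, and the
entry `(i, k)` chosen for `j = comp l` is an entry of weight `ρ t`: `C' t i k = C t i k ≠ 0`.
(3) Let `l ≠ l'`. First, `rt l` and `rt l'` are linearly independent: if
`s rt l + t rt l' = s' rt l + t' rt l'` (all `a`) and `s ≠ s'` then
`rt l = ((t' - t) / (s - s')) • rt l'`, against `nonprop l l'`; so `s = s'`, and then
`(t - t') * rt l' a = 0` for all `a`; `rt l' ≠ 0 • rt l` by `nonprop l' l`, so `t = t'`.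
By `PMU` (with `r = rt l`, `r' = rt l'`, the `κ` being `κ (comp l)`, `κ (comp l')`) for `(C l, C l')`
and for `(C l', C l)` (interchange the roles, `κ' r' + κ r = κ r + κ' r'`),
`C' l * C' l' - C' l' * C' l = part P (ρ l + ρ l') (C l * C l' - C l' * C l)`
`= part P (ρ l + ρ l') (br C l l') = ∑ c_t part P (ρ l + ρ l') (C t)` over the factors `t` of
`L l l'` with `p = q = 1` (`part` is additive and commutes with real scalars).  For such a `t`:
`comp t = comp l = comp l'` (`L_comp`) and `rt t = rt l + rt l'` (`L_rt`), so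
`ρ l a + ρ l' a = κ (comp t) * rt t a = ρ t a` and the summand is `c_t C' t`. (If there is no such
`t` the sum is empty; no relation between `comp l` and `comp l'` is needed.) -/
def GrdStmt : Prop :=
  ∀ (X Y : Dat) (hX : X.Split) (F : Type) [Field F] [Algebra ℝ F]
    (P : X.b →ₗ[ℝ] (Fin Y.m → ℝ)), (∀ a, P a ∈ Y.b) →
    ∀ C : hX.ι → Matrix (Fin Y.m) (Fin Y.m) F,
      (∀ l, C l ∈ Y.nF F) → (∀ l, C l ≠ 0) →
      (∀ l i k, C l i k ≠ 0 → ∃ κ > (0 : ℝ), ∀ a : X.b, P a i - P a k = κ * hX.rt l a) →
      (∀ l l', l ≠ l' → C l * C l' - C l' * C l = hX.br C l l') →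
      ∃ κ : hX.J → ℝ, (∀ j, 0 < κ j) ∧
        ∃ C' : hX.ι → Matrix (Fin Y.m) (Fin Y.m) F, GrC X Y hX F P κ C'

/-- **Row SMP** (polynomials of moderate sequences). Uses: nothing. Easy.

Proof. Both claims together by `MvPolynomial.induction_on`. Constants: `Scale.Md.const`, the
difference is `0` (`Scale.Sm.zero`). Sums: `Md.add`, `Sm.add`. For `p * X i`: `Md.mul`, and
`p(c') c'_i - p(c) c_i = c'_i (p(c') - p(c)) + p(c) (c'_i - c_i)`, where
`c'_i = c_i + (c'_i - c_i)` is moderate (`Sm.md`, `Md.add`), so both summands are small by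
`Sm.mul_md`. -/
def SmpStmt : Prop :=
  ∀ (S : Scale) (n : ℕ) (c c' : Fin n → ℕ → ℝ), (∀ i, S.Md (c i)) →
    (∀ i, S.Sm (fun s => c' i s - c i s)) → ∀ p : MvPolynomial (Fin n) ℝ,
      S.Md (fun s => MvPolynomial.eval (fun i => c i s) p) ∧
      S.Sm (fun s => MvPolynomial.eval (fun i => c' i s) p -
        MvPolynomial.eval (fun i => c i s) p)

/-- **Row ZER** (an exact zero near an almost zero). Uses: nothing. Medium.

Proof. Let `a k s` be the `k`-th coefficient of `Polynomial.taylor (y s) (q s)`; it is the value at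
`y s` of the `k`-th Hasse derivative, `∑ j ∈ range (D + 1), (j choose k) * (q s).coeff j * y s ^ (j - k)`
(`Polynomial.taylor_coeff`, `Polynomial.hasseDeriv`), so it is moderate for each `k`, and it is `0`
for `k > D` (`Polynomial.natDegree_taylor`). `a 0 s = (q s).eval (y s)` is small:
`|a 0 s| ≤ exp (-(c R))` eventually, some `c > 0`, `R = S.R s`. `a 1 s = (q s).derivative.eval (y s)`
(`Polynomial.taylor_coeff_one`) is not small, so (ultrafilter) `|a 1 s| > exp (-(c / 8) R)`
eventually. `M s = ∑ k ∈ range (D + 1), |a k s| ≤ exp (c / 8 * R)` eventually (a finite sum of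
moderate sequences; use `Md` with absolute values). Put `δ s = exp (-(c / 2) R) ≤ 1`.
For `|t| ≤ 1`: `(q s).eval (y s + t) = ∑ k ∈ range (D + 1), a k s * t ^ k`
(`Polynomial.taylor_eval`, `Polynomial.eval_eq_sum_range'`), and
`|(q s).eval (y s + t) - a 0 s - a 1 s * t| ≤ M s * t ^ 2`. For `t = δ` and `t = -δ`:
`|a 1 s * δ| > exp (-(5 c / 8) R)`, `|a 0 s| + M s * δ ^ 2 ≤ exp (-c R) + exp (-(7 c / 8) R) ≤
2 exp (-(7 c / 8) R) < exp (-(5 c / 8) R)` as soon as `exp (c / 4 * R) > 2`, which holds eventually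
(`S.ev_R`). So `(q s).eval (y s + δ)` has the sign of `a 1 s` and `(q s).eval (y s - δ)` the
opposite sign; by the intermediate value theorem there is `y' s ∈ [y s - δ, y s + δ]` with
`(q s).eval (y' s) = 0`, for all these `s`; put `y' s = y s` for the other `s`. Then
`|y' s - y s| ≤ exp (-(c / 2) R)`. -/
def ZerStmt : Prop :=
  ∀ (S : Scale) (D : ℕ) (q : ℕ → Polynomial ℝ) (y : ℕ → ℝ), (∀ s, (q s).natDegree ≤ D) →
    (∀ k, S.Md (fun s => (q s).coeff k)) → S.Md y →
    S.Sm (fun s => (q s).eval (y s)) → ¬ S.Sm (fun s => (q s).derivative.eval (y s)) →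
    ∃ y' : ℕ → ℝ, S.Sm (fun s => y' s - y s) ∧
      ∀ᶠ s in (S.ω : Filter ℕ), (q s).eval (y' s) = 0

/-- **Row PDV** (pseudo division modulo a prime ideal of `A[X]`). Uses: nothing. Medium, pure
algebra. All polynomials are in `A[X]`, `C` is the embedding of the constants.

Proof. Suppose the first alternative fails: some `f ∈ P` has a coefficient `f.coeff k` with
`C (f.coeff k) ∉ P`.
(a) Then some `f ∈ P` has `C f.leadingCoeff ∉ P`: strong induction on the degree; if
`C f.leadingCoeff ∈ P` then `f₁ = f.eraseLead = f - C f.leadingCoeff * X ^ f.natDegree ∈ P` has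
smaller degree (it is not `0`, `k` is not the degree, and `f₁.coeff k = f.coeff k`).
(b) Let `q ∈ P` with `C q.leadingCoeff ∉ P` have minimal `D = q.natDegree` (`Nat.find`), and
`u = q.leadingCoeff`. `D ≥ 1`, because `D = 0` means `q = C u ∈ P`.
(c) If `r ∈ P` and `r.natDegree < D` then `C (r.coeff k) ∈ P` for all `k`: strong induction on
`r.natDegree`: `C r.leadingCoeff ∈ P` by minimality; `r.eraseLead ∈ P`; if `r.natDegree = 0` we are
done, otherwise `r.eraseLead` has smaller degree and its coefficients are those of `r` except the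
leading one.
(d) `q.derivative ∉ P`: otherwise by (c) (`natDegree_derivative_lt`) `C (q.derivative.coeff (D - 1))
= C (D * u) ∈ P`; multiplied by `C (algebraMap ℝ A (1 / D))` it gives `C u ∈ P`.
(e) For every `f` there are `N, g, r` with `C u ^ N * f = g * q + r` and `r.natDegree < D`: strong
induction on `f.natDegree`. If `f.natDegree < D` take `N = 0, g = 0, r = f`. Otherwise
`f₁ = C u * f - C f.leadingCoeff * X ^ (f.natDegree - D) * q` has `natDegree < f.natDegree`
or is handled by induction because its coefficient at `f.natDegree` vanishes and it has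
`natDegree ≤ f.natDegree` (if `f.natDegree = 0` then `D = 0`, excluded); so
`C u ^ N₁ * f₁ = g₁ * q + r`, and `N = N₁ + 1`,
`g = g₁ + C u ^ N₁ * C f.leadingCoeff * X ^ (f.natDegree - D)`.
(f) If `f ∈ P` then `r = C u ^ N * f - g * q ∈ P`, and (c) applies to `r`. -/
def PdvStmt : Prop :=
  ∀ (A : Type) [CommRing A] [Algebra ℝ A] (P : Ideal (Polynomial A)), P.IsPrime →
    (∀ f ∈ P, ∀ k, Polynomial.C (f.coeff k) ∈ P) ∨
    ∃ q ∈ P, Polynomial.derivative q ∉ P ∧ ∃ u : A, Polynomial.C u ∉ P ∧
      ∀ f ∈ P, ∃ (N : ℕ) (g r : Polynomial A), Polynomial.C u ^ N * f = g * q + r ∧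
        ∀ k, Polynomial.C (r.coeff k) ∈ P

/-- **Row LMT** (Lemma T). Uses: `SMP`, `ZER`, `PDV`. Medium.

Proof. Induction on `n`. `n = 0`: `c' = c`; a polynomial in no variables is a constant `r`, and a
small constant sequence is `0` (`|r| ≤ exp (-(c R))` eventually and `R → ∞`).
Step `n → n + 1`: let `y = c 0`, `c₀ i = c i.succ`, and `c₀'` from the induction hypothesis for
`c₀`. Put `A = MvPolynomial (Fin n) ℝ`, for `f : A[X]` and a point `(z, t)`:
`E f z t = (f.map (MvPolynomial.eval z)).eval t`; with `MvPolynomial.finSuccEquiv ℝ n` one has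
`MvPolynomial.eval (Fin.cons t z) p = E (finSuccEquiv ℝ n p) z t`
(`MvPolynomial.eval_eq_eval_mv_eval'`). By `SMP` the sequence `e f s = E f (c₀ s) (y s)` is moderate
and `e' f s = E f (c₀' s) (y s)` differs from it by a small sequence (`SMP` for `Fin.cons y c₀'`).
Let `P = {f | S.Sm (e f)}`: it is the kernel of the ring homomorphism `A[X] → S.OO → S.OO ⧸ S.mm`
(for `f` take the element `e f` of `S.OO`; it is additive and multiplicative pointwise), so it is a
prime ideal (`RingHom.ker_isPrime`). `C a ∈ P` iff `s ↦ eval (c₀ s) a` is small.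
Apply `PDV` to `P`.
Case 1, all coefficients of the elements of `P` are in `P`: put `c' = Fin.cons y c₀'`. If `p` is as
in the claim, `f = finSuccEquiv ℝ n p ∈ P`, so every coefficient `a_k` of `f` has
`eval (c₀ s) a_k` small, hence `eval (c₀' s) a_k = 0` eventually (induction hypothesis), for the
finitely many `k ≤ f.natDegree` at once; so `f.map (eval (c₀' s)) = 0` and `eval (c' s) p = 0`.
Case 2, with `q`, `u`: let `q_s = q.map (eval (c₀' s))`. Its degree is `≤ q.natDegree`, its
coefficients are moderate (`SMP` and small differences), `q_s.eval (y s) = e' q s` is small (since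
`e q` is), `q_s.derivative.eval (y s) = e' q.derivative s` is not small (`Polynomial.derivative_map`;
otherwise `e q.derivative` would be small). `ZER` gives `y'` with `y' - y` small and
`q_s.eval (y' s) = 0` eventually. Put `c' = Fin.cons y' c₀'`. For `p` as in the claim and
`f = finSuccEquiv ℝ n p ∈ P`: `C u ^ N * f = g * q + r`; evaluate at `(c₀' s, y' s)`:
`(eval (c₀' s) u) ^ N * eval (c' s) p = (…) * 0 + E r (c₀' s) (y' s)`, and the last term is `0`
eventually since all coefficients of `r` vanish at `c₀' s` eventually (induction hypothesis).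
`eval (c₀ s) u` is not small, so `eval (c₀' s) u` is not small and not `0` eventually
(`Scale.ne_zero_ev`). Hence `eval (c' s) p = 0` eventually. -/
def LmtStmt : Prop :=
  ∀ (S : Scale) (n : ℕ) (c : Fin n → ℕ → ℝ), (∀ i, S.Md (c i)) →
    ∃ c' : Fin n → ℕ → ℝ, (∀ i, S.Sm (fun s => c' i s - c i s)) ∧
      ∀ p : MvPolynomial (Fin n) ℝ, S.Sm (fun s => MvPolynomial.eval (fun i => c i s) p) →
        ∀ᶠ s in (S.ω : Filter ℕ), MvPolynomial.eval (fun i => c' i s) p = 0

/-- **Row TRA** (transfer from the residue field). Uses: `LMT`, `SMP`. Easy to medium.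

Proof. With `Fintype.equivFin σ` and `MvPolynomial.rename` we may assume `σ = Fin n`
(`MvPolynomial.aeval_rename`, `MvPolynomial.eval_rename`). Choose `z i : S.OO` with
`Ideal.Quotient.mk S.mm (z i) = c i`. Then `aeval c p = Ideal.Quotient.mk S.mm (aeval z p)`
(the quotient map is an `ℝ`-algebra homomorphism, `Ideal.Quotient.mkₐ`) and the value at `s` of the
sequence `aeval z p` is `eval (fun i => z i s) p` (compose with the algebra homomorphism
`S.OO → ℝ`, evaluation at `s`; or `MvPolynomial.induction_on`). So for `p ∈ E` the sequence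
`eval (z s) p` is small, and for `p ∈ N` it is not small. Take `c'` of `LMT` for the sequences `z i`.
For `p ∈ E`: `eval (c' s) p = 0` eventually. For `p ∈ N`: `eval (c' s) p - eval (z s) p` is small
(`SMP`), so `eval (c' s) p` is not small, so it is not `0` eventually (`Scale.ne_zero_ev`). Finitely
many eventual statements for an ultrafilter: one `s` satisfies all of them, `x i = c' i s`. -/
def TraStmt : Prop :=
  ∀ (S : Scale) (σ : Type) [Fintype σ] (c : σ → S.FF) (E N : Finset (MvPolynomial σ ℝ)),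
    (∀ p ∈ E, MvPolynomial.aeval c p = 0) → (∀ p ∈ N, MvPolynomial.aeval c p ≠ 0) →
    ∃ x : σ → ℝ, (∀ p ∈ E, MvPolynomial.eval x p = 0) ∧ ∀ p ∈ N, MvPolynomial.eval x p ≠ 0

/-- **Row NFR** (representation of elements of `nF` of one weight). Uses: `PRT` (StmtsG; used with
`V = X.b`, `D = Y`, `k = 0`: `part P ρ y ∈ Y.n` for `y ∈ Y.n`). Easy.

Proof. `A` is in the span of the matrices `y.map (algebraMap ℝ F)`, `y ∈ Y.n`, so
`A = ∑ r : Fin d, c r • (y₀ r).map (algebraMap ℝ F)` with `y₀ r ∈ Y.n`
(`Submodule.mem_span_image_iff_exists_fun` or induction on the span). Put `y r = part P ρ (y₀ r)`.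
By hypothesis `A = part P ρ A` (entries at other places are `0`), and `part P ρ` commutes with the
sum, with scalars of `F` and with `map (algebraMap ℝ F)`; so `A = ∑ r, c r • (y r).map _`. -/
def NfrStmt : Prop :=
  ∀ (X Y : Dat) (F : Type) [Field F] [Algebra ℝ F] (P : X.b →ₗ[ℝ] (Fin Y.m → ℝ)),
    (∀ a, P a ∈ Y.b) → ∀ (ρ : X.b →ₗ[ℝ] ℝ) (A : Matrix (Fin Y.m) (Fin Y.m) F), A ∈ Y.nF F →
    (∀ i k, A i k ≠ 0 → ∀ a : X.b, P a i - P a k = ρ a) →
    ∃ (d : ℕ) (y : Fin d → Matrix (Fin Y.m) (Fin Y.m) ℝ) (c : Fin d → F),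
      (∀ r, y r ∈ Y.n) ∧ (∀ r i k, y r i k ≠ 0 → ∀ a : X.b, P a i - P a k = ρ a) ∧
      A = ∑ r, c r • (y r).map (algebraMap ℝ F)

/-- **Row TRF** (the graded family over the real numbers). Uses: `TRA`, `NFR`. Medium.

Proof. For each `l` apply `NFR` with `ρ = κ (comp l) • rt l`: `d l`, `y l r`, `c l r`
(`r : Fin (d l)`) with `C l = ∑ r, c l r • (y l r).map (algebraMap ℝ F)`. Let
`σ = Σ l, Fin (d l)` (finite), `c : σ → S.FF`, and for `l` the matrix of polynomials
`M l i k = ∑ r, MvPolynomial.C (y l r i k) * MvPolynomial.X ⟨l, r⟩ : MvPolynomial σ ℝ`. Then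
`aeval c (M l i k) = C l i k`, and for a real point `x` the numbers `eval x (M l i k)` are the
entries of `C' l = ∑ r, x ⟨l, r⟩ • y l r`. Let `E` be the set of the polynomials (entries)
`(M l * M l' - M l' * M l - br M l l') i k`, `l ≠ l'` (write `br` out; the ring homomorphisms
`aeval c` and `eval x` applied entrywise commute with products, differences, list sums and real
scalars): they vanish at `c` by the brackets of `C`. Let `N` be the set of `M (top (comp l)) i k`,
for each `l` with one place `(i, k)` (choice) where `C (top (comp l)) i k ≠ 0`. `TRA` gives `x`. Then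
`C' l ∈ Y.n`, so `C' l ∈ Y.nF ℝ` (`Submodule.subset_span`, `algebraMap ℝ ℝ = id`), the support
condition holds since it holds for every `y l r`, the brackets hold because the polynomials of `E`
vanish at `x`, and `C' (top (comp l)) ≠ 0` because of `N`. -/
def TrfStmt : Prop :=
  ∀ (X Y : Dat) (hX : X.Split) (S : Scale) (P : X.b →ₗ[ℝ] (Fin Y.m → ℝ)), (∀ a, P a ∈ Y.b) →
    ∀ (κ : hX.J → ℝ) (C : hX.ι → Matrix (Fin Y.m) (Fin Y.m) S.FF), GrC X Y hX S.FF P κ C →
      ∃ C' : hX.ι → Matrix (Fin Y.m) (Fin Y.m) ℝ, GrC X Y hX ℝ P κ C'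

/-- **Row COF** (coefficient comparison in a commutator formula). Uses: nothing. Medium. It is used
for `F = ℝ` (row `BRE`) and can be used for the residue field.

Proof. For SU matrices `M` over `F` and `r : ℝ`, `(ue (r • M)).val = mexp (r • M)
= ∑ k ∈ range (m + 1), r ^ k • ((k.factorial : ℝ)⁻¹ • M ^ k)` and the inverse is
`mexp (-(r • M))` (`ue_val`, `ue_inv_val`).  POLYNOMIAL MAPS: call `f : ℕ → Matrix _ _ F` of class
`(a, b)` (`a, b` matrices) if there are `d` and matrices `M_k` with `f x = ∑ k ∈ range (d+1), x ^ k • M_k`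
for all natural `x` and `M_0 = a`, `M_1 = b`. The product of maps of class `(a, b)` and `(a', b')` is
of class `(a a', a b' + b a')`, a finite product (list) accordingly; if the same map is of class
`(a, b)` and `(a', b')` then `a = a'`, `b = b'` (a polynomial with values in `F`, entry by entry,
which vanishes at all natural numbers is `0`, characteristic `0`).
Step 1. Fix a natural number `y`. As a function of `x` the left side is of class
`(1, A - E A E')`, `E = mexp (y • B)`, `E' = mexp (-(y • B))` (factors `mexp (x A)`: `(1, A)`,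
`E`: `(E, 0)`, `mexp (-(x A))`: `(1, -A)`, `E'`: `(E', 0)`, and `E E' = 1`). The factor `t` of the
right side is of class `(1, c_t y ^ q • C t)` if `p = 1` and `(1, 0)` if `p ≥ 2`; the product is of
class `(1, ∑_{t, p = 1} c_t y ^ q • C t)`. Hence
`A - E A E' = ∑_{t ∈ L, p = 1} c_t y ^ q • C t` for every natural `y`.
Step 2. As functions of `y`: the left side is of class `(0, -(B A) + A B)` (subtract the constant
`A`: the product `E A E'` is of class `(A, B A - A B)`), the right side is of class
`(0, ∑_{t, p = q = 1} c_t • C t)` (`q ≥ 1`). Compare. -/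
def CofStmt : Prop :=
  ∀ (F : Type) [Field F] [Algebra ℝ F] (m : ℕ) (ι : Type) (A B : Matrix (Fin m) (Fin m) F)
    (C : ι → Matrix (Fin m) (Fin m) F) (L : List (ι × ℕ × ℕ × ℚ)), SU A → SU B →
    (∀ t ∈ L, SU (C t.1)) → (∀ t ∈ L, 1 ≤ t.2.1 ∧ 1 ≤ t.2.2.1) →
    (∀ x y : ℕ, ue ((x : ℝ) • A) * ue ((y : ℝ) • B) * (ue ((x : ℝ) • A))⁻¹ *
        (ue ((y : ℝ) • B))⁻¹ =
      (L.map fun t => ue (((t.2.2.2 : ℝ) * (x : ℝ) ^ t.2.1 * (y : ℝ) ^ t.2.2.1) • C t.1)).prod) →
    A * B - B * A = ((L.filter fun t => t.2.1 = 1 ∧ t.2.2.1 = 1).map fun t =>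
      ((t.2.2.2 : ℚ) : ℝ) • C t.1).sum

/-- **Row BRE** (the brackets of the basis `e` itself). Uses: `COF`. Easy.

Proof. `X.Split.com` for natural `x`, `y` is the identity required by `COF` with `F = ℝ`, `A = e l`,
`B = e l'`, `C t = e t` (all in `X.n`, so `SU`; `e l ∈ X.n` by `span_e`); `L_rt` gives `p, q ≥ 1`. -/
def BreStmt : Prop :=
  ∀ (X : Dat) (hX : X.Split) (l l' : hX.ι), l ≠ l' →
    hX.e l * hX.e l' - hX.e l' * hX.e l = hX.br hX.e l l'

/-- **Row CLM** (climbing to the top root). Uses: `BRE`. Easy to medium.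

Proof. Let `a₊` be as in `pos`. Suppose `C l = 0` for some `l`, and take such an `l` with `rt l a₊`
maximal (`Finset.exists_max_image`). By the last hypothesis `l ≠ top (comp l)`, so by `climb` there
is `l' ≠ l` with `e l * e l' - e l' * e l ≠ 0`. By `BRE` this is `br e l l'`, so the filtered list
(`p = q = 1`) contains some `t` with `t.2.2.2 ≠ 0` (otherwise all summands vanish). If `t, t'` are
in the filtered list then `rt t.1 = rt l + rt l' = rt t'.1` (`L_rt`), so `t.1 = t'.1` (`nonprop` with
the scalar `1`), so `t = t'` (`L_nodup`: two members of the list with the same first component are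
equal); the filtered list has no repetition (`L_nodup`, `List.Nodup.of_map`, `List.Nodup.filter`),
so it is `[t]`. Hence `br C l l' = t.2.2.2 • C t.1`. On the other hand
`br C l l' = C l * C l' - C l' * C l = 0`. So `C t.1 = 0`, but
`rt t.1 a₊ = rt l a₊ + rt l' a₊ > rt l a₊`, a contradiction. -/
def ClmStmt : Prop :=
  ∀ (X : Dat) (hX : X.Split) (m : ℕ) (C : hX.ι → Matrix (Fin m) (Fin m) ℝ),
    (∀ l l', l ≠ l' → C l * C l' - C l' * C l = hX.br C l l') →
    (∀ l, C (hX.top (hX.comp l)) ≠ 0) → ∀ l, C l ≠ 0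

/-- **Row ALE** (the algebraic embedding). Uses: `BRE`. Medium.

Proof. `hX.scal` for `κ⁻¹` gives `D : X.b →ₗ X.b` with `rt l (D a) = (κ (comp l))⁻¹ * rt l a`. Put
`P' = P ∘ D`; `P' a ∈ Y.b`. If `C l i k ≠ 0` then
`P' a i - P' a k = κ (comp l) * rt l (D a) = rt l a`.
`e l ∈ X.n`; the vectors `⟨e l, _⟩` are a basis of `X.n` (`lin`, `span_e`; `Module.Basis.mk` or
`Module.Basis.span`), let `T` be the linear map with `T ⟨e l, _⟩ = C l` (`Module.Basis.constr`).
(1) `T x ∈ Y.n`: `C l ∈ Y.nF ℝ = Y.n` (`algebraMap ℝ ℝ = RingHom.id`, span of a submodule).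
(2) `T` injective: the `C l` are linearly independent. If `∑ z l • C l = 0`, take `l₀` and `(i, k)`
with `C l₀ i k ≠ 0`; for `l ≠ l₀` we have `C l i k = 0`, since otherwise
`rt l a = P' a i - P' a k = rt l₀ a` for all `a`, against `nonprop` (scalar `1`). So `z l₀ = 0`.
(3) `P'` injective: if `P' a = 0` then for each `l`, at a nonzero entry of `C l`,
`rt l a = P' a i - P' a k = 0`; so `a = 0` by `sep`.
(4) Brackets: both sides are bilinear in `x, y`, so it is enough to take `x = e l`, `y = e l'`
(`Module.Basis.ext` for the bilinear maps, or induction on the span). `l = l'`: both sides are `0`.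
`l ≠ l'`: `T (br e l l') = br C l l'` (`T` is linear; `BRE` inside the subtype) `= C l * C l' - C l' * C l`.
(5) `T (diag a * x - x * diag a)`: linear in `x`; for `x = e l` it is `T (rt l a • e l) = rt l a • C l`
(`wt`), and `(diagonal (P' a) * C l - C l * diagonal (P' a)) i k = (P' a i - P' a k) * C l i k`, which
is `rt l a * C l i k` in both cases `C l i k = 0` and `≠ 0`. -/
def AleStmt : Prop :=
  ∀ (X Y : Dat) (hX : X.Split) (P : X.b →ₗ[ℝ] (Fin Y.m → ℝ)), (∀ a, P a ∈ Y.b) →
    ∀ κ : hX.J → ℝ, (∀ j, 0 < κ j) → ∀ C : hX.ι → Matrix (Fin Y.m) (Fin Y.m) ℝ,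
      GrC X Y hX ℝ P κ C → (∀ l, C l ≠ 0) → AlgEmb X Y

/-- **Row ALG** (from the vertical flats to the algebraic embedding). Uses: `GAU`, `BRK` (StmtsA),
`GRD`, `TRF`, `CLM`, `ALE`. Easy.

Proof. `V : Vert X Y hX`. `GAU` gives an `AF X Y hX V.S.FF V.P`; `BRK` gives `C` over `V.S.FF`
(`GoodC`); `GRD` gives `κ > 0` and a graded family `C'` over `V.S.FF`; `TRF` a graded family `C''`
over `ℝ`; `CLM` (third and fourth clause of `GrC`): all `C'' l ≠ 0`; `ALE`. -/
def AlgStmt : Prop :=
  ∀ (X Y : Dat) (hX : X.Split), Nonempty (Vert X Y hX) → AlgEmb X Y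

end Pool.Agent.QSX
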