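import Pool.Agent.QSX.Defs

/-!
# Squad QSX: from the vertical flats to the brackets over the residue field

One statement per row; every docstring contains a complete proof.  `w_il` stands for the functional
`a ↦ P a i - P a l`; so `w_ik + w_kl = w_il`.
-/

set_option autoImplicit false

namespace Pool.Agent.QSX

open Matrix Finset

/-! ### Block R: reduction to the residue field -/

/-- **RDM** (easy-medium, no hypotheses).  The reduction of matrices is a ring homomorphism on moderate sequences.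
Proof.  `red z = Ideal.Quotient.mk S.mm ⟨z, h⟩` for `h : S.Md z`, so `red (z + w) = red z + red w`, `red (z * w) = red z * red w` (`Md.add`, `Md.mul` and the homomorphism `Ideal.Quotient.mk`),
`red` of a constant is `algebraMap`, `red z = 0 ↔ S.Sm z` (`Ideal.Quotient.eq_zero_iff_mem`); finite sums by induction, then entrywise.  Scalars: `c • v` is the product with the constant matrix `c • 1`. -/
def RdmStmt : Prop :=
  ∀ (S : Scale) (m : ℕ),
    (∀ v w : ℕ → Matrix (Fin m) (Fin m) ℝ, S.MdM v → S.MdM w →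
      S.MdM (fun s => v s * w s) ∧ S.redM (fun s => v s * w s) = S.redM v * S.redM w) ∧
    (∀ v w : ℕ → Matrix (Fin m) (Fin m) ℝ, S.MdM v → S.MdM w →
      S.MdM (fun s => v s + w s) ∧ S.redM (fun s => v s + w s) = S.redM v + S.redM w) ∧
    (∀ A : Matrix (Fin m) (Fin m) ℝ, S.MdM (fun _ => A) ∧
      S.redM (fun _ => A) = A.map (algebraMap ℝ S.FF)) ∧
    (∀ (c : ℝ) (v : ℕ → Matrix (Fin m) (Fin m) ℝ), S.MdM v →
      S.MdM (fun s => c • v s) ∧ S.redM (fun s => c • v s) = c • S.redM v) ∧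
    (∀ v : ℕ → Matrix (Fin m) (Fin m) ℝ, S.MdM v → ∀ i j,
      (S.redM v i j = 0 ↔ S.Sm (fun s => v s i j)))

/-- **RLG** (easy, uses RDM).  The reduction commutes with `mexp` and `mlog`.
Proof.  Both are fixed real polynomials in `v s` (for `mlog` in `v s - 1`); RDM (products, sums, real scalars, the constant `1`), induction on the exponent and on the range of the sum. -/
def RlgStmt : Prop :=
  ∀ (S : Scale) (m : ℕ) (v : ℕ → Matrix (Fin m) (Fin m) ℝ), S.MdM v →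
    (S.MdM (fun s => mexp (v s)) ∧ S.redM (fun s => mexp (v s)) = mexp (S.redM v)) ∧
    (S.MdM (fun s => mlog (v s)) ∧ S.redM (fun s => mlog (v s)) = mlog (S.redM v))

/-- **RNF** (medium, uses RDM).  The reduction of a moderate sequence of elements of `n` is in `n_F`.
Proof.  Let `b_1, ..., b_d` be a basis of the real vector space `Y.n` and let `f_k` be linear functionals on the space of all matrices with `y = ∑_k f_k(y) b_k` for `y ∈ Y.n` (extend the coordinates, `Submodule` has a complement).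
`f_k(y) = ∑_(i,j) φ_kij y_ij` with real constants `φ_kij`, so the sequence `f_k(y s)` is moderate, and `redM y = ∑_k red (f_k(y s)) • (b_k.map (algebraMap ℝ F))` (entrywise: `red` is additive and multiplicative on moderate
sequences, `red` of a constant is `algebraMap`; `(y s)_ij = ∑_k f_k(y s) (b_k)_ij`). -/
def RnfStmt : Prop :=
  ∀ (S : Scale) (Y : Dat) (y : ℕ → Matrix (Fin Y.m) (Fin Y.m) ℝ), (∀ s, y s ∈ Y.n) → S.MdM y →
    S.redM y ∈ Y.nF S.FF

/-- **NRE** (easy-medium, uses RDM).  Consequences of the class condition on a cone `K`.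
Proof.  (i) `0 ∈ K`, so for `i < l` the condition at `a = 0` says `|v_il| ≤ exp (R ε)` eventually, for every `ε`; on the diagonal `v_ii = 1`, below `v_il = 0`.  (ii) Suppose `a ∈ K` and `w_il(a) < 0`.  Put `a' = (1 + ‖a‖)⁻¹ • a ∈ K`,
`‖a'‖ ≤ 1`, `w_il(a') = -2 ε` with `ε > 0`.  The condition with this `ε`: `|v_il| ≤ exp (R (-2 ε + ε)) = exp (-(ε R))` eventually, so `v_il` is exponentially small and its class is `0` (RDM, last part). -/
def NreStmt : Prop :=
  ∀ (S : Scale) (V : Type) [NormedAddCommGroup V] [NormedSpace ℝ V] (m : ℕ)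
    (P : V →ₗ[ℝ] (Fin m → ℝ)) (K : Set V), 0 ∈ K → (∀ a ∈ K, ∀ c : ℝ, 0 ≤ c → c • a ∈ K) →
    ∀ v : ℕ → Matrix (Fin m) (Fin m) ℝ, (∀ s, UU (v s)) → S.Cl P ({a | ‖a‖ ≤ 1} ∩ K) v →
    S.MdM v ∧ ∀ i l, i < l → S.redM v i l ≠ 0 → ∀ a ∈ K, 0 ≤ P a i - P a l

/-- **NRF** (easy-medium, no hypotheses).  A class condition from small entries.
Proof.  There are finitely many pairs `(i,l)`, so there is one `c > 0` with `|v_il| ≤ exp (-(c R))` eventually for all `i < l` with `w_il ≠ 0`.  Choose `t ∈ (0, 1]` with `t |w_il(a)| ≤ c` for all `i`, `l`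
(`t = c / (c + ∑ |w_il(a)|)`).  Let `ε > 0`.  If `w_il ≠ 0`, then `-c ≤ w_il(t a) ≤ w_il(t a) + ε` and `R ≥ 0` eventually, so `exp (-(c R)) ≤ exp (R (w_il(t a) + ε))`.  If `w_il = 0`, then `|v_il| ≤ exp (ε R)` eventually,
because `v_il` is moderate. -/
def NrfStmt : Prop :=
  ∀ (S : Scale) (V : Type) [NormedAddCommGroup V] [NormedSpace ℝ V] (m : ℕ)
    (P : V →ₗ[ℝ] (Fin m → ℝ)) (v : ℕ → Matrix (Fin m) (Fin m) ℝ), S.MdM v →
    (∀ i l, i < l → (∃ a, P a i - P a l ≠ 0) → S.Sm (fun s => v s i l)) →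
    ∀ a : V, ∃ t : ℝ, 0 < t ∧ t ≤ 1 ∧ S.Cl P {t • a} v

/-! ### Block N: the groups `exp n` and `exp n_F` -/

/-- **LGP** (easy, uses BCH of StmtsG).  The exponentials of a Lie algebra of strictly upper triangular matrices form a group.
Proof.  Products: `BchStmt`; `1 = ue 0` (`mexp_zero`); `(ue y)⁻¹ = ue (-y)` for `SU y` (`ue_val`, `ue_inv_val`, `Units.ext`). -/
def LgpStmt : Prop :=
  ∀ (R : Type) [CommRing R] [Algebra ℝ R] (m : ℕ)
    (n : Submodule ℝ (Matrix (Fin m) (Fin m) R)), (∀ x ∈ n, SU x) →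
    (∀ x ∈ n, ∀ y ∈ n, x * y - y * x ∈ n) →
    ∃ G : Subgroup (Matrix (Fin m) (Fin m) R)ˣ, ∀ g, g ∈ G ↔ ∃ y ∈ n, g = ue y

/-- **GMX** (easy, uses LGP).  The elements of `Γ` are exponentials of elements of `n_X`.
Proof.  `X.n` satisfies the hypotheses of LGP (`X.su`, `X.lie`); its group contains the generators `ue (x • e l)` of `Γ` (`e l ∈ X.n` by `span_e`), so it contains `Γ` (`Subgroup.closure_le`).  The last claim: `X.n` is the span of all
`e l`, so `z ∈ span (e '' univ)`, and for `n, n' ∈ Γ` apply the first claim to `n⁻¹ n' ∈ Γ`. -/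
def GmxStmt : Prop :=
  ∀ (X : Dat) (hX : X.Split),
    (∀ g ∈ hX.Gam, ∃ z ∈ X.n, g = ue z) ∧
    (∀ n ∈ hX.Gam, ∀ n' ∈ hX.Gam, ∃ z ∈ Submodule.span ℝ (hX.e '' Set.univ), n' = n * ue z)

/-- **NFL** (easy-medium, uses LGP).  `n_F` is a Lie algebra of strictly upper triangular matrices over `F`, and its exponentials form a group.
Proof.  The matrices `y.map (algebraMap ℝ F)`, `y ∈ n`, are strictly upper triangular and closed under brackets (`algebraMap` is a ring homomorphism, `Matrix.map_mul`); `Submodule.span_induction` (twice for the bracket, which is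
`F`-bilinear because `F` is commutative).  The group: LGP for the real submodule `(Y.nF F).restrictScalars ℝ`. -/
def NflStmt : Prop :=
  ∀ (Y : Dat) (F : Type) [CommRing F] [Algebra ℝ F],
    (∀ x ∈ Y.nF F, SU x) ∧ (∀ x ∈ Y.nF F, ∀ y ∈ Y.nF F, x * y - y * x ∈ Y.nF F) ∧
    ∃ G : Subgroup (Matrix (Fin Y.m) (Fin Y.m) F)ˣ, ∀ g, g ∈ G ↔ ∃ y ∈ Y.nF F, g = ue y

/-- **PTF** (easy, uses PRT of StmtsG).  `n_F` is stable under the projections to the weights.
Proof.  `part P ρ` is `F`-linear (entrywise multiplication with `0` or `1`) and `part P ρ (y.map (algebraMap ℝ F)) = (part P ρ y).map (algebraMap ℝ F)`; for `y ∈ Y.n` one has `y ∈ Y.nk 0` (`Y.su`), so `part P ρ y ∈ Y.nk 0 ⊆ Y.n` by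
`PrtStmt` with `k = 0`; `Submodule.span_induction`. -/
def PtfStmt : Prop :=
  ∀ (Y : Dat) (F : Type) [CommRing F] [Algebra ℝ F] (V : Type) [NormedAddCommGroup V]
    [NormedSpace ℝ V] [FiniteDimensional ℝ V] (P : V →ₗ[ℝ] (Fin Y.m → ℝ)), (∀ a, P a ∈ Y.b) →
    ∀ ρ : V →ₗ[ℝ] ℝ, ∀ x ∈ Y.nF F, part P ρ x ∈ Y.nF F

/-! ### Block S: supports -/

/-- `g` is unitriangular and its entries above the diagonal are supported on the relation `r` -/
def Sp {R : Type} [CommRing R] {m : ℕ} (r : Fin m → Fin m → Prop)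
    (g : Matrix (Fin m) (Fin m) R) : Prop :=
  UU g ∧ ∀ i l, i < l → g i l ≠ 0 → r i l

/-- keep the diagonal and the entries in the relation `q` -/
noncomputable def kp {R : Type} [Zero R] {m : ℕ} (q : Fin m → Fin m → Prop)
    (g : Matrix (Fin m) (Fin m) R) : Matrix (Fin m) (Fin m) R := by
  classical
  exact fun i l => if i = l ∨ q i l then g i l else 0

/-- **SPT** (medium, no hypotheses).  The unitriangular matrices supported on a transitive relation form a group, compatible with `mexp` and `mlog`.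
Proof.  Let `A` be the set of the strictly upper triangular matrices `x` with `x i l ≠ 0 → r i l`.  `A` is closed under sums, real multiples and products: if `(x y) i l = ∑_k x i k y k l ≠ 0`, then some term is nonzero, so `i < k < l`,
`r i k`, `r k l` and `r i l`.  `Sp r g` means `g - 1 ∈ A`.  `(1 + x)(1 + y) = 1 + (x + y + x y)`; the inverse of `1 + x` is `∑_(k ≤ m) (-x)^k` (`x^m = 0`), the terms with `k ≥ 1` are in `A`;
`mexp x = 1 + ∑_(k ≥ 1)`, `mlog g = ∑_(k ≥ 1)` (the coefficient of `k = 0` is `-1 / 0 = 0`). -/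
def SptStmt : Prop :=
  ∀ (R : Type) [CommRing R] [Algebra ℝ R] (m : ℕ) (r : Fin m → Fin m → Prop),
    (∀ i j k, i < j → j < k → r i j → r j k → r i k) →
    (∃ G : Subgroup (Matrix (Fin m) (Fin m) R)ˣ, ∀ g,
      g ∈ G ↔ Sp r (g : Matrix (Fin m) (Fin m) R)) ∧
    (∀ x : Matrix (Fin m) (Fin m) R, SU x → (∀ i l, i < l → x i l ≠ 0 → r i l) →
      Sp r (mexp x)) ∧
    (∀ g : Matrix (Fin m) (Fin m) R, Sp r g →
      SU (mlog g) ∧ ∀ i l, i < l → mlog g i l ≠ 0 → r i l)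

/-- **FCP** (medium, uses SPT).  The projection to a face `q` is a homomorphism.
Proof.  `kp q (g h) = kp q g * kp q h` for `g`, `h` unitriangular supported on `r`.  Diagonal and below: clear.  Let `i < l`.  `(g h) i l = g i l + h i l + ∑_(i<k<l) g i k h k l`, the terms being nonzero only if `r i k` and `r k l`.
If `q i l`, then for each nonzero term `q i k` and `q k l`, so the same expression is `(kp q g * kp q h) i l`.  If not `q i l`, then `(kp q g * kp q h) i l = 0 + 0 + ∑_k kp q g i k * kp q h k l`, and a nonzero term would give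
`r i k`, `r k l`, `q i k`, `q k l`, so `q i l`.  Since `kp q 1 = 1` and `g⁻¹` is supported on `r` (SPT), `kp q g` is a unit with inverse `kp q g⁻¹`: this gives `π`.  Clearly `kp q g` is again supported on `r`.
The same computation for strictly upper triangular `x`, `y` supported on `r` gives `kp q (x y) = kp q x * kp q y`, so `kp q (x ^ k) = (kp q x) ^ k` for `k ≥ 1`, and `kp q` is additive and commutes with real scalars:
`kp q (mexp x) = mexp (kp q x)`. -/
def FcpStmt : Prop :=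
  ∀ (R : Type) [CommRing R] [Algebra ℝ R] (m : ℕ) (r q : Fin m → Fin m → Prop),
    (∀ i j k, i < j → j < k → r i j → r j k → r i k) →
    (∀ i j k, i < j → j < k → r i j → r j k → (q i k ↔ q i j ∧ q j k)) →
    ∃ (G : Subgroup (Matrix (Fin m) (Fin m) R)ˣ) (π : G →* (Matrix (Fin m) (Fin m) R)ˣ),
      (∀ g, g ∈ G ↔ Sp r (g : Matrix (Fin m) (Fin m) R)) ∧
      (∀ g : G, ((π g : (Matrix (Fin m) (Fin m) R)ˣ) : Matrix (Fin m) (Fin m) R) =
        kp q ((g : (Matrix (Fin m) (Fin m) R)ˣ) : Matrix (Fin m) (Fin m) R)) ∧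
      (∀ g : G, π g ∈ G) ∧
      (∀ x : Matrix (Fin m) (Fin m) R, SU x → (∀ i l, i < l → x i l ≠ 0 → r i l) →
        kp q (mexp x) = mexp (kp q x))

/-! ### Block G: the gauge -/

/-- the reduced flats before the gauge fixing -/
structure RF (X Y : Dat) (hX : X.Split) (F : Type) [Field F] [Algebra ℝ F]
    (P : X.b →ₗ[ℝ] (Fin Y.m → ℝ)) where
  ψ : (Matrix (Fin X.m) (Fin X.m) ℝ)ˣ → (Matrix (Fin Y.m) (Fin Y.m) F)ˣ
  val : ∀ n ∈ hX.Gam, ∀ n' ∈ hX.Gam, ∃ y ∈ Y.nF F, (ψ n)⁻¹ * ψ n' = ue y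
  supp : ∀ n ∈ hX.Gam, ∀ n' ∈ hX.Gam, ∀ Ψ : Set hX.ι, ∀ z ∈ Submodule.span ℝ (hX.e '' Ψ),
    n' = n * ue z → ∀ i l, i < l →
      (((ψ n)⁻¹ * ψ n' : (Matrix (Fin Y.m) (Fin Y.m) F)ˣ) : Matrix _ _ F) i l ≠ 0 →
      ∀ a ∈ hX.dual Ψ, 0 ≤ P a i - P a l
  nondeg : ∀ n ∈ hX.Gam, ∀ (l : hX.ι) (x : ℚ), x ≠ 0 → ∃ i k, i < k ∧
    (((ψ n)⁻¹ * ψ (n * ue ((x : ℝ) • hX.e l)) : (Matrix (Fin Y.m) (Fin Y.m) F)ˣ) :
      Matrix _ _ F) i k ≠ 0 ∧ ∃ a, P a i - P a k ≠ 0

/-- **GAA** (medium-strong, uses LGM of StmtsG and LGP GMX RDM RLG RNF NRE NRF).  Reduction of the vertical flats.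
Proof.  For `n, n' ∈ Γ` put `v(n,n') s = (ψ n s)⁻¹ ψ n' s`: it is `ue y_s`, `y_s ∈ Y.n` (LGP for `Y.n`), in particular unitriangular.  By GMX (second part) `near` applies with `Ψ = univ`, so by NRE (with `K = hX.dual univ`, a cone)
`v(n,n')` is moderate.  `v(n,n') v(n',n'') = v(n,n'')`, `v(n,n) = 1`, so by RDM the matrices `redM v(n,n')` satisfy the same relations; in particular they are units.  Put `ψ' n = redM v(1,n)` (inverse `redM v(n,1)`) for
`n ∈ Γ` and `ψ' n = 1` otherwise; then `(ψ' n)⁻¹ ψ' n' = redM v(n,n')`.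
`val`: `y_s = mlog (v(n,n') s)` (LGM), so `y` is moderate (RLG) and `redM v = redM (mexp y) = mexp (redM y)`, `redM y ∈ n_F` (RNF), `SU (redM y)` (entrywise, `red 0 = 0`).
`supp`: `near` for `Ψ` and NRE with `K = hX.dual Ψ` (a cone).
`nondeg`: let `v = v(n, n u_l(x))`.  Suppose `redM v i k = 0` for all `i < k` with `w_ik ≠ 0`; then `v_ik` is exponentially small for these (RDM, last part).  Let `a` be an element of `X.b` with `‖a‖ ≤ 1`, `rt l a < 0` (a small multiple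
of minus the element of `hX.pos`).  NRF gives `t ∈ (0,1]` with `S.Cl P {t • a} v`; but `‖t • a‖ ≤ 1` and `rt l (t • a) < 0`, which contradicts `far`. -/
def GaaStmt : Prop :=
  ∀ (X Y : Dat) (hX : X.Split) (V : Vert X Y hX), Nonempty (RF X Y hX V.S.FF V.P)

/-- **GAB** (strong, uses LGM of StmtsG and SPT FCP PTF NFL GMX).  The gauge fixing.
Proof.  Let `r i k` mean `0 ≤ w_ik(a)` for all `a ∈ hX.dual univ`, and `q i k` mean `w_ik(a) = 0` for all `a`.  `r` is transitive.  `q` is a face of `r`: if `r i j`, `r j k` and `q i k`, then on `dual univ` the functionals `w_ij`, `w_jk` are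
`≥ 0` with sum `0`, so both vanish on `dual univ`, hence everywhere, because `dual univ` contains `a₀ + t a` for every `a` and all small `t > 0` (`a₀` from `hX.pos`, `ι` finite).  FCP gives `G` and `π : G →* units`, `π g = kp q g`.
Note that `kp q x = part P 0 x` for all `x` (`w_ii = 0`).
For `n ∈ Γ` put `g n = (ψ 1)⁻¹ ψ n`: by `supp` (`Ψ = univ`, GMX) and `val` (unitriangular) `g n ∈ G`, and `(g n)⁻¹ g n' = (ψ n)⁻¹ ψ n'`.  Put `χ n = g n * (π (g n))⁻¹` (`1` outside `Γ`), so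
`(χ n)⁻¹ χ n' = π (g n) * v * (π (g n'))⁻¹` with `v = (ψ n)⁻¹ ψ n'`.
`val`: `g n = ue y`, `y ∈ n_F`, `y = mlog (g n)` is supported on `r` (LGM, SPT), so `π (g n) = kp q (mexp y) = mexp (kp q y) = mexp (part P 0 y)` with `part P 0 y ∈ n_F` (PTF); products and inverses: the group of NFL.
`supp`: let `r_Ψ i k` mean `0 ≤ w_ik` on `dual Ψ` (transitive).  `v` is supported on `r_Ψ`, `π (g n)` and `π (g n')` are supported on `q ⊆ r_Ψ`; so the product is supported on `r_Ψ` (the group of SPT for `r_Ψ`).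
`π (π g) = π g` for `g ∈ G` (`kp q (kp q g) = kp q g`), so `χ n ∈ G` has `π (χ n) = 1` and `π ((χ n)⁻¹ χ n') = 1`: the entries above the diagonal with `q i k` vanish, so a nonzero entry has some `a` with `w_ik(a) ≠ 0`.
`nondeg`: if `(χ n)⁻¹ χ n' = 1`, then `v = (π (g n))⁻¹ π (g n') = π ((g n)⁻¹ g n')` has no nonzero entries above the diagonal outside `q`, which contradicts `nondeg` of `RF`. -/
def GabStmt : Prop :=
  ∀ (X Y : Dat) (hX : X.Split) (F : Type) [Field F] [Algebra ℝ F]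
    (P : X.b →ₗ[ℝ] (Fin Y.m → ℝ)), (∀ a, P a ∈ Y.b) → RF X Y hX F P → Nonempty (AF X Y hX F P)

/-- **GAU** (trivial, uses GAA GAB).  From the vertical flats to the algebraic data over the residue field. -/
def GauStmt : Prop :=
  ∀ (X Y : Dat) (hX : X.Split) (V : Vert X Y hX), Nonempty (AF X Y hX V.S.FF V.P)

/-! ### Block C: cocycles of root elements (abstract group theory) -/

/-- a map `χ : G → H` on a group with root elements `u l x` which satisfy a commutator formula -/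
structure RG (ι G H : Type) [Group G] [Group H] where
  u : ι → ℚ → G
  add : ∀ l x y, u l (x + y) = u l x * u l y
  L : ι → ι → List (ι × ℕ × ℕ × ℚ)
  pq : ∀ l l', ∀ t ∈ L l l', 1 ≤ t.2.1 ∧ 1 ≤ t.2.2.1
  ne : ∀ l l', l ≠ l' → ∀ t ∈ L l l', t.1 ≠ l ∧ t.1 ≠ l'
  nodup : ∀ l l', ((L l l').map fun t => t.1).Nodup
  com : ∀ l l', l ≠ l' → ∀ x y : ℚ, u l x * u l' y * (u l x)⁻¹ * (u l' y)⁻¹ =
    ((L l l').map fun t => u t.1 (t.2.2.2 * x ^ t.2.1 * y ^ t.2.2.1)).prod
  χ : G → H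

/-- the group generated by the root elements -/
def RG.Gam {ι G H : Type} [Group G] [Group H] (D : RG ι G H) : Subgroup G :=
  Subgroup.closure {g | ∃ (l : ι) (x : ℚ), g = D.u l x}

/-- the step of the root element `u l x` from the point `n` -/
def RG.V {ι G H : Type} [Group G] [Group H] (D : RG ι G H) (l : ι) (n : G) (x : ℚ) : H :=
  (D.χ n)⁻¹ * D.χ (n * D.u l x)

/-- the steps of `u l` are invariant under the other root elements -/
def RG.Inv {ι G H : Type} [Group G] [Group H] (D : RG ι G H) : Prop :=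
  ∀ l l', l ≠ l' → ∀ n ∈ D.Gam, ∀ x y : ℚ, D.V l (n * D.u l' y) x = D.V l n x

/-- **WAR** (easy-medium, no hypotheses).  An additive group which contains all `c x^p y^q` is everything.
Proof.  Take `y = 1`.  Claim: if `f` is a polynomial of degree `p ≥ 1` over `ℚ` and `f(x) ∈ A` for all `x ∈ ℚ`, then `A = ℚ`.  `p = 1`: `f(x) - f(0) = α x`, `α ≠ 0`, takes all values.  `p ≥ 2`: `f(x + 1) - f(x)` has degree `p - 1`.
(Or: the `(p-1)`-st forward difference of `x^p` is `p! x + const`, see `fwdDiff_iter_eq_sum_shift`.) -/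
def WarStmt : Prop :=
  ∀ (A : AddSubgroup ℚ) (c : ℚ) (p q : ℕ), c ≠ 0 → 1 ≤ p → 1 ≤ q →
    (∀ x y : ℚ, c * x ^ p * y ^ q ∈ A) → ∀ z : ℚ, z ∈ A

/-- **NSI** (medium, uses WAR).  For a factor `t` of a commutator formula (with `c ≠ 0`) the steps of `u t` do not depend on the point.
Proof.  Let `K` be the group generated by the `u m y`, `m ≠ t.1`.  For all `x`, `y` the commutator of `u l x` and `u l' y` is in `K` (`ne`); it is the product of the `u t' (...)`, `t' ∈ L l l'`, and by `nodup` all factors except the one of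
`t` are in `K`: so `u t.1 (c x^p y^q) ∈ K`.  The set `{z | u t.1 z ∈ K}` is an additive subgroup of `ℚ` (`add`), so it is everything (WAR).  The set `H₀` of the `g ∈ Γ` with `V t (n g) x = V t n x` for all `n ∈ Γ`, `x ∈ ℚ` is a
subgroup and contains the `u m y`, `m ≠ t.1` (`Inv`), so it contains `K`, so also the `u t.1 z`, so `Γ`.  Take `n = 1`. -/
def NsiStmt : Prop :=
  ∀ (ι G H : Type) [Group G] [Group H] (D : RG ι G H), D.Inv →
    ∀ l l', l ≠ l' → ∀ t ∈ D.L l l', t.2.2.2 ≠ 0 → ∀ n ∈ D.Gam, ∀ x : ℚ, D.V t.1 n x = D.V t.1 1 x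

/-- **CRL** (medium, uses NSI).  The commutator relation for the steps, at every point `n`.
Proof.  `V l (n) x * V l' (n u_l(x)) y = χ(n)⁻¹ χ(n u_l(x) u_l'(y))`, and `V l' (n u_l(x)) y = V l' n y` (`Inv`).  By `com`, `u_l(x) u_l'(y) = (∏_t u_t(z_t)) u_l'(y) u_l(x)`, `z_t = c_t x^p y^q`.  Along this path (induction on the
list) the value is `(∏_t V t (n_t) z_t) * V l' (n') y * V l (n' u_l'(y)) x` with `n_t, n' ∈ Γ`, `n' = n ∏_t u_t(z_t)`.  `V t (n_t) z_t = V t 1 z_t`: by NSI if `c_t ≠ 0`; if `c_t = 0`, both sides are `1` since `u t 0 = 1` (`add`).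
`V l' (n') y = V l' n y` and `V l (n' u_l'(y)) x = V l n x` by `Inv` (the `t.1` are different from `l`, `l'` by `ne`; induction on the list). -/
def CrlStmt : Prop :=
  ∀ (ι G H : Type) [Group G] [Group H] (D : RG ι G H), D.Inv →
    ∀ l l', l ≠ l' → ∀ n ∈ D.Gam, ∀ x y : ℚ,
      D.V l n x * D.V l' n y * (D.V l n x)⁻¹ * (D.V l' n y)⁻¹ =
      ((D.L l l').map fun t => D.V t.1 1 (t.2.2.2 * x ^ t.2.1 * y ^ t.2.2.1)).prod

/-- **CMR** (medium-strong, uses CRL).  The commutator relation for the powers of `D_l = V l 1 1`, natural exponents.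
Proof.  Write `R_(lm)(x,y)` for the right hand side of CRL.  Fix `l` and let `𝒢_l` be the subgroup of `H` generated by the `V m 1 y`, `m ≠ l`, `y ∈ ℚ`.  For `s ∈ ℕ` let `g_s = V l (u_l(s)) 1`.  CRL at the point `n = u_l(s)`, with
`V m (u_l(s)) y = V m 1 y` (`Inv`, `m ≠ l`): `g_s (V m 1 y) g_s⁻¹ = R_(lm)(1,y) V m 1 y`.  The right hand side is in `𝒢_l` (`ne`) and does not depend on `s`.  So conjugation by `g_s` maps `𝒢_l` to `𝒢_l` and on `𝒢_l` it is
equal to the conjugation by `g_0 = D_l` (`Subgroup.closure_induction`).  `V l 1 x = g_0 g_1 ⋯ g_(x-1)` for `x ∈ ℕ` (`u_l(s) u_l(1) = u_l(s+1)`, telescoping), so by induction on `x`: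
(*) `(V l 1 x) h (V l 1 x)⁻¹ = D_l^x h D_l^(-x)` for `h ∈ 𝒢_l`.
By (*) for `l` and `h = V l' 1 y ∈ 𝒢_l`, CRL at `n = 1` becomes `D_l^x (V l' 1 y) D_l^(-x) (V l' 1 y)⁻¹ = R_(ll')(x,y)`.  By (*) for `l'` and `h = D_l^(-x) ∈ 𝒢_(l')`:
`(V l' 1 y) D_l^(-x) (V l' 1 y)⁻¹ = D_l'^y D_l^(-x) D_l'^(-y)`. -/
def CmrStmt : Prop :=
  ∀ (ι G H : Type) [Group G] [Group H] (D : RG ι G H), D.Inv →
    ∀ l l', l ≠ l' → ∀ x y : ℕ,
      (D.V l 1 1) ^ x * (D.V l' 1 1) ^ y * ((D.V l 1 1) ^ x)⁻¹ * ((D.V l' 1 1) ^ y)⁻¹ =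
      ((D.L l l').map fun t => D.V t.1 1 (t.2.2.2 * (x : ℚ) ^ t.2.1 * (y : ℚ) ^ t.2.2.1)).prod

/-- **ROO** (medium, uses LGM of StmtsG).  Rational one parameter groups.
Proof.  Put `z x = mlog (f x)`, so `SU (z x)`, `f x = mexp (z x)` (LGM).  `mexp (k • z) = (mexp z)^k` for `k ∈ ℕ` (`mexp_add`, induction).  Let `x = a / N`, `N ≥ 1`, `a ∈ ℤ`.  `f(a/N)^N = f(a) = f(1)^a` (`f` is a homomorphism
`Multiplicative ℚ →* units`; `map_zpow`).  So `mexp (N • z(a/N)) = mexp (a • z(1))` (for `a < 0` use `(ue z)⁻¹ = ue (-z)`), and `N • z(a/N) = a • z(1)` by applying `mlog` (LGM); divide by `N` (real scalars). -/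
def RooStmt : Prop :=
  ∀ (R : Type) [CommRing R] [Algebra ℝ R] (m : ℕ) (f : ℚ → (Matrix (Fin m) (Fin m) R)ˣ),
    (∀ x y, f (x + y) = f x * f y) → (∀ x, UU (f x : Matrix (Fin m) (Fin m) R)) →
    ∀ x : ℚ, f x = ue ((x : ℝ) • mlog (f 1 : Matrix (Fin m) (Fin m) R))

/-! ### Block I: invariance and the brackets -/

/-- a functional which is `≥ 0` on a half space is a nonnegative multiple (proved) -/
theorem fks {V : Type} [AddCommGroup V] [Module ℝ V] (α w : V →ₗ[ℝ] ℝ) (h0 : ∃ a, 0 < α a)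
    (h : ∀ a, 0 ≤ α a → 0 ≤ w a) : ∃ κ : ℝ, 0 ≤ κ ∧ ∀ a, w a = κ * α a := by
  obtain ⟨a₀, ha₀⟩ := h0
  refine ⟨w a₀ / α a₀, div_nonneg (h a₀ ha₀.le) ha₀.le, fun a => ?_⟩
  have h1 : α (a - (α a / α a₀) • a₀) = 0 := by
    rw [map_sub, map_smul, smul_eq_mul, div_mul_cancel₀ _ ha₀.ne', sub_self]
  have h2 := h _ h1.ge
  have h3 := h (-(a - (α a / α a₀) • a₀)) (by rw [map_neg, h1, neg_zero])
  rw [map_neg] at h3
  have h4 : w (a - (α a / α a₀) • a₀) = 0 := le_antisymm (by linarith) h2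
  rw [map_sub, map_smul, smul_eq_mul, sub_eq_zero] at h4
  rw [h4]
  field_simp

theorem ue_add' {R : Type} [CommRing R] [Algebra ℝ R] {m : ℕ} {e : Matrix (Fin m) (Fin m) R}
    (he : SU e) (x y : ℝ) : ue ((x + y) • e) = ue (x • e) * ue (y • e) := by
  apply Units.ext
  rw [Units.val_mul, ue_val (he.smul _), ue_val (he.smul _), ue_val (he.smul _), add_smul]
  exact mexp_add (he.smul _) (he.smul _) (((Commute.refl e).smul_left x).smul_right y)

theorem Dat.Split.su_e {X : Dat} (hX : X.Split) (l : hX.ι) : SU (hX.e l) := by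
  apply X.su
  rw [← hX.span_e]
  exact Submodule.subset_span ⟨l, rfl⟩

theorem Dat.Split.t_ne {X : Dat} (hX : X.Split) (l l' : hX.ι) (h : l ≠ l') (t : hX.ι × ℕ × ℕ × ℚ)
    (ht : t ∈ hX.L l l') : t.1 ≠ l ∧ t.1 ≠ l' := by
  obtain ⟨hp, hq, hr⟩ := hX.L_rt l l' t ht
  have hp' : (t.2.1 : ℝ) ≠ 0 := by positivity
  have hq' : (t.2.2.1 : ℝ) ≠ 0 := by positivity
  have hr' : ∀ a, hX.rt t.1 a = (t.2.1 : ℝ) * hX.rt l a + (t.2.2.1 : ℝ) * hX.rt l' a := by
    intro a; rw [hr]; rfl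
  constructor
  · intro h1
    rw [h1] at hr'
    apply hX.nonprop l' l h.symm ((1 - (t.2.1 : ℝ)) / (t.2.2.1 : ℝ))
    apply LinearMap.ext
    intro a
    change _ = (1 - (t.2.1 : ℝ)) / (t.2.2.1 : ℝ) * hX.rt l a
    have h2 := hr' a
    field_simp
    linarith
  · intro h1
    rw [h1] at hr'
    apply hX.nonprop l l' h ((1 - (t.2.2.1 : ℝ)) / (t.2.1 : ℝ))
    apply LinearMap.ext
    intro a
    change _ = (1 - (t.2.2.1 : ℝ)) / (t.2.1 : ℝ) * hX.rt l' a
    have h2 := hr' a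
    field_simp
    linarith

/-- the abstract data of `AF` (proved) -/
noncomputable def AF.rg {X Y : Dat} {hX : X.Split} {F : Type} [Field F] [Algebra ℝ F]
    {P : X.b →ₗ[ℝ] (Fin Y.m → ℝ)} (A : AF X Y hX F P) :
    RG hX.ι (Matrix (Fin X.m) (Fin X.m) ℝ)ˣ (Matrix (Fin Y.m) (Fin Y.m) F)ˣ where
  u l x := ue ((x : ℝ) • hX.e l)
  add l x y := by
    rw [Rat.cast_add]; exact ue_add' (hX.su_e l) _ _
  L := hX.L
  pq l l' t ht := ⟨(hX.L_rt l l' t ht).1, (hX.L_rt l l' t ht).2.1⟩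
  ne l l' h t ht := hX.t_ne l l' h t ht
  nodup := hX.L_nodup
  com l l' h x y := by
    rw [hX.com l l' h]
    congr 1
    refine List.map_congr_left fun t _ => ?_
    push_cast
    rfl
  χ := A.χ

theorem AF.rg_Gam {X Y : Dat} {hX : X.Split} {F : Type} [Field F] [Algebra ℝ F]
    {P : X.b →ₗ[ℝ] (Fin Y.m → ℝ)} (A : AF X Y hX F P) : A.rg.Gam = hX.Gam := rfl

/-- **INA** (strong, uses FCP).  A homomorphism which separates the root elements `u l` from the others.
Proof.  Let `r i k` mean `0 ≤ w_ik(a)` for all `a ∈ dual {l, l'}` and `q i k` mean: `w_ik(a) = 0` for all `a` with `rt l a = 0`.  `r` is transitive.  Face property: let `r i j`, `r j k`.  `q i j`, `q j k` imply `q i k` (sum).  Conversely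
let `q i k` and `rt l a = 0`.  If `rt l' a ≥ 0`, then `a ∈ dual {l, l'}`, so `w_ij(a)`, `w_jk(a) ≥ 0` with sum `w_ik(a) = 0`: both are `0`.  If `rt l' a < 0`, apply this to `-a`.  FCP gives `G` and `π = kp q`.
All `V t n x = (χ n)⁻¹ χ (n u_t(x))` are unitriangular (`val`: they are `ue y`, and `mexp y - 1` is strictly upper triangular), and `supp` with `Ψ = {t}`, `z = x • e t` says that `V t n x i k ≠ 0`, `i < k`, implies that `w_ik ≥ 0` on
`{rt t ≥ 0}`, so by `fks` (`hX.pos`) `w_ik = κ rt t`, `κ ≥ 0`, and `κ ≠ 0` because `w_ik ≠ 0`.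
First claim (`t = l`): such an `(i,k)` satisfies `r i k` and `q i k`; so `V l n x ∈ G` and `kp q (V l n x) = V l n x`.
Second claim (`rt t = p rt l + p' rt l'` with `p ≥ 0`, `p' > 0`): `w_ik = κ rt t ≥ 0` on `dual {l, l'}`, so `r i k`; if `q i k`, then `rt t` vanishes on `ker (rt l)`, so `rt l'` vanishes on `ker (rt l)`, so `rt l' = c • rt l`
(`fks` for `rt l` and `rt l'`, or directly), which contradicts `nonprop`.  So `kp q (V t n x) = 1`. -/
def InaStmt : Prop :=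
  ∀ (X Y : Dat) (hX : X.Split) (F : Type) [Field F] [Algebra ℝ F]
    (P : X.b →ₗ[ℝ] (Fin Y.m → ℝ)) (A : AF X Y hX F P) (l l' : hX.ι), l ≠ l' →
    ∃ (G : Subgroup (Matrix (Fin Y.m) (Fin Y.m) F)ˣ) (π : G →* (Matrix (Fin Y.m) (Fin Y.m) F)ˣ),
      (∀ n ∈ hX.Gam, ∀ x : ℚ, ∃ h : A.rg.V l n x ∈ G, π ⟨_, h⟩ = A.rg.V l n x) ∧
      (∀ t : hX.ι, (∃ p p' : ℝ, 0 ≤ p ∧ 0 < p' ∧ hX.rt t = p • hX.rt l + p' • hX.rt l') →
        ∀ n ∈ hX.Gam, ∀ x : ℚ, ∃ h : A.rg.V t n x ∈ G, π ⟨_, h⟩ = 1)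

/-- **INV** (medium, uses INA).  The invariance of the steps.
Proof.  Let `D = A.rg`, `u = u_l(x)`, `w = u_l'(y)`, `N(a,b) = χ(a)⁻¹ χ(b)` and `G`, `π` from INA.  `V l (n w) x = N(n w, n w u) = N(n w, n) N(n, n u) N(n u, n w u)`.
`N(n w, n) = V l' (n w) (-y)`, `N(n, n u) = V l n x`.  By `com` for `-x`, `y`: `u⁻¹ w u = (∏_t u_t(z_t)) w`, `z_t = c_t (-x)^p y^q` (`u_l(-x) = u⁻¹`), so `n w u = n u (∏_t u_t(z_t)) w` and `N(n u, n w u)` is a product of
`V t (n_t) z_t`, `t ∈ L l l'`, and `V l' (n') y` with points `n_t, n' ∈ Γ` (induction on the list).  By INA all factors are in `G`; `π` is `1` on the factors of `t` and of `l'` (`rt t = p rt l + q rt l'`, `q ≥ 1`;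
`rt l' = 0 • rt l + 1 • rt l'`) and the identity on `V l n x` and on `V l (n w) x`.  Applying `π`: `V l (n w) x = V l n x`. -/
def InvStmt : Prop :=
  ∀ (X Y : Dat) (hX : X.Split) (F : Type) [Field F] [Algebra ℝ F]
    (P : X.b →ₗ[ℝ] (Fin Y.m → ℝ)) (A : AF X Y hX F P), A.rg.Inv

/-- the result of this file: images `C l` of the root vectors over `F` which satisfy the bracket relations -/
def GoodC (X Y : Dat) (hX : X.Split) (F : Type) [Field F] [Algebra ℝ F]
    (P : X.b →ₗ[ℝ] (Fin Y.m → ℝ)) (C : hX.ι → Matrix (Fin Y.m) (Fin Y.m) F) : Prop :=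
  (∀ l, C l ∈ Y.nF F) ∧ (∀ l, C l ≠ 0) ∧
  (∀ l i k, C l i k ≠ 0 → ∃ κ : ℝ, 0 < κ ∧ ∀ a, P a i - P a k = κ * hX.rt l a) ∧
  (∀ l l', l ≠ l' → C l * C l' - C l' * C l = hX.br C l l')

/-- **BRK** (medium-strong, uses LGM of StmtsG, NFL SPT INV NSI CMR ROO and COF of StmtsB).  The brackets over the residue field.
Proof.  Let `D = A.rg`, `D_l = V l 1 1`, `C l = mlog D_l`.
(1) `D_l = ue y` with `y ∈ n_F` (`val`), so `C l = y ∈ n_F` (NFL: `SU y`; LGM) and `D_l = ue (C l)`.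
(2) `D_l ≠ 1` (`nondeg`, `x = 1`), `ue 0 = 1`: so `C l ≠ 0`.
(3) Let `r i k` mean: there is `κ > 0` with `w_ik = κ rt l`; it is transitive.  By `supp` (`Ψ = {l}`) and `fks` (`hX.pos`) `D_l` is supported on `r` (`κ ≠ 0` since `w_ik ≠ 0`); so is `C l` (SPT; entries with `k ≤ i` of `C l`
vanish).
(4) Let `l ≠ l'`, `t ∈ L l l'`.  If `c_t ≠ 0`, then by NSI (with INV) `f x = V t 1 x` satisfies `f (x + y) = V t 1 x * V t (u_t(x)) y = f x * f y`, so by ROO `V t 1 z = ue (z • C t)`; if `c_t = 0` this holds for `z = 0` too (both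
sides are `1`).  `D_l^x = ue (x • C l)` (`ue_add'`, induction on `x`).  So CMR says that the hypothesis of COF (StmtsB) holds for `A = C l`, `B = C l'`, the family `C` and the list `L l l'` (cast `ℚ → ℝ`); its conclusion is
`C l * C l' - C l' * C l = hX.br C l l'`. -/
def BrkStmt : Prop :=
  ∀ (X Y : Dat) (hX : X.Split) (F : Type) [Field F] [Algebra ℝ F]
    (P : X.b →ₗ[ℝ] (Fin Y.m → ℝ)), AF X Y hX F P →
    ∃ C : hX.ι → Matrix (Fin Y.m) (Fin Y.m) F, GoodC X Y hX F P C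

/-- **VGC** (trivial, uses GAU BRK).  From the vertical flats to the brackets. -/
def VgcStmt : Prop :=
  ∀ (X Y : Dat) (hX : X.Split) (V : Vert X Y hX),
    ∃ C : hX.ι → Matrix (Fin Y.m) (Fin Y.m) V.S.FF, GoodC X Y hX V.S.FF V.P C

end Pool.Agent.QSX
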