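import Pool.Agent.QSX.StmtsG

/-!
# Squad QSX: pairs of symmetric spaces of complex groups

If `X` is the complexification of a split datum `X₀` (same `b`, `n = n₀ ⊗ ℂ`) and `Y` is a complex datum then
`X → Y × E` implies `X₀ → Y × E`, so there is an algebraic embedding `X₀ → Y`, and its complex linear extension is an
algebraic embedding `X → Y`.  So Q1 holds for all pairs of symmetric spaces of complex semisimple groups.
-/

set_option autoImplicit false

namespace Pool.Agent.QSX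

open Matrix Finset

/-- A complex datum: multiplication by `i` is a real matrix `J`, `J ^ 2 = -1`, which commutes with `n` and `b`,
and `J n ⊆ n` (so `n` is a complex Lie algebra of matrices). -/
structure Dat.Cpx (Y : Dat) where
  J : Matrix (Fin Y.m) (Fin Y.m) ℝ
  sq : J * J = -1
  comm_n : ∀ x ∈ Y.n, J * x = x * J
  comm_b : ∀ c ∈ Y.b, J * diagonal c = diagonal c * J
  stab_n : ∀ x ∈ Y.n, J * x ∈ Y.n

/-- `X` (complex, with complex structure `hX`) is the complexification of the datum `X₀`: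
`n_X = T n₀ ⊕ J T n₀` with an injective homomorphism `T` of real Lie algebras, `P : b₀ → b_X` bijective. -/
structure Dat.CpxOf (X X₀ : Dat) (hX : X.Cpx) where
  T : X₀.n →ₗ[ℝ] Matrix (Fin X.m) (Fin X.m) ℝ
  P : X₀.b →ₗ[ℝ] (Fin X.m → ℝ)
  T_mem : ∀ x, T x ∈ X.n
  P_mem : ∀ a, P a ∈ X.b
  P_inj : Function.Injective P
  P_surj : ∀ c ∈ X.b, ∃ a, P a = c
  T_lie : ∀ x y : X₀.n, T ⟨_, X₀.lie x x.2 y y.2⟩ = T x * T y - T y * T x
  T_ad : ∀ (a : X₀.b) (x : X₀.n), T ⟨_, X₀.stab a a.2 x x.2⟩ =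
    diagonal (P a) * T x - T x * diagonal (P a)
  /-- `(y, z) ↦ T y + J T z` is a bijection onto `n_X` -/
  dec : ∀ x ∈ X.n, ∃ y z : X₀.n, x = T y + hX.J * T z
  ind : ∀ y z : X₀.n, T y + hX.J * T z = 0 → y = 0 ∧ z = 0

/-- **QCM** (easy-medium).  Composition of quasi-isometric embeddings `X₀ → X → Y × E`.
Proof.  `pdist`, `dist ≥ 0`.  Constants `L L'` and `L' C / 1 + C' ...`: if `dA/L - C ≤ dB ≤ L dA + C` and
`dB/L' - C' ≤ dD ≤ L' dB + C'` then `dD ≤ L' L dA + L' C + C'`, `dD ≥ dA/(L L') - C/L' - C'`. -/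
def QcmStmt : Prop :=
  ∀ (A B D : Type) (dA : A → A → ℝ) (dB : B → B → ℝ) (dD : D → D → ℝ) (f : A → B) (g : B → D),
    QIE dA dB f → QIE dB dD g → QIE dA dD (fun x => g (f x))

/-- **CXE** (medium).  The complex linear extension of an algebraic embedding.
Proof.  Let `(T₁, P₁)` be an algebraic embedding `X₀ → Y`, `J_Y` the complex structure of `Y`.  Define `T (T₀ y + J T₀ z) = T₁ y + J_Y T₁ z` (well defined and linear by `dec`, `ind`; as a linear map: the linear equivalence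
`X₀.n × X₀.n ≃ X.n`).  Brackets: `[T₀ y + J T₀ z, T₀ y' + J T₀ z'] = T₀([y,y'] - [z,z']) + J T₀([y,z'] + [z,y'])` (`J` commutes with `n`, `J² = -1`), the same in `Y`.  `b`: `P = P₁ ∘ P₀⁻¹`; `J` commutes with the diagonals.
Injectivity of `T` (this uses that `X₀` is split): if `T₁ y + J_Y T₁ z = 0`: decompose `y = ∑ y_l e_l`, `z = ∑ z_l e_l` in root vectors; applying `ad (diag (P₁ a))` for `a` in `b₀` and comparing the weights (the roots are distinct
functionals, `nonprop` with `c = 1`; `T₁ e_l` has weight `rt l`, `J_Y T₁ e_l` too), `y_l T₁ e_l + z_l J_Y T₁ e_l = 0` for every `l`, i.e. `(y_l + z_l J_Y) T₁ e_l = 0`, multiply by `y_l - z_l J_Y`: `(y_l² + z_l²) T₁ e_l = 0`, and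
`T₁ e_l ≠ 0`, so `y_l = z_l = 0`. -/
def CxeStmt : Prop :=
  ∀ (X X₀ Y : Dat) (hX : X.Cpx), Nonempty (X.CpxOf X₀ hX) → Nonempty X₀.Split → Nonempty Y.Cpx →
    AlgEmb X₀ Y → AlgEmb X Y

/-- **CXR** (easy).  The real form embeds algebraically.
Proof.  `T`, `P` of `CpxOf`; `T` is injective by `ind` (with `z = 0`). -/
def CxrStmt : Prop :=
  ∀ (X X₀ : Dat) (hX : X.Cpx), Nonempty (X.CpxOf X₀ hX) → AlgEmb X₀ X

end Pool.Agent.QSX
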