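import Pool.Agent.QSX.StmtsG

/-!
# Squad QSX: algebraic embeddings are quasi-isometric, examples, positive definite matrices

One statement per row; every docstring contains a complete proof.  The definitions of this file
(block diagonal matrices, product data, `SL_n`) come with the basic lemmas, all proved.
-/

set_option autoImplicit false

namespace Pool.Agent.QSX

open Matrix Finset

/-! ### Block diagonal matrices -/

section bd

variable {R : Type} [CommRing R] {m m' : ℕ}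

/-- the block diagonal matrix with blocks `x` (size `m`) and `y` (size `m'`) -/
def bd (x : Matrix (Fin m) (Fin m) R) (y : Matrix (Fin m') (Fin m') R) :
    Matrix (Fin (m + m')) (Fin (m + m')) R :=
  (Matrix.fromBlocks x 0 0 y).submatrix finSumFinEquiv.symm finSumFinEquiv.symm

@[simp] theorem bd_cc (x : Matrix (Fin m) (Fin m) R) (y : Matrix (Fin m') (Fin m') R) (i j : Fin m) :
    bd x y (Fin.castAdd m' i) (Fin.castAdd m' j) = x i j := by simp [bd]

@[simp] theorem bd_nn (x : Matrix (Fin m) (Fin m) R) (y : Matrix (Fin m') (Fin m') R)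
    (i j : Fin m') : bd x y (Fin.natAdd m i) (Fin.natAdd m j) = y i j := by simp [bd]

@[simp] theorem bd_cn (x : Matrix (Fin m) (Fin m) R) (y : Matrix (Fin m') (Fin m') R)
    (i : Fin m) (j : Fin m') : bd x y (Fin.castAdd m' i) (Fin.natAdd m j) = 0 := by simp [bd]

@[simp] theorem bd_nc (x : Matrix (Fin m) (Fin m) R) (y : Matrix (Fin m') (Fin m') R)
    (i : Fin m') (j : Fin m) : bd x y (Fin.natAdd m i) (Fin.castAdd m' j) = 0 := by simp [bd]

omit [CommRing R] in
theorem bd_ext {z w : Matrix (Fin (m + m')) (Fin (m + m')) R}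
    (h1 : ∀ i j, z (Fin.castAdd m' i) (Fin.castAdd m' j) = w (Fin.castAdd m' i) (Fin.castAdd m' j))
    (h2 : ∀ i j, z (Fin.castAdd m' i) (Fin.natAdd m j) = w (Fin.castAdd m' i) (Fin.natAdd m j))
    (h3 : ∀ i j, z (Fin.natAdd m i) (Fin.castAdd m' j) = w (Fin.natAdd m i) (Fin.castAdd m' j))
    (h4 : ∀ i j, z (Fin.natAdd m i) (Fin.natAdd m j) = w (Fin.natAdd m i) (Fin.natAdd m j)) :
    z = w := by
  ext i j
  refine Fin.addCases (fun i => ?_) (fun i => ?_) i <;>
    refine Fin.addCases (fun j => ?_) (fun j => ?_) j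
  · exact h1 i j
  · exact h2 i j
  · exact h3 i j
  · exact h4 i j

theorem bd_inj {x x' : Matrix (Fin m) (Fin m) R} {y y' : Matrix (Fin m') (Fin m') R}
    (h : bd x y = bd x' y') : x = x' ∧ y = y' := by
  constructor
  · ext i j; rw [← bd_cc x y i j, h, bd_cc]
  · ext i j; rw [← bd_nn x y i j, h, bd_nn]

theorem bd_mul (x x' : Matrix (Fin m) (Fin m) R) (y y' : Matrix (Fin m') (Fin m') R) :
    bd x y * bd x' y' = bd (x * x') (y * y') := by
  rw [bd, bd, Matrix.submatrix_mul_equiv, Matrix.fromBlocks_multiply, bd]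
  simp

theorem bd_add (x x' : Matrix (Fin m) (Fin m) R) (y y' : Matrix (Fin m') (Fin m') R) :
    bd x y + bd x' y' = bd (x + x') (y + y') := by
  apply bd_ext <;> intro i j <;> simp [Matrix.add_apply]

theorem bd_sub (x x' : Matrix (Fin m) (Fin m) R) (y y' : Matrix (Fin m') (Fin m') R) :
    bd x y - bd x' y' = bd (x - x') (y - y') := by
  apply bd_ext <;> intro i j <;> simp [Matrix.sub_apply]

theorem bd_smul {S : Type} [SMulZeroClass S R] (c : S) (x : Matrix (Fin m) (Fin m) R)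
    (y : Matrix (Fin m') (Fin m') R) : c • bd x y = bd (c • x) (c • y) := by
  apply bd_ext <;> intro i j <;> simp [Matrix.smul_apply]

theorem bd_one : bd (1 : Matrix (Fin m) (Fin m) R) (1 : Matrix (Fin m') (Fin m') R) = 1 := by
  rw [bd, Matrix.fromBlocks_one, Matrix.submatrix_one_equiv]

theorem bd_zero : bd (0 : Matrix (Fin m) (Fin m) R) (0 : Matrix (Fin m') (Fin m') R) = 0 := by
  apply bd_ext <;> intro i j <;> simp

theorem bd_diagonal (c : Fin m → R) (c' : Fin m' → R) :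
    bd (diagonal c) (diagonal c') = diagonal (Fin.append c c') := by
  apply bd_ext <;> intro i j
  · rw [bd_cc]
    by_cases h : i = j
    · rw [h, diagonal_apply_eq, diagonal_apply_eq, Fin.append_left]
    · rw [diagonal_apply_ne _ h, diagonal_apply_ne]
      exact fun h' => h (Fin.castAdd_injective m m' h')
  · rw [bd_cn, diagonal_apply_ne]
    intro h'
    have := congrArg Fin.val h'
    simp only [Fin.val_castAdd, Fin.val_natAdd] at this
    omega
  · rw [bd_nc, diagonal_apply_ne]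
    intro h'
    have := congrArg Fin.val h'
    simp only [Fin.val_castAdd, Fin.val_natAdd] at this
    omega
  · rw [bd_nn]
    by_cases h : i = j
    · rw [h, diagonal_apply_eq, diagonal_apply_eq, Fin.append_right]
    · rw [diagonal_apply_ne _ h, diagonal_apply_ne]
      exact fun h' => h (Fin.natAdd_injective m' m h')

theorem SU_bd {x : Matrix (Fin m) (Fin m) R} {y : Matrix (Fin m') (Fin m') R} (hx : SU x)
    (hy : SU y) : SU (bd x y) := by
  intro i j
  refine Fin.addCases (fun i => ?_) (fun i => ?_) i <;>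
    refine Fin.addCases (fun j => ?_) (fun j => ?_) j <;> intro h
  · rw [bd_cc]; refine hx i j ?_; rw [Fin.le_def] at h ⊢; simpa using h
  · rw [bd_cn]
  · rw [bd_nc]
  · rw [bd_nn]; refine hy i j ?_; rw [Fin.le_def] at h ⊢; simpa using h

/-- block diagonal units -/
def bdU (g : (Matrix (Fin m) (Fin m) R)ˣ) (h : (Matrix (Fin m') (Fin m') R)ˣ) :
    (Matrix (Fin (m + m')) (Fin (m + m')) R)ˣ where
  val := bd (g : Matrix (Fin m) (Fin m) R) (h : Matrix (Fin m') (Fin m') R)
  inv := bd ((g⁻¹ : (Matrix (Fin m) (Fin m) R)ˣ) : Matrix (Fin m) (Fin m) R)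
    ((h⁻¹ : (Matrix (Fin m') (Fin m') R)ˣ) : Matrix (Fin m') (Fin m') R)
  val_inv := by rw [bd_mul, Units.mul_inv, Units.mul_inv, bd_one]
  inv_val := by rw [bd_mul, Units.inv_mul, Units.inv_mul, bd_one]

theorem bdU_mul (g g' : (Matrix (Fin m) (Fin m) R)ˣ) (h h' : (Matrix (Fin m') (Fin m') R)ˣ) :
    bdU g h * bdU g' h' = bdU (g * g') (h * h') := by
  apply Units.ext
  exact bd_mul _ _ _ _

theorem bdU_inv (g : (Matrix (Fin m) (Fin m) R)ˣ) (h : (Matrix (Fin m') (Fin m') R)ˣ) :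
    (bdU g h)⁻¹ = bdU g⁻¹ h⁻¹ := by
  apply Units.ext
  rfl

theorem bdU_inj {g g' : (Matrix (Fin m) (Fin m) R)ˣ} {h h' : (Matrix (Fin m') (Fin m') R)ˣ}
    (e : bdU g h = bdU g' h') : g = g' ∧ h = h' := by
  have := bd_inj (congrArg Units.val e)
  exact ⟨Units.ext this.1, Units.ext this.2⟩

end bd

/-- **EBD** (easy-medium).  Block diagonal matrices, exponentials and diagonal units.
Proof.  `mexp` of size `k` is a sum over `range (k + 1)`; the powers `x ^ j` with `j ≥ m` vanish (`SU.pow_eq_zero`), so for `x` the sum over `range (m + 1)` can be replaced by the sum over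
`range (m + m' + 1)`; the same for `y`; `(bd x y)^j = bd (x^j) (y^j)` (`bd_mul`, `bd_one`).  The second part: `bd_diagonal` and `exp ∘ append = append`. -/
def EbdStmt : Prop :=
  (∀ (R : Type) [CommRing R] [Algebra ℝ R] (m m' : ℕ) (x : Matrix (Fin m) (Fin m) R)
    (y : Matrix (Fin m') (Fin m') R), SU x → SU y →
    mexp (bd x y) = bd (mexp x) (mexp y) ∧ ue (bd x y) = bdU (ue x) (ue y)) ∧
  ∀ (m m' : ℕ) (c : Fin m → ℝ) (c' : Fin m' → ℝ), ud (Fin.append c c') = bdU (ud c) (ud c')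

/-- **EBN** (medium, uses LEN).  Norm and length of block diagonal matrices.
Proof.  Write a vector `v` of `EuclideanSpace ℝ (Fin (m + m'))` as `(v₁, v₂)`; `‖bd A B v‖² = ‖A v₁‖² + ‖B v₂‖² ≤ max² (‖v₁‖² + ‖v₂‖²)`, and equality of norms by the vectors `(v₁, 0)`, `(0, v₂)`
(`ContinuousLinearMap.opNorm_le_bound`, `le_opNorm`).  Length: `max (nrm g) (nrm g⁻¹) ≥ 1` if `m > 0` (LEN: `len g ≥ 0`; or `1 ≤ nrm g * nrm g⁻¹`), and it is `0` if `m = 0` (then `len g = 0`); `log` is monotone, so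
`log (max a b) = max (log a) (log b)` for `a, b ≥ 1` and for `a = 0`, `b ≥ 1` with `log a` replaced by `0 = len g`. -/
def EbnStmt : Prop :=
  ∀ (m m' : ℕ), (∀ (A : Matrix (Fin m) (Fin m) ℝ) (B : Matrix (Fin m') (Fin m') ℝ),
      nrm (bd A B) = max (nrm A) (nrm B)) ∧
    ∀ (g : (Matrix (Fin m) (Fin m) ℝ)ˣ) (h : (Matrix (Fin m') (Fin m') ℝ)ˣ),
      len (bdU g h) = max (len g) (len h)

/-! ### Algebraic embeddings are quasi-isometric embeddings -/

/-- the data of an algebraic embedding -/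
structure EmbData (X Y : Dat) where
  T : X.n →ₗ[ℝ] Matrix (Fin Y.m) (Fin Y.m) ℝ
  P : X.b →ₗ[ℝ] (Fin Y.m → ℝ)
  Tn : ∀ x, T x ∈ Y.n
  Pb : ∀ a, P a ∈ Y.b
  Tinj : Function.Injective T
  Pinj : Function.Injective P
  lie : ∀ x y : X.n, T ⟨_, X.lie x x.2 y y.2⟩ = T x * T y - T y * T x
  act : ∀ (a : X.b) (x : X.n), T ⟨_, X.stab a a.2 x x.2⟩ =
    diagonal (P a) * T x - T x * diagonal (P a)

theorem AlgEmb.data {X Y : Dat} (h : AlgEmb X Y) : Nonempty (EmbData X Y) := by
  obtain ⟨T, P, h1, h2, h3, h4, h5, h6⟩ := h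
  exact ⟨⟨T, P, h1, h2, h3, h4, h5, h6⟩⟩

/-- the map `(x, c) ↦ (T x, P c)` -/
def EmbData.map {X Y : Dat} (F : EmbData X Y) (p : X.Pt) : Y.Pt :=
  (⟨F.T p.1, F.Tn p.1⟩, ⟨F.P p.2, F.Pb p.2⟩)

/-- **EHM** (medium, uses EBD DFN).  The map is a homomorphism.
Proof.  Let `D` be the graph datum: `m = m_X + m_Y`, `n = {bd x (T x) : x ∈ X.n}`, `b = {append c (P c) : c ∈ X.b}`.  It is a `Dat`: `SU_bd`; brackets: `bd_mul`, `bd_sub`, `F.lie`; `stab`: `bd_diagonal`, `bd_mul`, `bd_sub`,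
`F.act`.  For `p = (x, c) ∈ X.Pt` let `p^ = (bd x (T x), append c (P c)) ∈ D.Pt`; by EBD `D.mat p^ = bdU (X.mat p) (Y.mat (F.map p))`.  DFN gives `r^ ∈ D.Pt` with `(D.mat p^)⁻¹ D.mat q^ = D.mat r^`; every point of
`D.Pt` is of the form `r^`; compare the blocks (`bdU_inv`, `bdU_mul`, `bdU_inj`). -/
def EhmStmt : Prop :=
  ∀ (X Y : Dat) (F : EmbData X Y) (p q : X.Pt), ∃ r : X.Pt,
    (X.mat p)⁻¹ * X.mat q = X.mat r ∧ (Y.mat (F.map p))⁻¹ * Y.mat (F.map q) = Y.mat (F.map r)

/-- **ENQ** (easy).  Comparison of norms.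
Proof.  An injective linear map between finite dimensional normed spaces is bounded above and below (`LinearMap.exists_antilipschitzWith`, `LinearMap.toContinuousLinearMap`), and `sz` and the sup norm of the entries are equivalent on
matrices (`|x i j| ≤ sz x ≤ m² max |x i j|`).  Take the maximum of the constants and `1`. -/
def EnqStmt : Prop :=
  ∀ (X Y : Dat) (F : EmbData X Y), ∃ k : ℝ, 1 ≤ k ∧
    (∀ x : X.n, sz (F.T x) ≤ k * sz (x : Matrix (Fin X.m) (Fin X.m) ℝ) ∧
      sz (x : Matrix (Fin X.m) (Fin X.m) ℝ) ≤ k * sz (F.T x)) ∧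
    ∀ c : X.b, ‖F.P c‖ ≤ k * ‖(c : Fin X.m → ℝ)‖ ∧ ‖(c : Fin X.m → ℝ)‖ ≤ k * ‖F.P c‖

/-- **EMB** (easy-medium, uses EHM ENQ PLN).  Algebraic embeddings are quasi-isometric embeddings.
Proof.  `f = F.map`.  By EHM `X.dist p q = len (X.mat r)` and `Y.dist (f p) (f q) = len (Y.mat (f r))` for some `r = (x, c)`.  Let `l = len (X.mat r)`, `l' = len (Y.mat (f r))`, `K`, `K'` the constants of PLN for `m_X`, `m_Y`, `k` of ENQ.
`l' ≤ ‖P c‖ + K' (log (1 + sz (T x)) + 1) ≤ k ‖c‖ + K' (log k + log (1 + sz x) + 1) ≤ k l + K' (log k + K (l + 1) + 1)` (`1 + k s ≤ k (1 + s)`), and in the same way `l ≤ k l' + K (log k + K' (l' + 1) + 1)`.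
So `L = k + K K'` + 1, `C = (K + K') (log k + K + K' + 1)` and so on (from `l ≤ L l' + C` one gets `l / L - C ≤ l'` since `L ≥ 1`).  Second part: `(f p, 0)`, `pdist = sqrt (dist ^ 2 + 0) = dist`, because `dist ≥ 0`
(`len g ≥ 0`: PLN (first inequality) for `g = mat r`). -/
def EmbStmt : Prop :=
  ∀ X Y : Dat, AlgEmb X Y → (∃ f : X.Pt → Y.Pt, QIE X.dist Y.dist f) ∧
    ∀ (E : Type) [NormedAddCommGroup E], ∃ f : X.Pt → Y.Pt × E, QIE X.dist (pdist Y E) f

/-! ### Products -/

/-- the product of two data (block diagonal matrices) -/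
def Dat.prod (X Y : Dat) : Dat where
  m := X.m + Y.m
  b := (X.b.comap (LinearMap.funLeft ℝ ℝ (Fin.castAdd Y.m))) ⊓
    (Y.b.comap (LinearMap.funLeft ℝ ℝ (Fin.natAdd X.m)))
  n :=
    { carrier := {z | ∃ x ∈ X.n, ∃ y ∈ Y.n, z = bd x y}
      add_mem' := by
        rintro _ _ ⟨x, hx, y, hy, rfl⟩ ⟨x', hx', y', hy', rfl⟩
        exact ⟨_, X.n.add_mem hx hx', _, Y.n.add_mem hy hy', bd_add _ _ _ _⟩
      zero_mem' := ⟨0, X.n.zero_mem, 0, Y.n.zero_mem, bd_zero.symm⟩
      smul_mem' := by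
        rintro c _ ⟨x, hx, y, hy, rfl⟩
        exact ⟨_, X.n.smul_mem c hx, _, Y.n.smul_mem c hy, bd_smul _ _ _⟩ }
  su := by
    rintro _ ⟨x, hx, y, hy, rfl⟩
    exact SU_bd (X.su x hx) (Y.su y hy)
  lie := by
    rintro _ ⟨x, hx, y, hy, rfl⟩ _ ⟨x', hx', y', hy', rfl⟩
    exact ⟨_, X.lie x hx x' hx', _, Y.lie y hy y' hy', by rw [bd_mul, bd_mul, bd_sub]⟩
  stab := by
    rintro c ⟨hc, hc'⟩ _ ⟨x, hx, y, hy, rfl⟩
    refine ⟨_, X.stab _ hc x hx, _, Y.stab _ hc' y hy, ?_⟩
    have h : c = Fin.append (LinearMap.funLeft ℝ ℝ (Fin.castAdd Y.m) c)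
        (LinearMap.funLeft ℝ ℝ (Fin.natAdd X.m) c) := by
      funext i
      refine Fin.addCases (fun i => ?_) (fun i => ?_) i
      · rw [Fin.append_left]; rfl
      · rw [Fin.append_right]; rfl
    conv_lhs => rw [h]
    rw [← bd_diagonal, bd_mul, bd_mul, bd_sub]

/-- **PRD** (medium, uses EBD EBN).  The space of a product datum is the product of the spaces, with the maximum distance (which is bilipschitz to the product distance).
Proof.  `φ (p, q) = (bd x y, append c d)` for `p = (x, c)`, `q = (y, d)`; bijective by `bd_inj` and `Fin.append`; `mat (φ (p, q)) = bdU (mat p) (mat q)` by EBD; `bdU_inv`, `bdU_mul`, EBN. -/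
def PrdStmt : Prop :=
  ∀ X Y : Dat, ∃ φ : X.Pt × Y.Pt → (X.prod Y).Pt, Function.Bijective φ ∧
    (∀ p, (X.prod Y).mat (φ p) = bdU (X.mat p.1) (Y.mat p.2)) ∧
    ∀ p q, (X.prod Y).dist (φ p) (φ q) = max (X.dist p.1 q.1) (Y.dist p.2 q.2)

/-- **PRS** (medium-strong, uses EBD).  Products of split data are split.
Proof.  `ι = ι₁ ⊕ ι₂`, `e (inl l) = bd (e l) 0`, `e (inr l) = bd 0 (e l)`, `rt (inl l) c = rt l (c restricted to the first block)`, `J = J₁ ⊕ J₂`, `comp = Sum.map`, `top` and `L` in the obvious way: `L (inl l) (inl l')` is the list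
`L l l'` with `t.1` replaced by `inl t.1`, `L` of two elements of different factors is `[]`.  `com`: for two elements of the first factor `ue (bd u 0) = bdU (ue u) 1` (EBD, `ue 0 = 1`), and `g ↦ bdU g 1` is a homomorphism (it commutes with
`List.prod`); different factors commute.  `nonprop`: for different factors take an element `(a, 0)` with `rt l a > 0` (`pos`) (this uses that `(a, 0)` belongs to the product `b`).  `scal`: `S = (S₁, S₂)` (compose with the projections and inclusions of the two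
factors of `b`).  `climb`, `sep`, `span_e`, `lin` (`LinearIndependent.inl_union_inr` or directly) factor by factor. -/
def PrsStmt : Prop :=
  ∀ X Y : Dat, Nonempty X.Split → Nonempty Y.Split → Nonempty (X.prod Y).Split

/-! ### The special linear group -/

/-- the datum of `SL_k(ℝ) / SO(k)`: all strictly upper triangular matrices, all vectors of sum 0 -/
def datSL (k : ℕ) : Dat where
  m := k
  b :=
    { carrier := {c | ∑ i, c i = 0}
      add_mem' := by
        intro c d hc hd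
        change ∑ i, (c i + d i) = 0
        rw [Finset.sum_add_distrib, show ∑ i, c i = 0 from hc, show ∑ i, d i = 0 from hd, add_zero]
      zero_mem' := Finset.sum_const_zero
      smul_mem' := by
        intro r c hc
        change ∑ i, r * c i = 0
        rw [← Finset.mul_sum, show ∑ i, c i = 0 from hc, mul_zero] }
  n :=
    { carrier := {x | SU x}
      add_mem' := fun hx hy => SU.add hx hy
      zero_mem' := SU.zero
      smul_mem' := fun c _ hx => SU.smul hx c }
  su := fun _ hx => hx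
  lie := fun _ hx _ hy => (SU.mul hx hy).sub (SU.mul hy hx)
  stab := by
    intro c _ x hx i j h
    rw [Matrix.sub_apply, Matrix.diagonal_mul, Matrix.mul_diagonal, hx i j h, mul_zero, zero_mul,
      sub_zero]

/-- **SLN** (medium).  The datum of `SL_k` is split.
Proof.  `ι = {(i, j) : i < j}`, `e (i,j) = single i j 1`, `rt (i,j) c = c_i - c_j`, positive at `c_i = (k-1)/2 - i`; `sep`: all `c_i` are equal and their sum is 0.  `nonprop`: if `c_i - c_j = r (c_p - c_q)` on the space of vectors of sum 0, apply it to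
`c = k ε_a - (1,...,1)` for all `a`: `δ_(ai) - δ_(aj) = r (δ_(ap) - δ_(aq))` for all `a`; `a = i`: `r δ_(ip) - r δ_(iq) = 1`, `a = j`: `r δ_(jp) - r δ_(jq) = -1`, so `{i,j} = {p,q}` and `i < j`, `p < q` give `(i,j) = (p,q)`.
`L (i,j) (p,q) = [((i,q),1,1,1)]` if `j = p`, `[((p,j),1,1,-1)]` if `q = i`, `[]` otherwise (the first two cases exclude each other).  `com`: `ue (x E_ij) = 1 + x E_ij` (`E_ij² = 0`), `E_ij E_jq = E_iq`, all other products of two of the
matrices vanish: `(1 + x E_ij)(1 + y E_jq)(1 - x E_ij)(1 - y E_jq) = 1 + x y E_iq`, `(1 + x E_ij)(1 + y E_pi)(1 - x E_ij)(1 - y E_pi) = 1 - x y E_pj`.  `J = Unit`, `top = (0, k-1)`.  `climb`: `(i,j)` with `j < k-1`: `l' = (j,k-1)`,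
bracket `E_(i,k-1)`; `j = k-1`, `i > 0`: `l' = (0,i)`, bracket `- E_(0,j)`.  `scal`: `S = κ • id`. -/
def SlnStmt : Prop := ∀ k : ℕ, 2 ≤ k → Nonempty (datSL k).Split

/-! ### Positive definite matrices -/

/-- the positive definite matrix `s sᵀ`, `s` the matrix of the point `p` -/
noncomputable def Dat.pos (D : Dat) (p : D.Pt) : Matrix (Fin D.m) (Fin D.m) ℝ :=
  (D.mat p : Matrix (Fin D.m) (Fin D.m) ℝ) * (D.mat p : Matrix (Fin D.m) (Fin D.m) ℝ)ᵀ

/-- **DST** (medium).  For the points `A = s sᵀ`, `B = t tᵀ` of the symmetric space of positive definite matrices, `2 len (s⁻¹ t)` is the least `r` with `e^(-r) A ≤ B ≤ e^r A` (the Thompson distance: the maximum of `|log λ|` over the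
eigenvalues `λ` of `A⁻¹ B`).
Proof.  `t tᵀ ≤ e^r s sᵀ` means `‖tᵀ v‖² ≤ e^r ‖sᵀ v‖²` for all `v`, i.e. (`w = sᵀ v`) `‖(s⁻¹ t)ᵀ w‖² ≤ e^r ‖w‖²` for all `w`, i.e. `nrm ((s⁻¹ t)ᵀ)² ≤ e^r`, and `nrm (gᵀ) = nrm g` (adjoint).  In the same way `e^(-r) s sᵀ ≤ t tᵀ` means
`nrm (t⁻¹ s)² ≤ e^r`.  Both together: `max (nrm g, nrm g⁻¹) ≤ e^(r/2)` for `g = s⁻¹ t`; take the logarithm (`nrm g > 0` as `m > 0`). -/
def DstStmt : Prop :=
  ∀ (m : ℕ), 0 < m → ∀ (s t : (Matrix (Fin m) (Fin m) ℝ)ˣ) (r : ℝ),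
    ((t : Matrix (Fin m) (Fin m) ℝ) * (t : Matrix (Fin m) (Fin m) ℝ)ᵀ -
        Real.exp (-r) • ((s : Matrix (Fin m) (Fin m) ℝ) * (s : Matrix (Fin m) (Fin m) ℝ)ᵀ)).PosSemidef ∧
      (Real.exp r • ((s : Matrix (Fin m) (Fin m) ℝ) * (s : Matrix (Fin m) (Fin m) ℝ)ᵀ) -
        (t : Matrix (Fin m) (Fin m) ℝ) * (t : Matrix (Fin m) (Fin m) ℝ)ᵀ).PosSemidef ↔
    2 * len (s⁻¹ * t) ≤ r

/-- **CHO** (medium-strong, uses LGM MIJ).  The points of `datSL k` are the positive definite matrices of determinant 1: `SL_k(ℝ) / SO(k)`.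
Proof.  Existence of an upper triangular `s` with positive diagonal and `A = s sᵀ` for every positive definite `A`, by induction on the size: `A = [[a, vᵀ], [v, A']]` (first row and column split off), `A'` is positive definite, `A' = s' s'ᵀ`,
`u = s'⁻¹ v`, `a - uᵀ u = a - vᵀ A'⁻¹ v > 0` (value of the form `A` at `(1, -A'⁻¹ v)`), `s = [[sqrt (a - uᵀ u), uᵀ], [0, s']]`.  Let `c_i = log s_ii`, `g = s diag (exp (-c))` unitriangular, `x = mlog g` (LGM): `s = mexp x * diag (exp c)`;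
`det A = exp (2 ∑ c_i) = 1` gives `∑ c_i = 0`.  Uniqueness: if `s sᵀ = t tᵀ` then `t⁻¹ s` is upper triangular with positive diagonal and orthogonal (`(t⁻¹ s)⁻¹ = (t⁻¹ s)ᵀ` is upper and lower triangular), so it is `1`; MIJ.
Positive definite: `s sᵀ` with `s` invertible; `det (mat p) = exp (∑ c_i) = 1`. -/
def ChoStmt : Prop :=
  ∀ k : ℕ, (∀ p : (datSL k).Pt, ((datSL k).pos p).PosDef ∧ ((datSL k).pos p).det = 1) ∧
    ∀ A : Matrix (Fin (datSL k).m) (Fin (datSL k).m) ℝ, A.PosDef → A.det = 1 →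
      ∃! p : (datSL k).Pt, (datSL k).pos p = A

end Pool.Agent.QSX
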