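import Pool.Agent.QSX.StmtsE

/-!
# Squad QSX: Chevalley's commutator formula is automatic; the classical split groups

One statement per row; every docstring contains a complete proof.
-/

set_option autoImplicit false

namespace Pool.Agent.QSX

open Matrix Finset

/-- **ACM** (easy).  Algebraic embeddings can be composed.
Proof.  `T'' x = T' ⟨T x, _⟩`, `P'' a = P' ⟨P a, _⟩` (`LinearMap.codRestrict`). -/
def AcmStmt : Prop := ∀ X Y Z : Dat, AlgEmb X Y → AlgEmb Y Z → AlgEmb X Z

/-! ### Data with rational root vectors -/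

/-- Split data, short form: `n` has a basis of rational root vectors, the roots are pairwise not
proportional, positive on an element of `b`, and separate the points of `b`; irreducible components
with a top root. -/
structure Dat.RSplit (X : Dat) where
  ι : Type
  fin : Fintype ι
  dec : DecidableEq ι
  e : ι → Matrix (Fin X.m) (Fin X.m) ℝ
  rat : ∀ l i j, ∃ q : ℚ, e l i j = (q : ℝ)
  span_e : Submodule.span ℝ (Set.range e) = X.n
  lin : LinearIndependent ℝ e
  rt : ι → X.b →ₗ[ℝ] ℝ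
  wt : ∀ l, ∀ c : X.b, diagonal (c : Fin X.m → ℝ) * e l - e l * diagonal (c : Fin X.m → ℝ) =
    rt l c • e l
  pos : ∃ a : X.b, ∀ l, 0 < rt l a
  sep : ∀ a : X.b, (∀ l, rt l a = 0) → a = 0
  nonprop : ∀ l l', l ≠ l' → ∀ c : ℝ, rt l ≠ c • rt l'
  J : Type
  comp : ι → J
  top : J → ι
  comp_top : ∀ l, comp (top (comp l)) = comp l
  climb : ∀ l, l ≠ top (comp l) → ∃ l', l' ≠ l ∧ e l * e l' - e l' * e l ≠ 0
  scal : ∀ κ : J → ℝ, (∀ j, 0 < κ j) → ∃ S : X.b →ₗ[ℝ] X.b, ∀ l a, rt l (S a) = κ (comp l) * rt l a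

attribute [instance] Dat.RSplit.fin Dat.RSplit.dec

/-- **CHA** (easy-medium).  A rational matrix in the real span of linearly independent rational matrices has rational coordinates.
Proof.  Let `e' l`, `w'` be the rational matrices.  `e'` is linearly independent over `ℚ`.  If `w'` were not in the `ℚ`-span of the `e' l`, then the family `(e', w')` would be linearly independent over `ℚ`, hence its image over `ℝ` would be linearly
independent over `ℝ` (rank of a rational matrix does not change: extend to a basis over `ℚ`, the change of basis matrix is invertible over `ℚ`, so over `ℝ`), contradiction.  So `w = ∑ q_l e_l`; compare coordinates over `ℝ`. -/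
def ChaStmt : Prop :=
  ∀ (m : ℕ) (ι : Type) [Fintype ι] (e : ι → Matrix (Fin m) (Fin m) ℝ) (w : Matrix (Fin m) (Fin m) ℝ)
    (c : ι → ℝ), LinearIndependent ℝ e → (∀ l i j, ∃ q : ℚ, e l i j = (q : ℝ)) →
    (∀ i j, ∃ q : ℚ, w i j = (q : ℝ)) → w = ∑ l, c l • e l → ∀ l, ∃ q : ℚ, c l = (q : ℝ)

/-- polynomials in two variables -/
abbrev R2 : Type := MvPolynomial (Fin 2) ℝ

/-- the value of a polynomial matrix at `(x, y)` -/
noncomputable def evM {m : ℕ} (x y : ℝ) (G : Matrix (Fin m) (Fin m) R2) :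
    Matrix (Fin m) (Fin m) ℝ := G.map (MvPolynomial.eval ![x, y])

/-- homogeneous polynomial families of elements of `exp n`, for a pair `(l, l')` of roots -/
structure Fam {X : Dat} (hX : X.RSplit) (l l' : hX.ι) (G : Matrix (Fin X.m) (Fin X.m) R2) : Prop where
  uu : UU G
  mem : ∀ x y, ∃ z ∈ X.n, evM x y G = mexp z
  hom : ∀ (a : X.b) (x y : ℝ), diagonal (fun i => Real.exp ((a : Fin X.m → ℝ) i)) * evM x y G *
    diagonal (fun i => Real.exp (-(a : Fin X.m → ℝ) i)) =
      evM (Real.exp (hX.rt l a) * x) (Real.exp (hX.rt l' a) * y) G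
  triv : ∀ x, evM x 0 G = 1 ∧ evM 0 x G = 1
  rat : ∀ i j, ∃ q : ℚ, evM 1 1 G i j = (q : ℝ)

/-- **CHB** (strong, uses CHA LGM).  The logarithm of a homogeneous family is a sum of monomials.
Proof.  `Z = mlog G` over `R2`; `evM x y Z = mlog (evM x y G)` (ring homomorphism) is in `n` (LGM: `mlog (mexp z) = z`).  Let `φ_t` be real linear functionals on the matrices with `φ_t (e_s) = δ_ts`, and `z_t = ∑_ij φ_t(E_ij) Z_ij ∈ R2`:
`evM x y Z = ∑_t z_t(x,y) e_t`.  By `wt` the nonzero entries `(i,j)` of `e_t` satisfy `a_i - a_j = rt t a`, so conjugation with `diag (exp a)` multiplies `e_t` by `exp (rt t a)`, and `mlog` commutes with conjugation: `hom` gives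
`z_t(exp(rt l a) x, exp(rt l' a) y) = exp(rt t a) z_t(x,y)` for all `x, y`; so (`MvPolynomial.funext`, coefficients) the coefficient `c_pq` of `z_t` satisfies `c_pq (exp((p rt l + q rt l')(a)) - exp(rt t a)) = 0` for all `a`: if `c_pq ≠ 0` then
`rt t = p rt l + q rt l'`.  `triv` and `mlog 1 = 0`: `z_t(x,0) = z_t(0,y) = 0`, so `c_pq ≠ 0` implies `p, q ≥ 1`.  `(p,q)` is unique: `rt l`, `rt l'` are linearly independent (`nonprop`, `rt l' ≠ 0` by `pos`).  So `z_t = c_t X^p Y^q` with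
`c_t = z_t(1,1)`, the coordinate of `mlog (evM 1 1 G)`, a rational matrix (`rat`; `mlog` has rational coefficients): CHA.  (`P t = (p, q)`, `c t = 0` and `P t` arbitrary if `z_t = 0`.) -/
def ChbStmt : Prop :=
  ∀ (X : Dat) (hX : X.RSplit) (l l' : hX.ι), l ≠ l' → ∀ G : Matrix (Fin X.m) (Fin X.m) R2,
    Fam hX l l' G → ∃ (c : hX.ι → ℚ) (P : hX.ι → ℕ × ℕ),
      (∀ t, c t ≠ 0 → 1 ≤ (P t).1 ∧ 1 ≤ (P t).2 ∧
        hX.rt t = ((P t).1 : ℝ) • hX.rt l + ((P t).2 : ℝ) • hX.rt l') ∧
      ∀ x y : ℝ, evM x y G = mexp (∑ t, (((c t : ℚ) : ℝ) * x ^ (P t).1 * y ^ (P t).2) • hX.e t)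

/-- **CHC** (medium, uses MCJ BCH LGM).  Homogeneous families: products, monomial factors, the commutator.
Proof.  (i) products: BCH for `mem` (`ue`), the rest entrywise (`evM` is multiplicative).  (ii) `G = mexp (c X^p Y^q e_t)` (over `R2`, `e_t` mapped to `R2`): `evM x y G = mexp (c x^p y^q e_t)`; `hom`: the nonzero entries `(i,j)` of `e_t` satisfy
`a_i - a_j = rt t a = p rt l a + q rt l' a`, so conjugation by `diag (exp a)` multiplies `e_t` by `exp (p rt l a + q rt l' a)`; `triv` because `p, q ≥ 1`; `rat`: `mexp` has rational coefficients.  (iii) the commutator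
`mexp (X e_l) mexp (Y e_l') mexp (-X e_l) mexp (-Y e_l')`: the same; `triv`: for `y = 0` it is `mexp (x e_l) mexp (- x e_l) = 1`. -/
def ChcStmt : Prop :=
  ∀ (X : Dat) (hX : X.RSplit) (l l' : hX.ι),
    (∀ G H : Matrix (Fin X.m) (Fin X.m) R2, Fam hX l l' G → Fam hX l l' H → Fam hX l l' (G * H)) ∧
    (∀ (t : hX.ι) (p q : ℕ) (c : ℚ), 1 ≤ p → 1 ≤ q →
      hX.rt t = (p : ℝ) • hX.rt l + (q : ℝ) • hX.rt l' →
      ∃ G, Fam hX l l' G ∧ ∀ x y : ℝ, evM x y G = mexp (((c : ℝ) * x ^ p * y ^ q) • hX.e t)) ∧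
    ∃ G, Fam hX l l' G ∧ ∀ x y : ℝ, evM x y G =
      mexp (x • hX.e l) * mexp (y • hX.e l') * mexp (-(x • hX.e l)) * mexp (-(y • hX.e l'))

/-- **CHK** (strong, uses BCH LGM).  Stripping the factors of lowest height, at one point.
Proof.  Say that a matrix `x` has weight `ρ : X.b → ℝ` if `(a_i - a_j - ρ(a)) x_ij = 0` for all `a`, `i`, `j`.  Let `W_K` be the span of the matrices of weight `p rt l + q rt l'`, `p, q ∈ ℕ`, `1 ≤ p`, `1 ≤ q`, `K ≤ p + q`.  Products: `W_K W_K' ⊆ W_(K+K')`, and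
`W_K ⊆ W_K'` for `K' ≤ K`.  `e_t ∈ W_(h t)` (`wt`), so `z ∈ W_K`, `mexp z ∈ 1 + z + W_(2K)`, and `∏ mexp (- z_t e_t) ∈ 1 - ∑_(t ∈ S) z_t e_t + W_(2K)` (`1 ≤ K`, so `2 K ≥ K + 1`).  The product is in `1 + W_(K+1)`, because `z - ∑_(t ∈ S) z_t e_t ∈ W_(K+1)`.
So `x = mlog (product) ∈ W_(K+1)`, and `x ∈ n` by BCH, LGM: `x = ∑ x_t e_t`.  The entries of weight `ρ` of `x` (the projection `part`-like map: keep the entries `(i,j)` with `a_i - a_j = ρ(a)` for all `a`) are `0` unless `ρ = p rt l + q rt l'` with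
`p, q ≥ 1`, `p + q ≥ K + 1`; for `ρ = rt t` they are `x_t e_t` (other roots are different from `rt t`: `nonprop` with `c = 1`).  So `x_t ≠ 0` implies `rt t = p rt l + q rt l'`, `p, q ≥ 1`, `p + q ≥ K + 1`. -/
def ChkStmt : Prop :=
  ∀ (X : Dat) (hX : X.RSplit) (l l' : hX.ι), l ≠ l' → ∀ (K : ℕ), 1 ≤ K →
    ∀ (z : hX.ι → ℝ) (h : hX.ι → ℕ), (∀ t, z t ≠ 0 → K ≤ h t ∧ ∃ p q : ℕ, 1 ≤ p ∧ 1 ≤ q ∧ p + q = h t ∧
      hX.rt t = (p : ℝ) • hX.rt l + (q : ℝ) • hX.rt l') →
    ∀ S : List hX.ι, S.Nodup → (∀ t, z t ≠ 0 → h t = K → t ∈ S) → (∀ t ∈ S, z t ≠ 0 ∧ h t = K) →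
    ∃ x : hX.ι → ℝ, mexp (∑ t, z t • hX.e t) * (S.map fun t => mexp (-(z t • hX.e t))).prod =
        mexp (∑ t, x t • hX.e t) ∧
      ∀ t, x t ≠ 0 → ∃ p q : ℕ, 1 ≤ p ∧ 1 ≤ q ∧ K + 1 ≤ p + q ∧
        hX.rt t = (p : ℝ) • hX.rt l + (q : ℝ) • hX.rt l'

/-- **CHD** (medium-strong, uses CHB CHC CHK LGM).  Every homogeneous family is a product of monomial factors.
Proof.  For `t` with `rt t = p rt l + q rt l'`, `p, q ≥ 1` (then `(p,q)` is unique, `h t = p + q`).  Let `H` be an upper bound of the `h t`.  Claim for `K ≥ 1`, by induction on `H + 1 - K`: a family `G` whose monomials (CHB) all have `h t ≥ K` is a product over a list with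
different `t`, all of height `≥ K`.  `K > H`: `G = 1`, empty list.  Step: `S` = a list of the `t` with `c t ≠ 0`, `h t = K`; `G' = G ∏_(t ∈ S) mexp (- c_t X^p Y^q e_t)` (CHC) is a homogeneous family, its monomials `c'_t X^p Y^q` (CHB) are all of height `≥ K + 1`:
evaluate at `(1,1)`, CHK gives `evM 1 1 G' = mexp (∑ x_t e_t)` with all heights `≥ K + 1`, and `c'_t = x_t` (LGM: `mlog`, and `lin`).  By induction `G'` is a product over a list `L'` with heights `≥ K + 1`; `G = G' ∏_(t ∈ reverse S) mexp (c_t X^p Y^q e_t)`. -/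
def ChdStmt : Prop :=
  ∀ (X : Dat) (hX : X.RSplit) (l l' : hX.ι), l ≠ l' → ∀ G : Matrix (Fin X.m) (Fin X.m) R2,
    Fam hX l l' G → ∃ L : List (hX.ι × ℕ × ℕ × ℚ),
      (∀ t ∈ L, 1 ≤ t.2.1 ∧ 1 ≤ t.2.2.1 ∧
        hX.rt t.1 = (t.2.1 : ℝ) • hX.rt l + (t.2.2.1 : ℝ) • hX.rt l') ∧
      (L.map fun t => t.1).Nodup ∧
      ∀ x y : ℝ, evM x y G =
        (L.map fun t => mexp (((t.2.2.2 : ℝ) * x ^ t.2.1 * y ^ t.2.2.1) • hX.e t.1)).prod

/-- **CHV** (medium, uses CHC CHD).  Chevalley's commutator formula is automatic.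
Proof.  CHC (iii) and CHD give the list for `l ≠ l'` (`L l l = []`); `ue` of the strictly upper triangular matrices `x • e l` is `mexp` (`ue_val`, `ue_inv_val`, `List.prod` of units).  `L_comp`: let `t` be in the list of `l`, `l'` and `κ : J → ℝ` positive, `S = scal κ`:
`κ(comp t) (p rt l + q rt l') = κ(comp l) p rt l + κ(comp l') q rt l'` (apply `rt t = p rt l + q rt l'` at `S a`), so by linear independence of `rt l`, `rt l'` (`nonprop`, `pos`) `κ(comp t) = κ(comp l) = κ(comp l')` for every positive `κ`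
(`κ = 2` at one component, `1` elsewhere): `comp t = comp l = comp l'`.  The other fields are the same. -/
def ChvStmt : Prop := ∀ X : Dat, Nonempty X.RSplit → Nonempty X.Split

/-! ### The classical groups -/

/-- The data of the orthogonal and symplectic groups: the form is antidiagonal with signs `s`;
`x (rev j) (rev i) = - s i * s j * x i j`, `c (rev i) = - c i`. -/
def datForm (m : ℕ) (s : Fin m → ℝ) (hs : ∀ i, s i * s i = 1) : Dat where
  m := m
  b :=
    { carrier := {c | ∀ i, c (Fin.rev i) = - c i}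
      add_mem' := by
        intro c d hc hd i
        rw [Pi.add_apply, Pi.add_apply, hc i, hd i, neg_add]
      zero_mem' := fun _ => neg_zero.symm
      smul_mem' := by
        intro r c hc i
        rw [Pi.smul_apply, Pi.smul_apply, hc i, smul_neg] }
  n :=
    { carrier := {x | SU x ∧ ∀ i j, x (Fin.rev j) (Fin.rev i) = - s i * s j * x i j}
      add_mem' := by
        intro x y hx hy
        refine ⟨hx.1.add hy.1, fun i j => ?_⟩
        rw [Matrix.add_apply, Matrix.add_apply, hx.2 i j, hy.2 i j]; ring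
      zero_mem' := ⟨SU.zero, fun i j => by simp⟩
      smul_mem' := by
        intro r x hx
        refine ⟨hx.1.smul r, fun i j => ?_⟩
        rw [Matrix.smul_apply, Matrix.smul_apply, hx.2 i j, smul_eq_mul, smul_eq_mul]; ring }
  su := fun _ hx => hx.1
  lie := by
    intro x hx y hy
    refine ⟨(hx.1.mul hy.1).sub (hy.1.mul hx.1), fun i j => ?_⟩
    have key : ∀ x y : Matrix (Fin m) (Fin m) ℝ,
        (∀ i j, x (Fin.rev j) (Fin.rev i) = - s i * s j * x i j) →
        (∀ i j, y (Fin.rev j) (Fin.rev i) = - s i * s j * y i j) →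
        (x * y) (Fin.rev j) (Fin.rev i) = s i * s j * (y * x) i j := by
      intro x y hx hy
      rw [Matrix.mul_apply, Matrix.mul_apply, Finset.mul_sum,
        ← Equiv.sum_comp Fin.revPerm]
      refine Finset.sum_congr rfl fun k _ => ?_
      rw [Fin.revPerm_apply, hx k j, hy i k]
      have := hs k
      linear_combination (s i * s j * x k j * y i k) * this
    rw [Matrix.sub_apply, Matrix.sub_apply, key x y hx.2 hy.2, key y x hy.2 hx.2]
    ring
  stab := by
    intro c hc x hx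
    refine ⟨fun i j h => ?_, fun i j => ?_⟩
    · rw [Matrix.sub_apply, Matrix.diagonal_mul, Matrix.mul_diagonal, hx.1 i j h, mul_zero,
        zero_mul, sub_zero]
    · rw [Matrix.sub_apply, Matrix.sub_apply, Matrix.diagonal_mul, Matrix.mul_diagonal,
        Matrix.diagonal_mul, Matrix.mul_diagonal, hx.2 i j, hc i, hc j]
      ring

/-- the datum of the split orthogonal group `SO(m/2, m/2)` or `SO((m-1)/2, (m+1)/2)` -/
def datSO (m : ℕ) : Dat := datForm m (fun _ => 1) (fun _ => one_mul 1)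

/-- the datum of the symplectic group `Sp_(2k)(ℝ)` -/
def datSP (k : ℕ) : Dat :=
  datForm (2 * k) (fun i => if (i : ℕ) < k then 1 else -1) (fun i => by split_ifs <;> norm_num)

/-- **SPN** (medium-strong).  The datum of the symplectic group is split.
Proof.  `m = 2 k`, `rev i = m - 1 - i`, `s i s (rev i) = -1`.  `ι = {(i,j) : i < j, i + j ≤ m - 1}`; `e (i,j) = E_(i,j) - s_i s_j E_(rev j, rev i)` if `i + j < m - 1`, `e (i, rev i) = E_(i, rev i)`; `rt (i,j) c = c_i - c_j`.  Every position `(i,j)` with `i < j` or its mirror image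
`(rev j, rev i)` satisfies `i + j ≤ m - 1`, and only the positions `(i, rev i)` are their own mirror images: so the `e` are a basis of `n` (`x = ∑ x_ij e (i,j)`).  `pos`, `sep`: `c_i = (m-1)/2 - i`; if all `c_i - c_j = 0` then `2 c_i = c_i - c_(rev i) = 0` for `i < k`.
`nonprop`: `i < k` always; with `c_i`, `i < k`, as coordinates of `b` the roots are `c_i - c_j` (`j < k`), `c_i + c_p` (`p = rev j`, `i < p < k`), `2 c_i`; apply both sides to the vectors `ε_p - ε_(rev p)`.  `J = Unit`, `top = (0, m-1)`.  `climb`: `l = (i,j)`, `i > 0`: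
`l' = (0,i)`, the entry `(0,j)` of `e l' e l - e l e l'` is `1`; `l = (0,j)`, `j < m - 1`: `l' = (0, rev j)`, the entry `(0, m-1)` of the bracket is `± 2`.  `scal`: `S = κ • id`. -/
def SpnStmt : Prop := ∀ k : ℕ, 1 ≤ k → Nonempty (datSP k).RSplit

/-- **SOM** (medium-strong).  The data of the split orthogonal groups are split (`m = 3` or `m ≥ 5`).
Proof.  `ι = {(i,j) : i < j, i + j < m - 1}`, `e (i,j) = E_(i,j) - E_(rev j, rev i)`, `rt (i,j) c = c_i - c_j` (the entries `(i, rev i)` of the elements of `n` vanish: `x = - x`).  Basis, `pos` as in SPN; `sep`: if all roots vanish at `c` then `c_0 = c_j` for `1 ≤ j ≤ m - 2`; `m = 3`: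
`c_0 = c_1 = 0`; `m ≥ 5`: `c_1 = c_(m-2) = - c_1`, so `c_1 = 0 = c_0` and all `c_j = 0`.  `nonprop`: with the coordinates `c_i`, `2 i + 1 < m`, the roots are `c_i - c_j` (`2 j + 1 < m`), `c_i + c_p` (`p = rev j > i`), and `c_i` (`j` the middle index, `m` odd).
`J = Unit`, `top = (0, m-2)`.  `climb`: `l = (i,j)`, `i > 0`: `l' = (0,i)`, the entry `(0,j)` of `e l' e l - e l e l'` is `1` (`j < m - 1`).  `l = (0,j)`, `2 ≤ j ≤ m - 3`: `l' = (1, rev j)`, the entry `(0, m-2)` of `e l e l' - e l' e l` is `-1`.  `l = (0,1)`, `m ≥ 5`: `l' = (1,2)`,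
the entry `(0,2)` of the bracket is `1`; for `m = 3` `(0,1)` is the top.  `scal`: `S = κ • id`. -/
def SomStmt : Prop := ∀ m : ℕ, (m = 3 ∨ 5 ≤ m) → Nonempty (datSO m).RSplit

end Pool.Agent.QSX
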