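import Mathlib

/-!
# Squad QSX (MP_dc0713_gt): quasi-isometric embeddings of split symmetric spaces

Definitions and basic lemmas (all proved).  Paper proof: note 3812 of the team database (helper10).
All rings are commutative `ℝ`-algebras; `m` is the size of the matrices.
-/

set_option autoImplicit false

namespace Pool.Agent.QSX

open Matrix Finset

/-! ### Unitriangular matrices, exponential and logarithm -/

section mat

variable {R : Type} [CommRing R] {m : ℕ}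

/-- strictly upper triangular -/
def SU (x : Matrix (Fin m) (Fin m) R) : Prop := ∀ i j, j ≤ i → x i j = 0

/-- upper unitriangular -/
def UU (g : Matrix (Fin m) (Fin m) R) : Prop := SU (g - 1)

/-- the exponential of a strictly upper triangular matrix -/
noncomputable def mexp [Algebra ℝ R] (x : Matrix (Fin m) (Fin m) R) : Matrix (Fin m) (Fin m) R :=
  ∑ k ∈ range (m + 1), ((k.factorial : ℝ)⁻¹) • x ^ k

/-- the logarithm of an upper unitriangular matrix (the summand `k = 0` is `0`) -/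
noncomputable def mlog [Algebra ℝ R] (g : Matrix (Fin m) (Fin m) R) : Matrix (Fin m) (Fin m) R :=
  ∑ k ∈ range (m + 1), ((-1 : ℝ) ^ (k + 1) / (k : ℝ)) • (g - 1) ^ k

theorem SU.add {x y : Matrix (Fin m) (Fin m) R} (hx : SU x) (hy : SU y) : SU (x + y) := by
  intro i j h; rw [Matrix.add_apply, hx i j h, hy i j h, add_zero]

theorem SU.neg {x : Matrix (Fin m) (Fin m) R} (hx : SU x) : SU (-x) := by
  intro i j h; rw [Matrix.neg_apply, hx i j h, neg_zero]

theorem SU.sub {x y : Matrix (Fin m) (Fin m) R} (hx : SU x) (hy : SU y) : SU (x - y) := by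
  intro i j h; rw [Matrix.sub_apply, hx i j h, hy i j h, sub_zero]

theorem SU.smul {S : Type} [SMulZeroClass S R] {x : Matrix (Fin m) (Fin m) R} (hx : SU x) (c : S) :
    SU (c • x) := by
  intro i j h; rw [Matrix.smul_apply, hx i j h, smul_zero]

theorem SU.mul {x y : Matrix (Fin m) (Fin m) R} (hx : SU x) (hy : SU y) : SU (x * y) := by
  intro i j h
  rw [Matrix.mul_apply]
  refine Finset.sum_eq_zero fun k _ => ?_
  rcases le_or_gt k i with hk | hk
  · rw [hx i k hk, zero_mul]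
  · rw [hy k j (h.trans hk.le), mul_zero]

theorem SU.pow_apply {x : Matrix (Fin m) (Fin m) R} (hx : SU x) (k : ℕ) (i j : Fin m)
    (h : (j : ℕ) < i + k) : (x ^ k) i j = 0 := by
  induction k generalizing i j with
  | zero =>
    rw [pow_zero, Matrix.one_apply_ne]
    intro hij; rw [hij] at h; omega
  | succ k ih =>
    rw [pow_succ, Matrix.mul_apply]
    refine Finset.sum_eq_zero fun l _ => ?_
    by_cases hl : (l : ℕ) < i + k
    · rw [ih i l hl, zero_mul]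
    · rw [hx l j (by rw [Fin.le_def]; omega), mul_zero]

theorem SU.pow_eq_zero {x : Matrix (Fin m) (Fin m) R} (hx : SU x) {k : ℕ} (hk : m ≤ k) :
    x ^ k = 0 := by
  ext i j
  rw [hx.pow_apply k i j (by omega), Matrix.zero_apply]

theorem SU.zero : SU (0 : Matrix (Fin m) (Fin m) R) := fun _ _ _ => rfl

variable [Algebra ℝ R]

theorem mexp_eq {x : Matrix (Fin m) (Fin m) R} (hx : SU x) :
    letI : Module ℚ (Matrix (Fin m) (Fin m) R) :=
      Module.compHom _ (algebraMap ℚ ℝ)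
    IsNilpotent.exp x = mexp x := by
  let _ : Module ℚ (Matrix (Fin m) (Fin m) R) := Module.compHom _ (algebraMap ℚ ℝ)
  rw [IsNilpotent.exp_eq_sum (k := m + 1) (hx.pow_eq_zero (Nat.le_succ m)), mexp]
  refine Finset.sum_congr rfl fun k _ => ?_
  change (algebraMap ℚ ℝ ((k.factorial : ℚ)⁻¹)) • x ^ k = _
  rw [map_inv₀, map_natCast]

/-- `exp (x + y) = exp x exp y` for commuting matrices -/
theorem mexp_add {x y : Matrix (Fin m) (Fin m) R} (hx : SU x) (hy : SU y) (h : Commute x y) :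
    mexp (x + y) = mexp x * mexp y := by
  let _ : Module ℚ (Matrix (Fin m) (Fin m) R) := Module.compHom _ (algebraMap ℚ ℝ)
  have h1 := IsNilpotent.exp_add_of_commute h ⟨m, hx.pow_eq_zero le_rfl⟩
    ⟨m, hy.pow_eq_zero le_rfl⟩
  rwa [mexp_eq hx, mexp_eq hy, mexp_eq (hx.add hy)] at h1

theorem mexp_zero : mexp (0 : Matrix (Fin m) (Fin m) R) = 1 := by
  let _ : Module ℚ (Matrix (Fin m) (Fin m) R) := Module.compHom _ (algebraMap ℚ ℝ)
  rw [← mexp_eq SU.zero, IsNilpotent.exp_zero]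

theorem mexp_mul_neg {x : Matrix (Fin m) (Fin m) R} (hx : SU x) : mexp x * mexp (-x) = 1 := by
  rw [← mexp_add hx hx.neg ((Commute.refl x).neg_right), add_neg_cancel, mexp_zero]

theorem mexp_neg_mul {x : Matrix (Fin m) (Fin m) R} (hx : SU x) : mexp (-x) * mexp x = 1 := by
  rw [← mexp_add hx.neg hx ((Commute.refl x).neg_left), neg_add_cancel, mexp_zero]

/-- the unit `exp x` (`1` if `x` is not strictly upper triangular) -/
noncomputable def ue (x : Matrix (Fin m) (Fin m) R) : (Matrix (Fin m) (Fin m) R)ˣ := by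
  classical
  exact if h : SU x then ⟨mexp x, mexp (-x), mexp_mul_neg h, mexp_neg_mul h⟩ else 1

theorem ue_val {x : Matrix (Fin m) (Fin m) R} (hx : SU x) :
    ((ue x : (Matrix (Fin m) (Fin m) R)ˣ) : Matrix (Fin m) (Fin m) R) = mexp x := by
  rw [ue, dif_pos hx]

theorem ue_inv_val {x : Matrix (Fin m) (Fin m) R} (hx : SU x) :
    (((ue x)⁻¹ : (Matrix (Fin m) (Fin m) R)ˣ) : Matrix (Fin m) (Fin m) R) = mexp (-x) := by
  rw [ue, dif_pos hx]; rfl

end mat

/-! ### Norm and distance -/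

section norm

variable {m : ℕ}

/-- the Euclidean operator norm -/
noncomputable def nrm (A : Matrix (Fin m) (Fin m) ℝ) : ℝ :=
  ‖Matrix.toEuclideanCLM (n := Fin m) (𝕜 := ℝ) A‖

/-- the length of an invertible matrix: `log max (‖g‖, ‖g⁻¹‖)` -/
noncomputable def len (g : (Matrix (Fin m) (Fin m) ℝ)ˣ) : ℝ :=
  Real.log (max (nrm (g : Matrix (Fin m) (Fin m) ℝ))
    (nrm ((g⁻¹ : (Matrix (Fin m) (Fin m) ℝ)ˣ) : Matrix (Fin m) (Fin m) ℝ)))

/-- the diagonal matrix with entries `exp (c i)` as a unit -/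
noncomputable def ud (c : Fin m → ℝ) : (Matrix (Fin m) (Fin m) ℝ)ˣ where
  val := diagonal fun i => Real.exp (c i)
  inv := diagonal fun i => Real.exp (-c i)
  val_inv := by
    rw [diagonal_mul_diagonal, ← diagonal_one]
    congr 1; funext i; rw [← Real.exp_add, add_neg_cancel, Real.exp_zero]
  inv_val := by
    rw [diagonal_mul_diagonal, ← diagonal_one]
    congr 1; funext i; rw [← Real.exp_add, neg_add_cancel, Real.exp_zero]

end norm

/-! ### The spaces -/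

/-- A datum: a linear space `b` of vectors (the logarithms of the diagonals) and a Lie algebra `n`
of strictly upper triangular matrices, normalised by the diagonal matrices of `b`. -/
structure Dat where
  m : ℕ
  b : Submodule ℝ (Fin m → ℝ)
  n : Submodule ℝ (Matrix (Fin m) (Fin m) ℝ)
  su : ∀ x ∈ n, SU x
  lie : ∀ x ∈ n, ∀ y ∈ n, x * y - y * x ∈ n
  stab : ∀ c ∈ b, ∀ x ∈ n, diagonal c * x - x * diagonal c ∈ n

/-- the points of the space of a datum: `(x, c)` stands for the matrix `exp x * diag (exp c)` -/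
def Dat.Pt (D : Dat) : Type := D.n × D.b

/-- the matrix `exp x * diag (exp c)` (an invertible matrix) of a point -/
noncomputable def Dat.mat (D : Dat) (p : D.Pt) : (Matrix (Fin D.m) (Fin D.m) ℝ)ˣ :=
  ue (p.1 : Matrix (Fin D.m) (Fin D.m) ℝ) * ud (p.2 : Fin D.m → ℝ)

/-- the distance `log max (‖g⁻¹ h‖, ‖h⁻¹ g‖)` -/
noncomputable def Dat.dist (D : Dat) (p q : D.Pt) : ℝ := len ((D.mat p)⁻¹ * D.mat q)

/-- the product distance on `Y × E` -/
noncomputable def pdist (D : Dat) (E : Type) [NormedAddCommGroup E] (p q : D.Pt × E) : ℝ :=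
  Real.sqrt (D.dist p.1 q.1 ^ 2 + ‖p.2 - q.2‖ ^ 2)

/-- quasi-isometric embedding -/
def QIE {A B : Type} (dA : A → A → ℝ) (dB : B → B → ℝ) (f : A → B) : Prop :=
  ∃ L C : ℝ, 1 ≤ L ∧ 0 ≤ C ∧ ∀ x y,
    dA x y / L - C ≤ dB (f x) (f y) ∧ dB (f x) (f y) ≤ L * dA x y + C

/-- `G` is the group of the matrices of the points of `D` -/
def Dat.IsGrp (D : Dat) (G : Subgroup (Matrix (Fin D.m) (Fin D.m) ℝ)ˣ) : Prop :=
  ∀ g, g ∈ G ↔ ∃ p : D.Pt, g = D.mat p

/-- Split data: `n` has a basis of root vectors, roots pairwise not proportional, positive on an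
element of `b`, Chevalley's commutator formula, irreducible components with a top root. -/
structure Dat.Split (X : Dat) where
  ι : Type
  fin : Fintype ι
  dec : DecidableEq ι
  e : ι → Matrix (Fin X.m) (Fin X.m) ℝ
  span_e : Submodule.span ℝ (Set.range e) = X.n
  lin : LinearIndependent ℝ e
  /-- the roots -/
  rt : ι → X.b →ₗ[ℝ] ℝ
  wt : ∀ l, ∀ c : X.b, diagonal (c : Fin X.m → ℝ) * e l - e l * diagonal (c : Fin X.m → ℝ) =
    rt l c • e l
  pos : ∃ a : X.b, ∀ l, 0 < rt l a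
  sep : ∀ a : X.b, (∀ l, rt l a = 0) → a = 0
  nonprop : ∀ l l', l ≠ l' → ∀ c : ℝ, rt l ≠ c • rt l'
  /-- the factors `(t, p, q, c)` of the commutator formula -/
  L : ι → ι → List (ι × ℕ × ℕ × ℚ)
  L_rt : ∀ l l', ∀ t ∈ L l l', 1 ≤ t.2.1 ∧ 1 ≤ t.2.2.1 ∧
    rt t.1 = (t.2.1 : ℝ) • rt l + (t.2.2.1 : ℝ) • rt l'
  L_nodup : ∀ l l', ((L l l').map fun t => t.1).Nodup
  com : ∀ l l', l ≠ l' → ∀ x y : ℝ,
    ue (x • e l) * ue (y • e l') * (ue (x • e l))⁻¹ * (ue (y • e l'))⁻¹ =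
    ((L l l').map fun t => ue (((t.2.2.2 : ℝ) * x ^ t.2.1 * y ^ t.2.2.1) • e t.1)).prod
  /-- the irreducible components -/
  J : Type
  comp : ι → J
  top : J → ι
  comp_top : ∀ l, comp (top (comp l)) = comp l
  L_comp : ∀ l l', ∀ t ∈ L l l', comp t.1 = comp l ∧ comp t.1 = comp l'
  climb : ∀ l, l ≠ top (comp l) → ∃ l', l' ≠ l ∧ e l * e l' - e l' * e l ≠ 0
  /-- `b` is the direct sum of the parts of the components -/
  scal : ∀ κ : J → ℝ, (∀ j, 0 < κ j) → ∃ S : X.b →ₗ[ℝ] X.b, ∀ l a, rt l (S a) = κ (comp l) * rt l a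

attribute [instance] Dat.Split.fin Dat.Split.dec

/-- the group generated by the root elements with rational parameters -/
def Dat.Split.Gam {X : Dat} (hX : X.Split) : Subgroup (Matrix (Fin X.m) (Fin X.m) ℝ)ˣ :=
  Subgroup.closure {g | ∃ (l : hX.ι) (x : ℚ), g = ue ((x : ℝ) • hX.e l)}

/-- the cone `Ψ* = {a : ν(a) ≥ 0 for all ν in Ψ}` -/
def Dat.Split.dual {X : Dat} (hX : X.Split) (Ψ : Set hX.ι) : Set X.b :=
  {a | ∀ ν ∈ Ψ, 0 ≤ hX.rt ν a}

/-- An algebraic embedding: an injective homomorphism of Lie algebras `n_X → n_Y` and an injective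
linear map `b_X → b_Y` compatible with the actions of `b_X` and `b_Y`. -/
def AlgEmb (X Y : Dat) : Prop :=
  ∃ (T : X.n →ₗ[ℝ] Matrix (Fin Y.m) (Fin Y.m) ℝ) (P : X.b →ₗ[ℝ] (Fin Y.m → ℝ)),
    (∀ x, T x ∈ Y.n) ∧ (∀ a, P a ∈ Y.b) ∧ Function.Injective T ∧ Function.Injective P ∧
    (∀ x y : X.n, T ⟨_, X.lie x x.2 y y.2⟩ = T x * T y - T y * T x) ∧
    (∀ (a : X.b) (x : X.n), T ⟨_, X.stab a a.2 x x.2⟩ =
      diagonal (P a) * T x - T x * diagonal (P a))

/-! ### Scales and residue fields -/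

/-- an ultrafilter on `ℕ` and a sequence `R → ∞` -/
structure Scale where
  ω : Ultrafilter ℕ
  R : ℕ → ℝ
  tend : Filter.Tendsto R (ω : Filter ℕ) Filter.atTop

namespace Scale

variable (S : Scale)

/-- sequences of moderate growth -/
def Md (z : ℕ → ℝ) : Prop :=
  ∀ ε > (0 : ℝ), ∀ᶠ s in (S.ω : Filter ℕ), |z s| ≤ Real.exp (ε * S.R s)

/-- exponentially small sequences -/
def Sm (z : ℕ → ℝ) : Prop :=
  ∃ c > (0 : ℝ), ∀ᶠ s in (S.ω : Filter ℕ), |z s| ≤ Real.exp (-(c * S.R s))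

theorem ev_R (C : ℝ) : ∀ᶠ s in (S.ω : Filter ℕ), C ≤ S.R s := S.tend.eventually_ge_atTop C

theorem Md.add {S : Scale} {z w : ℕ → ℝ} (hz : S.Md z) (hw : S.Md w) : S.Md (z + w) := by
  intro ε hε
  filter_upwards [hz (ε / 2) (by positivity), hw (ε / 2) (by positivity),
    S.ev_R (2 / ε * Real.log 2)] with s h1 h2 h3
  have h4 : Real.log 2 ≤ ε / 2 * S.R s := by
    have := mul_le_mul_of_nonneg_left h3 (by positivity : (0 : ℝ) ≤ ε / 2)
    calc Real.log 2 = ε / 2 * (2 / ε * Real.log 2) := by field_simp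
      _ ≤ _ := this
  have h5 : 2 ≤ Real.exp (ε / 2 * S.R s) := by
    rw [← Real.log_le_iff_le_exp (by norm_num)]; exact h4
  calc |(z + w) s| ≤ |z s| + |w s| := abs_add_le _ _
    _ ≤ Real.exp (ε / 2 * S.R s) + Real.exp (ε / 2 * S.R s) := add_le_add h1 h2
    _ = 2 * Real.exp (ε / 2 * S.R s) := by ring
    _ ≤ Real.exp (ε / 2 * S.R s) * Real.exp (ε / 2 * S.R s) := by
        exact mul_le_mul_of_nonneg_right h5 (Real.exp_pos _).le
    _ = Real.exp (ε * S.R s) := by rw [← Real.exp_add]; ring_nf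

theorem Md.mul {S : Scale} {z w : ℕ → ℝ} (hz : S.Md z) (hw : S.Md w) : S.Md (z * w) := by
  intro ε hε
  filter_upwards [hz (ε / 2) (by positivity), hw (ε / 2) (by positivity)] with s h1 h2
  calc |(z * w) s| = |z s| * |w s| := abs_mul _ _
    _ ≤ Real.exp (ε / 2 * S.R s) * Real.exp (ε / 2 * S.R s) :=
        mul_le_mul h1 h2 (abs_nonneg _) (Real.exp_pos _).le
    _ = Real.exp (ε * S.R s) := by rw [← Real.exp_add]; ring_nf

theorem Md.const (r : ℝ) : S.Md (fun _ => r) := by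
  intro ε hε
  filter_upwards [S.ev_R (1 / ε * Real.log (|r| + 1))] with s h3
  have h4 : Real.log (|r| + 1) ≤ ε * S.R s := by
    have := mul_le_mul_of_nonneg_left h3 hε.le
    calc Real.log (|r| + 1) = ε * (1 / ε * Real.log (|r| + 1)) := by field_simp
      _ ≤ _ := this
  have h5 : |r| + 1 ≤ Real.exp (ε * S.R s) := by
    rw [← Real.log_le_iff_le_exp (by positivity)]; exact h4
  linarith

theorem Sm.md {S : Scale} {z : ℕ → ℝ} (hz : S.Sm z) : S.Md z := by
  obtain ⟨c, hc, h⟩ := hz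
  intro ε hε
  filter_upwards [h, S.ev_R 0] with s h1 h2
  refine h1.trans (Real.exp_le_exp.2 ?_)
  nlinarith [mul_nonneg hc.le h2, mul_nonneg hε.le h2]

theorem Sm.add {S : Scale} {z w : ℕ → ℝ} (hz : S.Sm z) (hw : S.Sm w) : S.Sm (z + w) := by
  obtain ⟨c, hc, h⟩ := hz
  obtain ⟨c', hc', h'⟩ := hw
  obtain ⟨d, hd, hdc, hdc'⟩ : ∃ d > 0, d ≤ c ∧ d ≤ c' :=
    ⟨min c c', lt_min hc hc', min_le_left _ _, min_le_right _ _⟩
  refine ⟨d / 2, by positivity, ?_⟩
  filter_upwards [h, h', S.ev_R (2 / d * Real.log 2), S.ev_R 0] with s h1 h2 h3 h0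
  have h4 : Real.log 2 ≤ d / 2 * S.R s := by
    have := mul_le_mul_of_nonneg_left h3 (by positivity : (0 : ℝ) ≤ d / 2)
    calc Real.log 2 = d / 2 * (2 / d * Real.log 2) := by field_simp
      _ ≤ _ := this
  have h5 : 2 ≤ Real.exp (d / 2 * S.R s) := by
    rw [← Real.log_le_iff_le_exp (by norm_num)]; exact h4
  have h6 : |z s| ≤ Real.exp (-(d * S.R s)) :=
    h1.trans (Real.exp_le_exp.2 (by nlinarith [mul_nonneg (sub_nonneg.2 hdc) h0]))
  have h7 : |w s| ≤ Real.exp (-(d * S.R s)) :=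
    h2.trans (Real.exp_le_exp.2 (by nlinarith [mul_nonneg (sub_nonneg.2 hdc') h0]))
  calc |(z + w) s| ≤ |z s| + |w s| := abs_add_le _ _
    _ ≤ 2 * Real.exp (-(d * S.R s)) := by linarith
    _ ≤ Real.exp (d / 2 * S.R s) * Real.exp (-(d * S.R s)) :=
        mul_le_mul_of_nonneg_right h5 (Real.exp_pos _).le
    _ = Real.exp (-(d / 2 * S.R s)) := by rw [← Real.exp_add]; ring_nf

theorem Sm.mul_md {S : Scale} {z w : ℕ → ℝ} (hz : S.Md z) (hw : S.Sm w) : S.Sm (z * w) := by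
  obtain ⟨c, hc, h⟩ := hw
  refine ⟨c / 2, by positivity, ?_⟩
  filter_upwards [h, hz (c / 2) (by positivity)] with s h1 h2
  calc |(z * w) s| = |z s| * |w s| := abs_mul _ _
    _ ≤ Real.exp (c / 2 * S.R s) * Real.exp (-(c * S.R s)) :=
        mul_le_mul h2 h1 (abs_nonneg _) (Real.exp_pos _).le
    _ = Real.exp (-(c / 2 * S.R s)) := by rw [← Real.exp_add]; ring_nf

theorem Sm.zero : S.Sm 0 := ⟨1, one_pos, Filter.Eventually.of_forall fun s => by
  simp [Real.exp_nonneg]⟩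

/-- the ring of sequences of moderate growth -/
def OO : Subalgebra ℝ (ℕ → ℝ) where
  carrier := {z | S.Md z}
  mul_mem' h h' := Md.mul h h'
  add_mem' h h' := Md.add h h'
  algebraMap_mem' r := Md.const S r

/-- the ideal of exponentially small sequences -/
def mm : Ideal S.OO where
  carrier := {z | S.Sm (z : ℕ → ℝ)}
  add_mem' h h' := Sm.add h h'
  zero_mem' := Sm.zero S
  smul_mem' c _ h := Sm.mul_md c.2 h

/-- a moderate sequence which is not exponentially small has a moderate inverse -/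
theorem inv_md {z : ℕ → ℝ} (h : ¬ S.Sm z) : S.Md (fun s => (z s)⁻¹) := by
  intro ε hε
  have h1 : ¬ ∀ᶠ s in (S.ω : Filter ℕ), |z s| ≤ Real.exp (-(ε * S.R s)) :=
    fun h' => h ⟨ε, hε, h'⟩
  rw [← Ultrafilter.eventually_not] at h1
  filter_upwards [h1] with s hs
  push Not at hs
  rw [abs_inv, inv_le_comm₀ (lt_trans (Real.exp_pos _) hs) (Real.exp_pos _), ← Real.exp_neg]
  exact hs.le

theorem ne_zero_ev {z : ℕ → ℝ} (h : ¬ S.Sm z) : ∀ᶠ s in (S.ω : Filter ℕ), z s ≠ 0 := by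
  have h1 : ¬ ∀ᶠ s in (S.ω : Filter ℕ), |z s| ≤ Real.exp (-(1 * S.R s)) :=
    fun h' => h ⟨1, one_pos, h'⟩
  rw [← Ultrafilter.eventually_not] at h1
  filter_upwards [h1] with s hs h0
  apply hs
  rw [h0, abs_zero]
  exact (Real.exp_pos _).le

theorem one_not_sm : ¬ S.Sm 1 := by
  rintro ⟨c, hc, h⟩
  have := (h.and (S.ev_R 1)).exists
  obtain ⟨s, h1, h2⟩ := this
  simp only [Pi.one_apply, abs_one] at h1
  have h3 : Real.exp (-(c * S.R s)) < 1 := by
    rw [Real.exp_lt_one_iff]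
    nlinarith
  linarith

instance mm_isMaximal : S.mm.IsMaximal := by
  rw [Ideal.isMaximal_iff]
  refine ⟨fun h => S.one_not_sm h, ?_⟩
  intro I z hI hz hzI
  have hz' : ¬ S.Sm (z : ℕ → ℝ) := hz
  have h1 := S.inv_md hz'
  have h2 : z * ⟨_, h1⟩ ∈ I := I.mul_mem_right _ hzI
  have h3 : (1 : S.OO) - z * ⟨_, h1⟩ ∈ S.mm := by
    change S.Sm _
    refine ⟨1, one_pos, ?_⟩
    filter_upwards [S.ne_zero_ev hz'] with s hs
    change |1 - (z : ℕ → ℝ) s * ((z : ℕ → ℝ) s)⁻¹| ≤ _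
    rw [mul_inv_cancel₀ hs, sub_self, abs_zero]
    exact (Real.exp_pos _).le
  have h4 := I.add_mem (hI h3) h2
  rwa [sub_add_cancel] at h4

/-- the residue field -/
abbrev FF : Type := S.OO ⧸ S.mm

noncomputable instance : Field S.FF := Ideal.Quotient.field _

open Classical in
/-- the class of a moderate sequence (`0` for other sequences) -/
noncomputable def red (z : ℕ → ℝ) : S.FF :=
  if h : S.Md z then Ideal.Quotient.mk S.mm ⟨z, h⟩ else 0

/-- the class of a sequence of matrices -/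
noncomputable def redM {m : ℕ} (v : ℕ → Matrix (Fin m) (Fin m) ℝ) : Matrix (Fin m) (Fin m) S.FF :=
  fun i j => S.red fun s => v s i j

/-- all entries are moderate -/
def MdM {m : ℕ} (v : ℕ → Matrix (Fin m) (Fin m) ℝ) : Prop := ∀ i j, S.Md fun s => v s i j

/-- the class condition on a set `B` for one sequence of matrices:
`|v_il| ≤ exp (R (P_i(a) - P_l(a) + ε))` for all `a ∈ B` -/
def Cl {V : Type} {m : ℕ} (P : V → Fin m → ℝ) (B : Set V)
    (v : ℕ → Matrix (Fin m) (Fin m) ℝ) : Prop :=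
  ∀ ε > (0 : ℝ), ∀ᶠ s in (S.ω : Filter ℕ), ∀ a ∈ B, ∀ i l, i < l →
    |v s i l| ≤ Real.exp (S.R s * (P a i - P a l + ε))

/-- the class condition for a family of matrices depending on `a` -/
def Cls {V : Type} {m : ℕ} (P : V → Fin m → ℝ) (B : Set V)
    (g : ℕ → V → Matrix (Fin m) (Fin m) ℝ) : Prop :=
  ∀ ε > (0 : ℝ), ∀ᶠ s in (S.ω : Filter ℕ), ∀ a ∈ B, ∀ i l, i < l →
    |g s a i l| ≤ Real.exp (S.R s * (P a i - P a l + ε))

end Scale

/-! ### The interfaces -/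

/-- **The analytic output** (after differentiation and the near vertical lemma).
`ψ n s` is the vertical flat of `Y` near the image of the flat `n A` of `X`, at the scale `R s`. -/
structure Vert (X Y : Dat) (hX : X.Split) where
  S : Scale
  P : X.b →ₗ[ℝ] (Fin Y.m → ℝ)
  Pb : ∀ a, P a ∈ Y.b
  ψ : (Matrix (Fin X.m) (Fin X.m) ℝ)ˣ → ℕ → (Matrix (Fin Y.m) (Fin Y.m) ℝ)ˣ
  ψn : ∀ n ∈ hX.Gam, ∀ s, ∃ y ∈ Y.n, ψ n s = ue y
  near : ∀ n ∈ hX.Gam, ∀ n' ∈ hX.Gam, ∀ Ψ : Set hX.ι, ∀ z ∈ Submodule.span ℝ (hX.e '' Ψ),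
    n' = n * ue z → S.Cl P ({a | ‖a‖ ≤ 1} ∩ hX.dual Ψ)
      (fun s => (((ψ n s)⁻¹ * ψ n' s : (Matrix (Fin Y.m) (Fin Y.m) ℝ)ˣ) : Matrix _ _ ℝ))
  far : ∀ n ∈ hX.Gam, ∀ (l : hX.ι) (x : ℚ), x ≠ 0 → ∀ a : X.b, ‖a‖ ≤ 1 → hX.rt l a < 0 →
    ¬ S.Cl P {a} (fun s =>
      (((ψ n s)⁻¹ * ψ (n * ue ((x : ℝ) • hX.e l)) s : (Matrix (Fin Y.m) (Fin Y.m) ℝ)ˣ) :
        Matrix _ _ ℝ))

/-- the matrices over an `ℝ`-algebra `F` which are `F`-combinations of the elements of `n` -/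
noncomputable def Dat.nF (Y : Dat) (F : Type) [CommRing F] [Algebra ℝ F] :
    Submodule F (Matrix (Fin Y.m) (Fin Y.m) F) :=
  Submodule.span F ((fun y : Matrix (Fin Y.m) (Fin Y.m) ℝ => y.map (algebraMap ℝ F)) '' Y.n)

/-- the entries of weight `ρ` (for the weights `P_i - P_l`) of a matrix -/
noncomputable def part {V : Type} {m : ℕ} {F : Type} [Zero F] (P : V → Fin m → ℝ) (ρ : V → ℝ)
    (x : Matrix (Fin m) (Fin m) F) : Matrix (Fin m) (Fin m) F := by
  classical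
  exact fun i l => if ∀ a, P a i - P a l = ρ a then x i l else 0

/-- **The algebraic data over the residue field** (after the gauge fixing): `χ n`, `n ∈ Γ`, are
unitriangular matrices over `F`; `V(n, n') = χ(n)⁻¹ χ(n')`. -/
structure AF (X Y : Dat) (hX : X.Split) (F : Type) [Field F] [Algebra ℝ F]
    (P : X.b →ₗ[ℝ] (Fin Y.m → ℝ)) where
  χ : (Matrix (Fin X.m) (Fin X.m) ℝ)ˣ → (Matrix (Fin Y.m) (Fin Y.m) F)ˣ
  val : ∀ n ∈ hX.Gam, ∀ n' ∈ hX.Gam, ∃ y ∈ Y.nF F, (χ n)⁻¹ * χ n' = ue y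
  supp : ∀ n ∈ hX.Gam, ∀ n' ∈ hX.Gam, ∀ Ψ : Set hX.ι, ∀ z ∈ Submodule.span ℝ (hX.e '' Ψ),
    n' = n * ue z → ∀ i l, i < l →
      (((χ n)⁻¹ * χ n' : (Matrix (Fin Y.m) (Fin Y.m) F)ˣ) : Matrix _ _ F) i l ≠ 0 →
      (∀ a ∈ hX.dual Ψ, 0 ≤ P a i - P a l) ∧ ∃ a, P a i - P a l ≠ 0
  nondeg : ∀ n ∈ hX.Gam, ∀ (l : hX.ι) (x : ℚ), x ≠ 0 → (χ n)⁻¹ * χ (n * ue ((x : ℝ) • hX.e l)) ≠ 1

/-- the brackets of the basis (`L` of the datum): `∑ c_t C_t` over the factors `t` of the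
commutator formula of `l`, `l'` with `p = q = 1` -/
noncomputable def Dat.Split.br {X : Dat} (hX : X.Split) {M : Type} [AddCommGroup M] [Module ℝ M]
    (C : hX.ι → M) (l l' : hX.ι) : M :=
  (((hX.L l l').filter fun t => t.2.1 = 1 ∧ t.2.2.1 = 1).map fun t =>
    ((t.2.2.2 : ℚ) : ℝ) • C t.1).sum

end Pool.Agent.QSX
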