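import Pool.Agent.QSX.Defs

/-!
# Squad QSX, block M: invariant means and differentiation (section 1 of note 3812)

Everything in this file is abstract (no matrices, except `UtsStmt` and `MdxStmt`).
All groups are in `Type`.
-/

set_option autoImplicit false

namespace Pool.Agent.QSX

open Filter Topology

/-! ### Definitions -/

/-- approximately right invariant finite families exist on `G` -/
def HasFam (G : Type) [Group G] : Prop :=
  ∀ (H : Finset G) (δ : ℝ), 0 < δ → ∃ (N : ℕ) (p : Fin N → G), 0 < N ∧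
    ∀ h ∈ H, ∀ F : G → ℝ, (∀ g, |F g| ≤ 1) →
      |∑ i, F (p i * h) - ∑ i, F (p i)| ≤ δ * N

/-- a right invariant mean on the bounded real functions on the discrete group `G` -/
structure IsMean {G : Type} [Group G] (M : (G → ℝ) → ℝ) : Prop where
  add : ∀ f g : G → ℝ, (∃ C, ∀ x, |f x| ≤ C) → (∃ C, ∀ x, |g x| ≤ C) → M (f + g) = M f + M g
  smul : ∀ (c : ℝ) (f : G → ℝ), (∃ C, ∀ x, |f x| ≤ C) → M (c • f) = c * M f
  pos : ∀ f : G → ℝ, (∃ C, ∀ x, |f x| ≤ C) → (∀ x, 0 ≤ f x) → 0 ≤ M f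
  one : M (fun _ => 1) = 1
  inv : ∀ (f : G → ℝ) (u : G), (∃ C, ∀ x, |f x| ≤ C) → M (fun x => f (x * u)) = M f

/-- the bounded functions `G → V` -/
def BF (G V : Type) [NormedAddCommGroup V] [NormedSpace ℝ V] : Submodule ℝ (G → V) where
  carrier := {p | ∃ C : ℝ, ∀ x, ‖p x‖ ≤ C}
  add_mem' := by
    rintro p q ⟨C, hC⟩ ⟨D, hD⟩
    exact ⟨C + D, fun x => (norm_add_le _ _).trans (add_le_add (hC x) (hD x))⟩
  zero_mem' := ⟨0, fun x => by simp⟩
  smul_mem' := by
    rintro c p ⟨C, hC⟩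
    exact ⟨‖c‖ * C, fun x => by
      rw [Pi.smul_apply, norm_smul]; exact mul_le_mul_of_nonneg_left (hC x) (norm_nonneg c)⟩

/-- right translation of bounded functions: `(shift u p) x = p (x u)` -/
def shift {G V : Type} [Group G] [NormedAddCommGroup V] [NormedSpace ℝ V] (u : G) :
    BF G V →ₗ[ℝ] BF G V where
  toFun p := ⟨fun x => (p : G → V) (x * u), by
    obtain ⟨C, hC⟩ := p.2
    exact ⟨C, fun x => hC _⟩⟩
  map_add' _ _ := rfl
  map_smul' _ _ := rfl

theorem shift_apply {G V : Type} [Group G] [NormedAddCommGroup V] [NormedSpace ℝ V] (u : G)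
    (p : BF G V) (x : G) : (shift u p : G → V) x = (p : G → V) (x * u) := rfl

/-! ### Means -/

/-- **FCM** (uses: none).  Commutative groups have approximately invariant families.

PROOF.  This is `Pool.Agent.H18FC.ab_aux` (file `Pool/Agent/Helper18_FC/Foelner.lean`, landed) with
`P := fun _ => True`; reindex the finite type by `Fin N` (`Fintype.equivFin`).  Or directly, by
induction on `H`: for `insert a H` take the family `p_i a ^ n`, `n < k`, with `2 / k ≤ δ`: for `h = a`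
the sum over `n` telescopes (error `≤ 2` for each `i`), for `h ∈ H` use the induction hypothesis for
the functions `F (· a ^ n)` (commutativity). -/
def FcmStmt : Prop := ∀ (G : Type) [CommGroup G], HasFam G

/-- **FEX** (uses: none).  Extensions: if `φ : G → Q` is surjective and `Q` and `ker φ` have
approximately invariant families, so has `G`.

PROOF.  Let `σ : Q → G` be a section (`Function.surjInv`), `φ (σ q) = q`.  Given `H`, `δ`, take a
family `q_1 .. q_N` of `Q` for `φ(H)` and `δ / 2`.  For `i` and `h ∈ H` let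
`c_(i,h) := σ(q_i) h σ(q_i φ(h))⁻¹ ∈ ker φ`, and take a family `k_1 .. k_N'` of `ker φ` for the finite
set of the `c_(i,h)` and `δ / 2`.  The family is `k_j σ(q_i)` (index `Fin (N * N')` through
`finProdFinEquiv`).  For `|F| ≤ 1`: `k_j σ(q_i) h = k_j c_(i,h) σ(q_i φ(h))`, so for fixed `i`
`|∑_j F(k_j σ(q_i) h) - ∑_j F(k_j σ(q_i φ(h)))| ≤ (δ/2) N'` (the family of the kernel applied to the
function `k ↦ F(k σ(q_i φ(h)))`), sum over `i`: `(δ/2) N N'`.  And with
`F'(q) := (1/N') ∑_j F(k_j σ(q))`, `|F'| ≤ 1`: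
`|∑_(i,j) F(k_j σ(q_i φ(h))) - ∑_(i,j) F(k_j σ(q_i))| = N' |∑_i F'(q_i φ(h)) - ∑_i F'(q_i)| ≤
N' (δ/2) N`.  QED -/
def FexStmt : Prop := ∀ (G Q : Type) [Group G] [Group Q] (φ : G →* Q), Function.Surjective φ →
  HasFam Q → HasFam φ.ker → HasFam G

/-- **FSV** (uses: FCM, FEX).  Solvable groups have approximately invariant families.

PROOF.  `IsSolvable G` gives `derivedSeries G n = ⊥`; induction on `n` for all `G : Type`.
`n = 0`: `G` is trivial (`⊤ = ⊥`), take the family with one element.  Step: apply FEX to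
`Abelianization.of : G → Abelianization G` (surjective, kernel = commutator subgroup, `FCM` for the
commutative group `Abelianization G`); the kernel `K` (as a type) satisfies
`derivedSeries K n = ⊥`.  (Alternatively use the induction principle `solvable_induction`-like lemmas of
Mathlib, or `IsSolvable` of subgroups and `isSolvable_def`, or the chain of derived subgroups: prove
`HasFam (derivedSeries G k)` by downward induction on `k`, the map
`derivedSeries G k → Abelianization (derivedSeries G k)` has kernel isomorphic to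
`derivedSeries G (k+1)`; `HasFam` is invariant under isomorphisms.) -/
def FsvStmt : Prop := FcmStmt → FexStmt → ∀ (G : Type) [Group G], Group.IsSolvable G → HasFam G

/-- **MEA** (uses: none).  From families to a right invariant mean.

PROOF.  Index set `I = Finset G × ℕ` (directed, nonempty), `U := Ultrafilter.of atTop`.  For
`i = (H, n)` let `p_i` be the family for `H` and `δ = 1/(n+1)`, `A_i f := (∑_j f(p_(i,j))) / N_i`.
For `|f| ≤ C` all `A_i f` lie in `[-C, C]` (compact), so `A_i f` converges along `U`; put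
`M f := limUnder U (fun i => A_i f)` (`tendsto_nhds_limUnder`).  Then `M` is additive and homogeneous on
bounded functions (limits of sums), positive (`ge_of_tendsto`), `M 1 = 1` (`N_i > 0`), and
`|A_i (f(· u)) - A_i f| ≤ C/(n+1)` as soon as `u ∈ H` (apply the family property to `f / C`, `C > 0`),
so `M (f(· u)) = M f`. -/
def MeaStmt : Prop := ∀ (G : Type) [Group G], HasFam G → ∃ M : (G → ℝ) → ℝ, IsMean M

/-- **UTS** (uses: none).  Groups of upper triangular matrices are solvable.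

PROOF.  For `k : ℕ` let `D k` be the set of the `g ∈ G` with `(g - 1) i j = 0` whenever `j < i + k`
(as natural numbers) and `g` upper triangular; `D 0 = G`, `D m = {1}`.  `D k` is a subgroup:
`gh - 1 = (g-1)h + (h-1)`, `g⁻¹ - 1 = -g⁻¹(g-1)`, and multiplication by an upper triangular matrix
preserves the vanishing for `j < i + k`.  Commutators: for `g, h ∈ D k`,
`g h g⁻¹ h⁻¹ - 1 = (gh - hg) g⁻¹ h⁻¹` and `gh - hg = (g-1)(h-1) - (h-1)(g-1)` vanishes for
`j < i + 2k`; for `k ≥ 1` this is `j < i + (k+1)`; for `k = 0` the diagonal entries of `gh - hg` are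
`g_ii h_ii - h_ii g_ii = 0`.  So `⁅D k, D k⁆ ≤ D (k+1)` and `derivedSeries G k ≤ D k` by induction, hence
`derivedSeries G m = ⊥`.  (Work in the group `G` itself, `G : Subgroup _` coerced to a type.) -/
def UtsStmt : Prop := ∀ (m : ℕ) (G : Subgroup (Matrix (Fin m) (Fin m) ℝ)ˣ),
  (∀ g ∈ G, ∀ i j, j < i → (g : Matrix (Fin m) (Fin m) ℝ) i j = 0) → Group.IsSolvable G

/-- **MDX** (uses: FSV, MEA, UTS, FCM, FEX).  The group of a datum has a right invariant mean.

PROOF.  The matrix of a point is `mexp x * diagonal (exp c)`, upper triangular because `x` is strictly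
upper triangular (`X.su`, `SU.pow_apply`, `mexp` is a sum of powers); so `G` is solvable by UTS, has
families by FSV and a mean by MEA. -/
def MdxStmt : Prop := FsvStmt → MeaStmt → UtsStmt → FcmStmt → FexStmt →
  ∀ (X : Dat) (G : Subgroup (Matrix (Fin X.m) (Fin X.m) ℝ)ˣ), X.IsGrp G →
    ∃ M : (G → ℝ) → ℝ, IsMean M

/-! ### The Hilbert space and the ergodic theorem -/

/-- **HIL** (uses: none).  The Hilbert space of bounded functions with the norm of the mean.

PROOF.  On `BF G V` put `⟪p, q⟫ := M (fun x => ⟪p x, q x⟫)` (bounded by Cauchy-Schwarz; `M` is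
additive, homogeneous and positive on bounded functions): a `PreInnerProductSpace.Core ℝ (BF G V)`, so
`BF G V` is a seminormed group and a (semi) inner product space; `Hs` := its completion
(`UniformSpace.Completion`, instances exist), `j` := the canonical map `BF G V → Hs` (linear),
`‖j p‖ ^ 2 = ⟪p, p⟫ = M (‖p x‖ ^ 2)`.  `shift u` preserves the inner product (right invariance of `M`),
so it is a linear isometry of `BF G V` and extends to the completion
(`LinearIsometry`: `UniformSpace.Completion.map`, or `LinearMap.toContinuousLinearMap` extended by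
density; `ContinuousLinearMap.extend`).  To avoid instance problems put the structure on a type
synonym of `BF G V`. -/
def HilStmt : Prop := ∀ (G : Type) [Group G] (M : (G → ℝ) → ℝ), IsMean M →
  ∀ (V : Type) [NormedAddCommGroup V] [InnerProductSpace ℝ V],
    ∃ (Hs : Type) (_ : NormedAddCommGroup Hs) (_ : InnerProductSpace ℝ Hs) (_ : CompleteSpace Hs)
      (j : BF G V →ₗ[ℝ] Hs) (R : G → Hs →ₗᵢ[ℝ] Hs),
      (∀ p : BF G V, ‖j p‖ ^ 2 = M (fun x => ‖(p : G → V) x‖ ^ 2)) ∧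
      (∀ (u : G) (p : BF G V), R u (j p) = j (shift u p)) ∧
      ∀ (u v : G) (z : Hs), R (u * v) z = R u (R v z)

/-- **ERG** (uses: none).  Linear growth of a cocycle along commuting translations.  `Hs` is a real
Hilbert space, `R u` are linear isometries, `R (u v) = R u R v`, `b (u v) = b u + R u (b v)`; `A` is
additive.  The limits `P a` of `b (A (j a)) / j` exist, are linear in `a` and invariant under all
`R (A a')`, and `‖P a‖ ≤ K ‖a‖`.

PROOF.  `A (j • a) = A a ^ j`, `R (A a ^ i) = (R (A a))^[i]`, so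
`b (A (j • a)) = ∑_(i<j) (R (A a))^[i] (b (A a))` (induction; `b 1 = 0`).  Mean ergodic theorem
(`ContinuousLinearMap.tendsto_birkhoffAverage_orthogonalProjection`, `‖R (A a)‖ ≤ 1`): the averages
converge, call the limit `P a`.
(i) For commuting `u`, `v`: `b u + R u (b v) = b v + R v (b u)`, so
`R u (b v) - b v = R v (b u) - b u`.  With `u = A a'`, `v = A (j • a)`: `‖R u (b v) - b v‖ ≤ 2 ‖b u‖`
for all `j`; divide by `j`: `R (A a') (P a) = P a`.
(ii) `b (A (j • (a + a'))) = b (A (j • a)) + R (A (j • a)) (b (A (j • a')))`; divide by `j`: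
`(1/j) R (A (j a)) (b (A (j a'))) = R (A (j a)) ((1/j) b (A (j a')) - P a') + P a'` by (i), the first
summand has norm `→ 0`.  So `P` is additive.
(iii) `‖P a‖ ≤ K ‖a‖` since `‖b (A (j • a))‖ / j ≤ (K j ‖a‖ + C) / j`.  An additive map with this
bound is continuous, hence linear over `ℝ` (`AddMonoidHom.toRealLinearMap`). -/
def ErgStmt : Prop := ∀ (G : Type) [Group G] (VX : Type) [NormedAddCommGroup VX] [NormedSpace ℝ VX]
  (A : VX → G) (Hs : Type) [NormedAddCommGroup Hs] [InnerProductSpace ℝ Hs] [CompleteSpace Hs]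
  (R : G → Hs →ₗᵢ[ℝ] Hs) (b : G → Hs) (K C : ℝ),
  (∀ a a', A (a + a') = A a * A a') →
  (∀ (u v : G) (z : Hs), R (u * v) z = R u (R v z)) →
  (∀ u v, b (u * v) = b u + R u (b v)) → 0 ≤ K → 0 ≤ C →
  (∀ a, ‖b (A a)‖ ≤ K * ‖a‖ + C) →
  ∃ P : VX →ₗ[ℝ] Hs, (∀ a, ‖P a‖ ≤ K * ‖a‖) ∧
    (∀ a, Tendsto (fun j : ℕ => ((j : ℝ)⁻¹) • b (A ((j : ℝ) • a))) atTop (𝓝 (P a))) ∧
    ∀ a a', R (A a') (P a) = P a

/-- **NIN** (uses: none).  Invariance under the contracted elements.  Same setting as ERG (the three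
conclusions of ERG are now hypotheses); `n` is contracted by the elements of a spanning set `D`:
`b (A (-(j a)) n A (j a))` is bounded in `j`.  Then `R n (P a) = P a` and
`b (n A (j a)) / j → P a` for all `a`.

PROOF.  For `a ∈ D` put `n_j := A (-(j a)) * n * A (j a)`, so `n * A (j a) = A (j a) * n_j`
(`A (j a) * A (-(j a)) = A 0 = 1`).  `b (n * A (j a)) = b n + R n (b (A (j a)))` and
`b (A (j a) * n_j) = b (A (j a)) + R (A (j a)) (b n_j)`, so
`‖R n (b (A (j a))) - b (A (j a))‖ ≤ ‖b n‖ + C'`; divide by `j` and let `j → ∞` (`R n` is continuous):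
`R n (P a) = P a`.  Both sides are linear in `a` and `D` spans, so this holds for all `a`
(`Submodule.span_induction` or `LinearMap.ext_on`).  Finally
`b (n A (j a)) / j = b n / j + R n (b (A (j a)) / j) → R n (P a) = P a`. -/
def NinStmt : Prop := ∀ (G : Type) [Group G] (VX : Type) [NormedAddCommGroup VX] [NormedSpace ℝ VX]
  (A : VX → G) (Hs : Type) [NormedAddCommGroup Hs] [InnerProductSpace ℝ Hs] [CompleteSpace Hs]
  (R : G → Hs →ₗᵢ[ℝ] Hs) (b : G → Hs) (P : VX →ₗ[ℝ] Hs) (D : Set VX) (n : G),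
  (∀ a a', A (a + a') = A a * A a') →
  (∀ (u v : G) (z : Hs), R (u * v) z = R u (R v z)) →
  (∀ u v, b (u * v) = b u + R u (b v)) →
  (∀ a, Tendsto (fun j : ℕ => ((j : ℝ)⁻¹) • b (A ((j : ℝ) • a))) atTop (𝓝 (P a))) →
  (∀ a a', R (A a') (P a) = P a) →
  Submodule.span ℝ D = ⊤ →
  (∀ a ∈ D, ∃ C' : ℝ, ∀ j : ℕ, ‖b (A (-((j : ℝ) • a)) * n * A ((j : ℝ) • a))‖ ≤ C') →
  (∀ a, R n (P a) = P a) ∧
    ∀ a, Tendsto (fun j : ℕ => ((j : ℝ)⁻¹) • b (n * A ((j : ℝ) • a))) atTop (𝓝 (P a))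

/-! ### Typical points -/

/-- The hypotheses of the differentiation theorem: `h : G → V` is coarsely Lipschitz for right
multiplication (`ℓ` = length of the elements of `G`), `A` is additive with `ℓ (A a) ≤ K ‖a‖`, the
elements `n ∈ Nn` are contracted by the elements of a spanning set `D`. -/
structure Dif (G : Type) [Group G] (V : Type) [NormedAddCommGroup V] (VX : Type)
    [NormedAddCommGroup VX] [NormedSpace ℝ VX] where
  ℓ : G → ℝ
  h : G → V
  A : VX → G
  Nn : Set G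
  D : Set VX
  L : ℝ
  C : ℝ
  K : ℝ
  L0 : 0 ≤ L
  C0 : 0 ≤ C
  K0 : 0 ≤ K
  lip : ∀ x u, ‖h (x * u) - h x‖ ≤ L * ℓ u + C
  add : ∀ a a', A (a + a') = A a * A a'
  len : ∀ a, ℓ (A a) ≤ K * ‖a‖
  span : Submodule.span ℝ D = ⊤
  con : ∀ n ∈ Nn, ∀ a ∈ D, ∃ C' : ℝ, ∀ j : ℕ, ℓ (A (-((j : ℝ) • a)) * n * A ((j : ℝ) • a)) ≤ C'

/-- **TYP** (uses: HIL, ERG, NIN).  The differentiation theorem for finitely many data.

PROOF.  `b u := (x ↦ h (x u) - h x)` is in `BF G V` (`lip`), `b (u v) = b u + shift u (b v)`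
(`h(xuv) - h(x) = (h(xu) - h(x)) + (h((xu)v) - h(xu))`).  Take `Hs`, `j`, `R` from HIL for the mean,
`B u := j (b u)`; `B (u v) = B u + R u (B v)`; `‖B u‖ ≤ L ℓ u + C` (as `M` is positive and `M 1 = 1`,
`‖j p‖^2 = M ‖p‖^2 ≤ sup ‖p‖^2`; write the constant as `max 0 (L ℓ u + C)`, which is `L ℓ u + C`
because `0 ≤ ‖h (x u) - h x‖ ≤ L ℓ u + C`).  So `‖B (A a)‖ ≤ L K ‖a‖ + C`; ERG gives `P`; NIN
(`con` gives `‖B (n_j)‖ ≤ L C' + C`) gives `B (n A (j a)) / j → P a` for `n ∈ Nn`, and also for `n = 1`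
(ERG).  Let `a_1 .. a_r` be a basis of `VX`, `c_i(a)` the coordinates.  For
`(n, a) ∈ T` the function
`Δ_(n,a) := (1/j) b(n A(j a)) - ∑_i c_i(a) (1/j) b(A(j a_i)) ∈ BF G V` has
`j(Δ) → P a - ∑ c_i(a) P a_i = 0` in `Hs`, so for some `j ≥ max(j0, 1)`
`∑_T M(‖Δ_(n,a) x‖^2) < ε^2` (finite sum of sequences tending to `0`).  The bounded function
`x ↦ ∑_T ‖Δ_(n,a) x‖^2` is not everywhere `≥ ε^2` (else its mean would be `≥ ε^2`): take `x` with
value `< ε^2`, so `‖Δ_(n,a) x‖ ≤ ε` for all `(n,a) ∈ T`.  Put `Q a := ∑_i c_i(a) (1/j)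
(h (x A(j a_i)) - h x)`: linear, `‖Q a‖ ≤ ∑ |c_i(a)| (L K ‖a_i‖ + C) ≤ K' ‖a‖` with `K'` independent of
`j, x` (`|c_i(a)| ≤ k_i ‖a‖`, finite dimension), and
`h (x * n * A(j a)) - h x - j Q a = j Δ_(n,a) x`.  QED -/
def TypStmt : Prop := HilStmt → ErgStmt → NinStmt →
  ∀ (G : Type) [Group G] (M : (G → ℝ) → ℝ), IsMean M →
  ∀ (V : Type) [NormedAddCommGroup V] [InnerProductSpace ℝ V]
    (VX : Type) [NormedAddCommGroup VX] [NormedSpace ℝ VX] [FiniteDimensional ℝ VX]
    (d : Dif G V VX),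
    ∃ K' : ℝ, 0 ≤ K' ∧ ∀ (T : Finset (G × VX)), (∀ t ∈ T, t.1 ∈ d.Nn) → ∀ ε > (0 : ℝ), ∀ j0 : ℕ,
      ∃ (j : ℕ) (x : G) (Q : VX →ₗ[ℝ] V), j0 ≤ j ∧ 1 ≤ j ∧ (∀ a, ‖Q a‖ ≤ K' * ‖a‖) ∧
        ∀ t ∈ T, ‖d.h (x * t.1 * d.A ((j : ℝ) • t.2)) - d.h x - (j : ℝ) • Q t.2‖ ≤ ε * j

/-- **SEQ** (uses: TYP, HIL, ERG, NIN).  The sequence of good base points, uniform on the unit ball
of `VX`, for countably many `n`.

PROOF.  TYP gives `K'`.  Enumerate `Nn ⊆ {n_0, n_1, ..}` (if `Nn` is empty everything is trivial, take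
TYP with `T = ∅`; otherwise `Set.Countable.exists_eq_range`).  For `s` let `ε_s = 1/(s+1)`, `B_s` a
finite `ε_s`-net of the (compact) unit ball of `VX` contained in it, `T_s = {n_i : i ≤ s} × B_s`; TYP with
`T_s, ε_s, j0 = s` gives `j_s ≥ s`, `x_s`, `Q_s`.  For `n = n_i`, `s ≥ i`, `‖a‖ ≤ 1` take `a' ∈ B_s` with
`‖a - a'‖ ≤ ε_s`:  `x n A(j a) = (x n A(j a')) A(j (a - a'))`, so
`‖h(x n A(j a)) - h(x n A(j a'))‖ ≤ L K j ε_s + C`, and `j ‖Q (a - a')‖ ≤ j K' ε_s`.  In total
`≤ j (ε_s + L K ε_s + K' ε_s + C / j_s) ≤ ε j` for large `s`. -/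
def SeqStmt : Prop := TypStmt → HilStmt → ErgStmt → NinStmt →
  ∀ (G : Type) [Group G] (M : (G → ℝ) → ℝ), IsMean M →
  ∀ (V : Type) [NormedAddCommGroup V] [InnerProductSpace ℝ V]
    (VX : Type) [NormedAddCommGroup VX] [NormedSpace ℝ VX] [FiniteDimensional ℝ VX]
    (d : Dif G V VX), d.Nn.Countable →
    ∃ (K' : ℝ) (j : ℕ → ℕ) (x : ℕ → G) (Q : ℕ → VX →ₗ[ℝ] V), 0 ≤ K' ∧
      Tendsto j atTop atTop ∧ (∀ s, 1 ≤ j s) ∧ (∀ s a, ‖Q s a‖ ≤ K' * ‖a‖) ∧
      ∀ n ∈ d.Nn, ∀ ε > (0 : ℝ), ∀ᶠ s in atTop, ∀ a : VX, ‖a‖ ≤ 1 →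
        ‖d.h (x s * n * d.A ((j s : ℝ) • a)) - d.h (x s) - (j s : ℝ) • Q s a‖ ≤ ε * j s

end Pool.Agent.QSX
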