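import Pool.Agent.QSX.StmtsG

/-!
# Squad QSX: from a quasi-isometric embedding to the vertical flats

One statement per row; every docstring contains a complete proof.
-/

set_option autoImplicit false

namespace Pool.Agent.QSX

open Matrix Finset

/-- **The output of the differentiation.**  `F n s a` is the image (a point of `Y`) of the point
`n · diag (exp (R s a))` of the flat `n A`, for the `s`-th embedding, normalised at `n = 1`, `a = 0`. -/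
structure Flt (X Y : Dat) (hX : X.Split) where
  S : Scale
  one_le : ∀ s, 1 ≤ S.R s
  P : X.b →ₗ[ℝ] (Fin Y.m → ℝ)
  Pb : ∀ a, P a ∈ Y.b
  F : (Matrix (Fin X.m) (Fin X.m) ℝ)ˣ → ℕ → X.b → Y.Pt
  L : ℝ
  C : ℝ
  one_le_L : 1 ≤ L
  zero_le_C : 0 ≤ C
  /-- two points of the same flat -/
  lip : ∀ n ∈ hX.Gam, ∀ s a a',
    len ((Y.mat (F n s a))⁻¹ * Y.mat (F n s a')) ≤ L * (S.R s * ‖a - a'‖) + C
  /-- two flats, upper bound -/
  up : ∀ n ∈ hX.Gam, ∀ n' ∈ hX.Gam, ∀ s (a : X.b),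
    len ((Y.mat (F n s a))⁻¹ * Y.mat (F n' s a)) ≤
      L * len ((ud (S.R s • (a : Fin X.m → ℝ)))⁻¹ * (n⁻¹ * n') * ud (S.R s • (a : Fin X.m → ℝ))) + C
  /-- the logarithms of the diagonals are affine, with the same linear part on all flats -/
  aff : ∀ n ∈ hX.Gam, ∀ ε > (0 : ℝ), ∀ᶠ s in (S.ω : Filter ℕ), ∀ a : X.b, ‖a‖ ≤ 1 → ∀ i,
    |((F n s a).2 : Fin Y.m → ℝ) i - S.R s * P a i| ≤ ε * S.R s
  /-- two flats, lower bound -/
  dn : ∀ n ∈ hX.Gam, ∀ n' ∈ hX.Gam, ∀ ε > (0 : ℝ), ∀ᶠ s in (S.ω : Filter ℕ), ∀ a : X.b, ‖a‖ ≤ 1 →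
    len ((ud (S.R s • (a : Fin X.m → ℝ)))⁻¹ * (n⁻¹ * n') * ud (S.R s • (a : Fin X.m → ℝ))) / L -
      C - ε * S.R s ≤ len ((Y.mat (F n s a))⁻¹ * Y.mat (F n' s a))

/-- **CNR** (medium, uses MCJ PLN).  Conjugation of a nilpotent element by the diagonal.
Proof.  `(ud a)⁻¹ ue z ud a = ue z'` with `z' = ∑_ν t_ν exp (-rt_ν a) e_ν` for `z = ∑_ν t_ν e_ν` (`wt`: `e_ν` has entries only where `a_i - a_l = rt_ν a`, MCJ).  If `rt_ν a ≥ 0` for all `ν` of the support, `sz z' ≤ ∑ |t_ν| sz e_ν`,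
and PLN (third inequality, `c = 0`) bounds the length. -/
def CnrStmt : Prop :=
  ∀ (X : Dat) (hX : X.Split) (Ψ : Set hX.ι), ∀ z ∈ Submodule.span ℝ (hX.e '' Ψ),
    ∃ B : ℝ, ∀ a ∈ hX.dual Ψ,
      len ((ud (a : Fin X.m → ℝ))⁻¹ * ue z * ud (a : Fin X.m → ℝ)) ≤ B

/-- **CLW** (easy-medium, uses MCJ LOW).  Lower bound for root elements.
Proof.  `(ud a)⁻¹ ue (x e_l) ud a = ue (x exp (-rt_l a) e_l)`; LOW. -/
def ClwStmt : Prop :=
  ∀ (X : Dat) (hX : X.Split) (l : hX.ι) (x : ℝ), x ≠ 0 →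
    ∃ k C : ℝ, 0 < k ∧ ∀ a : X.b,
      -(k * hX.rt l a) - C ≤ len ((ud (a : Fin X.m → ℝ))⁻¹ * ue (x • hX.e l) * ud (a : Fin X.m → ℝ))

/-- **GNX** (easy, uses BCH LGM).  The elements of `Γ` are exponentials of elements of `n_X`.
Proof.  The set `{ue x : x ∈ n}` is a group (BCH; `(ue x)⁻¹ = ue (-x)`), it contains the generators. -/
def GnxStmt : Prop :=
  ∀ (X : Dat) (hX : X.Split), ∀ n ∈ hX.Gam, ∃ x ∈ X.n, n = ue x

/-- **CGM** (easy).  `Γ` is countable.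
Proof.  The group generated by a countable set is countable. -/
def CgmStmt : Prop := ∀ (X : Dat) (hX : X.Split), (hX.Gam : Set (Matrix (Fin X.m) (Fin X.m) ℝ)ˣ).Countable

/-- **VRT** (strong assembly, uses NVL CLG ENT ENU CNR CLW LGM).
Proof.  `φ n s a = ue (F n s a).1`.  For fixed `n ∈ Γ` the hypothesis of NVL holds: for `R s ‖a - a'‖ ≤ 1` the length of `(mat F n s a)⁻¹ mat (F n s a')` is `≤ L + C` (`lip`), so by ENT and `aff` (at `a` and `a'`)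
`|(φ(a)⁻¹ φ(a'))_il| ≤ exp (L + C + R P_i(a) + ε R - R P_l(a') + ε R)`, and `|R P_l(a) - R P_l(a')| ≤ ‖P‖`.  (`φ n s a = ue y`, `y ∈ n_Y`, for all `n`, `s`, `a`.)  NVL gives `ψ n` (for `n ∉ Γ` put `ψ n = 1`), `φ(a)⁻¹ ψ(n)` in the class on the
unit ball.
`near`: `n' = n ue z`, `z` in the span of `Ψ`, `a ∈ dual Ψ`, `‖a‖ ≤ 1`: `up` and CNR at `R s a ∈ dual Ψ`: the length of `(mat F n s a)⁻¹ mat (F n' s a)` is bounded, so by ENT and `aff` `φ(n,a)⁻¹ φ(n',a)` is in the class on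
`B ∩ dual Ψ`, and `ψ(n)⁻¹ ψ(n') = (φ(n,a)⁻¹ ψ(n))⁻¹ (φ(n,a)⁻¹ φ(n',a)) (φ(n',a)⁻¹ ψ(n'))` (CLG for families, then the family does not depend on `a`).
`far`: suppose the class condition at `a` (`‖a‖ ≤ 1`, `rt_l a < 0`) holds for `ψ(n)⁻¹ ψ(n')`, `n' = n ue (x e_l)`.  Then (CLG on `{a}`) `φ(n,a)⁻¹ φ(n',a)` is in the class at `a`, so by `aff` its entries are at most
`exp (3 ε R + c_i - c_l)`, `c = (F n s a).2`, and `|c_i - c'_i| ≤ 2 ε R`; ENU: the length is at most `K (1 + 5 ε R)`.  But by `dn` and CLW (at `R s a`; `n⁻¹ n' = ue (x e_l)`) it is at least `(k R |rt_l a| - C')/L - C - ε R`.  For `ε` small and `R` large: contradiction.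
`n' ∈ Γ` (closure). -/
def VrtStmt : Prop :=
  ∀ (X Y : Dat) (hX : X.Split), Nonempty (Flt X Y hX) → Nonempty (Vert X Y hX)

end Pool.Agent.QSX
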