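import Pool.Agent.QSX.StmtsV
import Pool.Agent.QSX.StmtsM

/-!
# Squad QSX: from a quasi-isometric embedding to the data `Flt`

One statement per row; every docstring contains a complete proof.
-/

set_option autoImplicit false

namespace Pool.Agent.QSX

open Matrix Finset

/-- the vector `(c, v)` of a point `((x, c), v)` of `Y × E` -/
noncomputable def hv (Y : Dat) (E : Type) [NormedAddCommGroup E] (q : Y.Pt × E) :
    WithLp 2 (EuclideanSpace ℝ (Fin Y.m) × E) :=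
  WithLp.toLp 2 (WithLp.toLp 2 (q.1.2 : Fin Y.m → ℝ), q.2)

/-- **LUD** (easy).  Length of a diagonal matrix.
Proof.  The operator norm of a diagonal matrix is the maximum of the absolute values of the entries (`Matrix.l2_opNorm_diagonal`, or directly `‖diag v x‖ ≤ max |v_i| ‖x‖`), here `≤ exp ‖c‖` for both matrices.
(`m = 0`: the length is `log 0 = 0`; in general `log` of a number in `[0, exp ‖c‖]` is `≤ ‖c‖`.) -/
def LudStmt : Prop := ∀ (m : ℕ) (c : Fin m → ℝ), len (ud c) ≤ ‖c‖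

/-- **HVB** (medium, uses DFN PLN).  The vector of a point is coarsely Lipschitz.
Proof.  (1), (2): components of a vector of an `ℓ²` product.  (3) `|c_i - c'_i| ≤ len (mat⁻¹ mat') = Y.dist` (DFN and the first inequality of PLN), so the Euclidean norm of `c - c'` is at most `√m Y.dist`; both summands are at most `√m` resp. `1` times
`pdist`. -/
def HvbStmt : Prop :=
  ∀ (Y : Dat) (E : Type) [NormedAddCommGroup E] [InnerProductSpace ℝ E], ∃ K : ℝ, 0 < K ∧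
    ∀ q q' : Y.Pt × E,
      (∀ i, |(q.1.2 : Fin Y.m → ℝ) i - (q'.1.2 : Fin Y.m → ℝ) i| ≤ ‖hv Y E q - hv Y E q'‖) ∧
      ‖q.2 - q'.2‖ ≤ ‖hv Y E q - hv Y E q'‖ ∧ ‖hv Y E q - hv Y E q'‖ ≤ K * pdist Y E q q'

/-- **LMP** (medium).  Limits of bounded linear maps along an ultrafilter.
Proof.  `Q s a i` lies in the compact interval `[-K ‖a‖, K ‖a‖]`, so it converges along `ω` to `P a i`; `P` is linear (limits of sums).  Uniformity: a basis `a_1, ..., a_r` of `V`, `|c_k(a)| ≤ κ ‖a‖`, and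
`|Q s a i - P a i| ≤ κ ∑_k |Q s a_k i - P a_k i|` for `‖a‖ ≤ 1`. -/
def LmpStmt : Prop :=
  ∀ (ω : Ultrafilter ℕ) (V : Type) [NormedAddCommGroup V] [NormedSpace ℝ V] [FiniteDimensional ℝ V]
    (m : ℕ) (Q : ℕ → V →ₗ[ℝ] (Fin m → ℝ)) (K : ℝ), (∀ s a i, |Q s a i| ≤ K * ‖a‖) →
    ∃ P : V →ₗ[ℝ] (Fin m → ℝ), ∀ ε > (0 : ℝ), ∀ᶠ s in (ω : Filter ℕ), ∀ a : V, ‖a‖ ≤ 1 →
      ∀ i, |Q s a i - P a i| ≤ ε

/-- **DIF** (medium-strong, uses GRP LUD HVB CNR GNX MIJ).  The differentiation data of an embedding.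
Proof.  `pt g` is the point with `g = X.mat (pt g)` (`IsGrp`).  `ℓ g = len g`, `h g = hv (f (pt g))`, `A a = ud a` (in `G`: it is `X.mat (0, a)`, `ue 0 = 1`), `Nn = {g : g ∈ Γ}`, `D = {a : all rt l a > 0}`.
`lip`: `X.dist (pt x) (pt (x u)) = len (x⁻¹ (x u)) = len u`, so `‖h (x u) - h x‖ ≤ K pdist ≤ K (L len u + C)` (the upper QIE bound; `pdist` and the norm are symmetric or take the points in the right order).
`add`: `exp` of a sum.  `len`: LUD (`‖a‖` is the sup norm of the subspace).  `span`: `D` is open and not empty (`pos`): for `v ∈ X.b` and small `t > 0`, `a_+ + t v ∈ D`.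
`con`: `n = ue z`, `z ∈ n` (GNX), `span_e`: `z` in the span of `e '' univ`; `A (-(j a)) n A (j a) = (ud (j a))⁻¹ ue z ud (j a)`, `j a ∈ dual univ`: CNR. -/
def DifStmt : Prop :=
  ∀ (X Y : Dat) (hX : X.Split) (E : Type) [NormedAddCommGroup E] [InnerProductSpace ℝ E]
    (f : X.Pt → Y.Pt × E), QIE X.dist (pdist Y E) f →
    ∀ (G : Subgroup (Matrix (Fin X.m) (Fin X.m) ℝ)ˣ), X.IsGrp G →
    ∃ (pt : G → X.Pt) (d : Dif G (WithLp 2 (EuclideanSpace ℝ (Fin Y.m) × E)) X.b),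
      (∀ g : G, (g : (Matrix (Fin X.m) (Fin X.m) ℝ)ˣ) = X.mat (pt g)) ∧
      (∀ g : G, d.h g = hv Y E (f (pt g))) ∧
      (∀ a : X.b, ((d.A a : G) : (Matrix (Fin X.m) (Fin X.m) ℝ)ˣ) = ud (a : Fin X.m → ℝ)) ∧
      d.Nn = {g : G | (g : (Matrix (Fin X.m) (Fin X.m) ℝ)ˣ) ∈ hX.Gam}

/-- **GGX** (easy, uses GNX).  `Γ` is contained in the group of `X`.
Proof.  `n = ue x = X.mat (x, 0)`. -/
def GgxStmt : Prop :=
  ∀ (X : Dat) (hX : X.Split) (G : Subgroup (Matrix (Fin X.m) (Fin X.m) ℝ)ˣ), X.IsGrp G →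
    hX.Gam ≤ G

/-- **FLT** (strong assembly, uses GRP MDX FSV MEA UTS FCM FEX SEQ TYP HIL ERG NIN DIF LMP HVB DFN LEN LUD CGM GGX; the block M rows are used only to obtain a mean `M` on the group `G` of `X` and the conclusion of SEQ).
Proof.  `G` from GRP, a mean from MDX, `pt`, `d` from DIF, `d.Nn` is countable (CGM), SEQ: `K'`, `j`, `x`, `Q`.  `S`: `ω = hyperfilter ℕ`, `R s = j s` (`→ ∞`, `≥ 1`).  The first components of `Q s` (in `EuclideanSpace`) are linear maps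
`V → (Fin Y.m → ℝ)` bounded by `K' ‖a‖`; LMP gives `P`.  For `n ∈ Γ` (in `G` by GGX) let `F n s a` be the point `r` with
`Y.mat r = (Y.mat (f (pt (x s))).1)⁻¹ * Y.mat (f (pt (x s * n * A (R s a)))).1` (DFN; for `n ∉ Γ` any point), so `r.2 = c(x s n A(R s a)) - c(x s)`.
`lip`, `up`: `(Y.mat (F n s a))⁻¹ Y.mat (F n' s a') = (Y.mat y)⁻¹ Y.mat y'` with the images `y, y'` of the two points of `X`, its length is `Y.dist ≤ pdist ≤ L X.dist + C`, and
`X.dist = len ((x s n A(R a))⁻¹ (x s n' A(R a'))) = len (ud(R a)⁻¹ n⁻¹ n' ud(R a'))`; for `n = n'` it is `len (ud (R (a' - a))) ≤ R ‖a - a'‖` (LUD).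
`aff`: `|r.2 i - R Q_i(a)| ≤ ‖h(x n A(R a)) - h(x) - R Q(a)‖ ≤ (ε/2) R` (SEQ) and `|Q_i(a) - P_i(a)| ≤ ε/2` (LMP).
`Pb`: for `‖a‖ ≤ 1`, `P a` is the limit along `ω` of `(1/R) (F 1 s a).2 ∈ Y.b`, a closed subspace; scale.
`dn`: `X.dist / L - C ≤ pdist ≤ Y.dist + ‖v - v'‖` and `‖v - v'‖ ≤ ‖h(x n A(R a)) - h(x n' A(R a))‖ ≤ ε R` by SEQ for `n` and `n'` (the same linear map `Q s`). -/
def FltStmt : Prop :=
  ∀ (X Y : Dat) (hX : X.Split) (E : Type) [NormedAddCommGroup E] [InnerProductSpace ℝ E]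
    (f : X.Pt → Y.Pt × E), QIE X.dist (pdist Y E) f → Nonempty (Flt X Y hX)

end Pool.Agent.QSX
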